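import Mathlib

set_option autoImplicit false

open Filter Metric Set Topology
open scoped ComplexConjugate Manifold ContDiff

namespace Pool.Agent.PNB

/-! ### Definitions used in the statement

`X` is a complex manifold modelled on the finite dimensional complex vector space `E`. -/

section Definitions

variable (E : Type) [NormedAddCommGroup E] [NormedSpace ℂ E]
variable {X : Type} [TopologicalSpace X] [ChartedSpace E X]

/-- `f` is a holomorphic map from the disc `|ζ| < r` into the subset `S` of `X`. -/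
def IsHolDisc (S : Set X) (r : ℝ) (f : ℂ → X) : Prop :=
  ContMDiffOn 𝓘(ℂ, ℂ) 𝓘(ℂ, E) ω f (ball 0 r) ∧ MapsTo f (ball 0 r) S

/-- The Laplacian at `ζ = 0` of a real function of one complex variable. -/
noncomputable def laplaceAtZero (u : ℂ → ℝ) : ℝ :=
  iteratedDeriv 2 (fun s : ℝ => u (s : ℂ)) 0 +
    iteratedDeriv 2 (fun s : ℝ => u ((s : ℂ) * Complex.I)) 0

variable (X) in
/-- A smooth closed real `(1,1)`-form on `X`, given by its local potentials: `X` is covered by open
sets `V j` with smooth real functions `pot j` on `V j`, the differences `pot j - pot k` are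
pluriharmonic on `V j ∩ V k` (tested on holomorphic discs), and the form is `dd^c (pot j)` on
`V j`. -/
structure ClosedForm where
  J : Type
  V : J → Set X
  pot : J → X → ℝ
  isOpen_V : ∀ j, IsOpen (V j)
  cover : ∀ x, ∃ j, x ∈ V j
  smooth : ∀ j, ContMDiffOn 𝓘(ℝ, E) 𝓘(ℝ, ℝ) ∞ (pot j) (V j)
  pluriharmonic : ∀ (j k : J) (r : ℝ) (f : ℂ → X), 0 < r → IsHolDisc E (V j ∩ V k) r f →
    laplaceAtZero (fun ζ => pot j (f ζ) - pot k (f ζ)) = 0

/-- `φ : S → [-∞, ∞)` is plurisubharmonic, or identically `-∞` on some components, on the open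
set `S`: it is upper semicontinuous and for every holomorphic map `f` from a neighbourhood of the
closed unit disc into `S`, the value `φ (f 0)` is at most the average of `φ ∘ f` over the unit
circle, that is, at most the average of every continuous function `g ≥ φ ∘ f`. -/
def IsPshOn (S : Set X) (φ : X → EReal) : Prop :=
  (∀ x ∈ S, φ x < ⊤) ∧ UpperSemicontinuousOn φ S ∧
  ∀ (r : ℝ) (f : ℂ → X), 1 < r → IsHolDisc E S r f → ∀ g : ℂ → ℝ, Continuous g →
    (∀ ζ : ℂ, ‖ζ‖ = 1 → φ (f ζ) ≤ ((g ζ : ℝ) : EReal)) →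
      φ (f 0) ≤ ((Real.circleAverage g 0 1 : ℝ) : EReal)

variable {E}

/-- The form is a Kähler form: it is positive on every nonzero tangent vector, that is, the
Laplacian of the potentials along every holomorphic disc with nonzero derivative is positive. -/
def ClosedForm.IsKahler (κ : ClosedForm E X) : Prop :=
  ∀ (j : κ.J) (r : ℝ) (f : ℂ → X), 0 < r → IsHolDisc E (κ.V j) r f →
    mfderiv 𝓘(ℂ, ℂ) 𝓘(ℂ, E) f 0 ≠ 0 → 0 < laplaceAtZero (fun ζ => κ.pot j (f ζ))

/-- `u : X → [-∞, ∞)` is `θ`-psh on the connected manifold `X`: it is not identically `-∞` and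
`u + pot j` is plurisubharmonic for every local potential of `θ`. -/
def IsThetaPsh (θ : ClosedForm E X) (u : X → EReal) : Prop :=
  (∃ x, u x ≠ ⊥) ∧ ∀ j, IsPshOn E (θ.V j) (fun x => u x + ((θ.pot j x : ℝ) : EReal))

/-- The class of `θ` is big: it contains a current `θ + dd^c u` which is bounded below by `ε κ` for
some `ε > 0`, where `κ` is a Kähler form. -/
def ClosedForm.IsBig (θ κ : ClosedForm E X) : Prop :=
  ∃ (ε : ℝ) (u : X → EReal), 0 < ε ∧ (∃ x, u x ≠ ⊥) ∧
    ∀ (j : θ.J) (k : κ.J), IsPshOn E (θ.V j ∩ κ.V k)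
      (fun x => u x + ((θ.pot j x - ε * κ.pot k x : ℝ) : EReal))

/-- The envelope `V_θ`, the supremum of all nonpositive `θ`-psh functions. -/
noncomputable def envelope (θ : ClosedForm E X) (x : X) : EReal :=
  sSup {y : EReal | ∃ u : X → EReal, IsThetaPsh θ u ∧ (∀ z, u z ≤ 0) ∧ u x = y}

/-- The polar locus of the class of `θ`. -/
def polarLocus (θ : ClosedForm E X) : Set X := {x | envelope θ x = ⊥}

/-- The non-bounded locus of the class of `θ`: the points `x` such that `V_θ` is unbounded on every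
neighbourhood of `x`. -/
def nonBoundedLocus (θ : ClosedForm E X) : Set X :=
  {x | ∀ W ∈ 𝓝 x, ¬ ∃ C : ℝ, ∀ y ∈ W,
    (((-C : ℝ) : EReal)) ≤ envelope θ y ∧ envelope θ y ≤ ((C : ℝ) : EReal)}

end Definitions

end Pool.Agent.PNB
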