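import Pool.Agent.PNB.Defs

set_option autoImplicit false

open Filter Metric Set Topology
open scoped ComplexConjugate Manifold ContDiff

namespace Pool.Agent.PNB

/-! ### from local to global sub-mean value inequalities -/

lemma exists_poly_approx {g : ℂ → ℝ} (hg : Continuous g) {ε : ℝ} (hε : 0 < ε) :
    ∃ P : Polynomial ℂ, ∀ ζ : ℂ, ‖ζ‖ = 1 → |g ζ - (P.eval ζ).re| < ε := by
  set T : ℝ := 2 * Real.pi with hT
  have : Fact (0 < T) := ⟨by positivity⟩
  let h : C(AddCircle T, ℂ) :=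
    ⟨fun x => (g ((AddCircle.toCircle x : Circle) : ℂ) : ℂ), by
      exact Complex.continuous_ofReal.comp
        (hg.comp (continuous_subtype_val.comp AddCircle.continuous_toCircle))⟩
  have hmem : h ∈ (Submodule.span ℂ (Set.range <| @fourier T)).topologicalClosure := by
    rw [span_fourier_closure_eq_top]; trivial
  have hmem' : h ∈ closure ((Submodule.span ℂ (Set.range <| @fourier T) : Submodule ℂ _) : Set C(AddCircle T, ℂ)) := hmem
  obtain ⟨k, hk, hdist⟩ := Metric.mem_closure_iff.1 hmem' ε hε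
  have key : ∃ P Q : Polynomial ℂ, ∀ x : AddCircle T,
      k x = P.eval ((AddCircle.toCircle x : Circle) : ℂ) +
        conj (Q.eval ((AddCircle.toCircle x : Circle) : ℂ)) := by
    refine Submodule.span_induction (p := fun k _ => ∃ P Q : Polynomial ℂ, ∀ x : AddCircle T,
      k x = P.eval ((AddCircle.toCircle x : Circle) : ℂ) +
        conj (Q.eval ((AddCircle.toCircle x : Circle) : ℂ))) ?_ ?_ ?_ ?_ hk
    · rintro _ ⟨n, rfl⟩
      obtain ⟨m, rfl | rfl⟩ := n.eq_nat_or_neg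
      · refine ⟨Polynomial.X ^ m, 0, fun x => ?_⟩
        simp [fourier_apply, AddCircle.toCircle_nsmul]
      · refine ⟨0, Polynomial.X ^ m, fun x => ?_⟩
        rw [fourier_neg]
        simp [fourier_apply, AddCircle.toCircle_nsmul]
    · exact ⟨0, 0, fun x => by simp⟩
    · rintro a b _ _ ⟨P, Q, h1⟩ ⟨P', Q', h2⟩
      refine ⟨P + P', Q + Q', fun x => ?_⟩
      rw [ContinuousMap.add_apply, h1, h2]
      simp only [Polynomial.eval_add, map_add]
      ring
    · rintro a b _ ⟨P, Q, h1⟩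
      refine ⟨Polynomial.C a * P, Polynomial.C (conj a) * Q, fun x => ?_⟩
      rw [ContinuousMap.smul_apply, h1]
      simp only [Polynomial.eval_mul, Polynomial.eval_C, map_mul, Complex.conj_conj, smul_eq_mul]
      ring
  obtain ⟨P, Q, hPQ⟩ := key
  refine ⟨P + Q, fun ζ hζ => ?_⟩
  obtain ⟨x, hx⟩ : ∃ x : AddCircle T, AddCircle.toCircle x = (⟨ζ, by simp [Submonoid.unitSphere, hζ]⟩ : Circle) := by
    obtain ⟨x, hx⟩ := (AddCircle.homeomorphCircle (T := T) (by positivity)).surjective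
      (⟨ζ, by simp [Submonoid.unitSphere, hζ]⟩ : Circle)
    exact ⟨x, by rw [← hx, AddCircle.homeomorphCircle_apply]⟩
  have hx' : ((AddCircle.toCircle x : Circle) : ℂ) = ζ := by rw [hx]
  have h1 : ‖h x - k x‖ < ε := by
    have e := ContinuousMap.norm_coe_le_norm (h - k) x
    rw [ContinuousMap.sub_apply] at e
    rw [dist_eq_norm] at hdist
    exact lt_of_le_of_lt e hdist
  have h2 : (h x - k x).re = g ζ - ((P + Q).eval ζ).re := by
    rw [hPQ x, hx']
    show ((g ((AddCircle.toCircle x : Circle) : ℂ) : ℂ) - _).re = _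
    rw [hx']
    simp only [Complex.sub_re, Complex.ofReal_re, Complex.add_re, Complex.conj_re,
      Polynomial.eval_add]
  rw [← h2]
  exact lt_of_le_of_lt (Complex.abs_re_le_norm _) h1

lemma circleAverage_re {Q : ℂ → ℂ} (hQ : Differentiable ℂ Q) (a : ℂ) (r : ℝ) :
    Real.circleAverage (fun ζ => (Q ζ).re) a r = (Q a).re := by
  have h1 : Real.circleAverage Q a r = Q a := (hQ.diffContOnCl (s := ball a |r|)).circleAverage
  have h2 := Complex.reCLM.circleAverage_comp_comm (f := Q) (c := a) (R := r)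
    (hQ.continuous.continuousOn.circleIntegrable')
  have h3 : (fun ζ => (Q ζ).re) = Complex.reCLM ∘ Q := rfl
  rw [h3, h2, h1]
  rfl

/-- sub-mean value inequality of `v` on the circle `|ζ - a| = r`, against continuous majorants. -/
def SubMean (v : ℂ → EReal) (a : ℂ) (r : ℝ) : Prop :=
  ∀ g : ℂ → ℝ, Continuous g → (∀ ζ, ‖ζ - a‖ = r → v ζ ≤ (g ζ : EReal)) →
    v a ≤ ((Real.circleAverage g a r : ℝ) : EReal)

lemma usc_add_real {X : Type} [TopologicalSpace X] {v : X → EReal} {s : Set X} {h : X → ℝ}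
    (hv : UpperSemicontinuousOn v s) (hh : ContinuousOn h s) :
    UpperSemicontinuousOn (fun x => v x + ((h x : ℝ) : EReal)) s := by
  have h1 : UpperSemicontinuousOn (fun x => ((h x : ℝ) : EReal)) s :=
    (continuous_coe_real_ereal.comp_continuousOn hh).upperSemicontinuousOn
  refine hv.add' h1 fun x _ => EReal.continuousAt_add ?_ ?_
  · right; exact EReal.coe_ne_bot _
  · right; exact EReal.coe_ne_top _

lemma subMean_of_local {v : ℂ → EReal} (husc : UpperSemicontinuousOn v (closedBall 0 1))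
    (htop : ∀ ζ ∈ closedBall (0 : ℂ) 1, v ζ < ⊤)
    (hloc : ∀ a ∈ ball (0 : ℂ) 1, ∀ᶠ r in 𝓝[>] (0 : ℝ), SubMean v a r) : SubMean v 0 1 := by
  intro g hg hle
  by_contra hlt
  rw [not_le] at hlt
  have hV0 : v 0 ≠ ⊤ := (htop 0 (by simp)).ne
  have hV0' : v 0 ≠ ⊥ := (bot_le.trans_lt hlt).ne'
  obtain ⟨V0, hV⟩ : ∃ V0 : ℝ, v 0 = V0 := ⟨(v 0).toReal, (EReal.coe_toReal hV0 hV0').symm⟩
  rw [hV, EReal.coe_lt_coe_iff] at hlt
  set A := Real.circleAverage g 0 1 with hA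
  set ε := (V0 - A) / 4 with hε
  have hε0 : 0 < ε := by rw [hε]; linarith
  obtain ⟨P, hP⟩ := exists_poly_approx hg hε0
  have hPd : Differentiable ℂ (fun ζ => P.eval ζ) := P.differentiable
  have hP0 : (P.eval 0).re ≤ A + ε := by
    have h1 := circleAverage_re hPd 0 1
    rw [← h1]
    have h2 : Real.circleAverage (fun ζ => g ζ + ε) 0 1 = A + ε := by
      rw [Real.circleAverage_fun_add hg.continuousOn.circleIntegrable'
        continuous_const.continuousOn.circleIntegrable', Real.circleAverage_const]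
    rw [← h2]
    refine Real.circleAverage_mono
      ((Complex.continuous_re.comp hPd.continuous).continuousOn.circleIntegrable')
      ((hg.add continuous_const).continuousOn.circleIntegrable') fun ζ hζ => ?_
    have hζ' : ‖ζ‖ = 1 := by simpa using hζ
    have := abs_lt.1 (hP ζ hζ')
    linarith [this.1]
  set k : ℂ → ℝ := fun ζ => -(P.eval ζ).re + ε * ‖ζ‖ ^ 2 with hk
  have hkc : Continuous k := by
    have := hPd.continuous
    simp only [hk]; fun_prop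
  have husc' : UpperSemicontinuousOn (fun ζ => v ζ + ((k ζ : ℝ) : EReal)) (closedBall 0 1) :=
    usc_add_real husc hkc.continuousOn
  obtain ⟨a, ha, hmax⟩ := husc'.exists_isMaxOn ⟨0, by simp⟩ (isCompact_closedBall 0 1)
  have hmax' : ∀ ζ ∈ closedBall (0 : ℂ) 1, v ζ + ((k ζ : ℝ) : EReal) ≤ v a + ((k a : ℝ) : EReal) :=
    fun ζ hζ => hmax hζ
  have hat : v a ≠ ⊤ := (htop a ha).ne
  have h0 : ((3 * ε : ℝ) : EReal) ≤ v a + ((k a : ℝ) : EReal) := by
    refine le_trans ?_ (hmax' 0 (by simp))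
    rw [hV, ← EReal.coe_add, EReal.coe_le_coe_iff]
    simp only [hk, norm_zero]
    have : V0 = A + 4 * ε := by rw [hε]; ring
    linarith
  have hab : v a ≠ ⊥ := by
    intro hb
    rw [hb, EReal.bot_add, le_bot_iff] at h0
    exact EReal.coe_ne_bot _ h0
  obtain ⟨Va, hVa⟩ : ∃ Va : ℝ, v a = Va := ⟨(v a).toReal, (EReal.coe_toReal hat hab).symm⟩
  rw [hVa] at h0 hmax'
  rw [← EReal.coe_add, EReal.coe_le_coe_iff] at h0
  have hain : a ∈ ball (0 : ℂ) 1 := by
    rw [mem_ball_zero_iff]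
    have ha' : ‖a‖ ≤ 1 := by simpa using ha
    refine lt_of_le_of_ne ha' fun hn => ?_
    have h1 := hle a (by simpa using hn)
    rw [hVa, EReal.coe_le_coe_iff] at h1
    have h2 := abs_lt.1 (hP a hn)
    simp only [hk, hn] at h0
    nlinarith [h2.2]
  have hr : ∀ᶠ r in 𝓝[>] (0 : ℝ), closedBall a r ⊆ ball (0 : ℂ) 1 := by
    obtain ⟨δ, hδ, hsub⟩ := Metric.isOpen_iff.1 isOpen_ball a hain
    filter_upwards [Ioo_mem_nhdsGT hδ] with r hr
    exact (closedBall_subset_ball hr.2).trans hsub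
  obtain ⟨r, ⟨hsub, hsm⟩, hr0⟩ := ((hr.and (hloc a hain)).and self_mem_nhdsWithin).exists
  have hr0' : 0 < r := hr0
  set M := Va + k a with hM
  let G : ℂ → ℝ := fun ζ =>
    ((P.eval ζ - 2 * ε * (conj a * (ζ - a)) + ((M - ε * (‖a‖ ^ 2 + r ^ 2) : ℝ) : ℂ))).re
  have hGd : Differentiable ℂ (fun ζ => P.eval ζ - 2 * ε * (conj a * (ζ - a)) +
      ((M - ε * (‖a‖ ^ 2 + r ^ 2) : ℝ) : ℂ)) := by fun_prop
  have hGc : Continuous G := Complex.continuous_re.comp hGd.continuous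
  have hGavg : Real.circleAverage G a r = (P.eval a).re + (M - ε * (‖a‖ ^ 2 + r ^ 2)) := by
    rw [circleAverage_re hGd]
    rw [sub_self, mul_zero, mul_zero, sub_zero, Complex.add_re, Complex.ofReal_re]
  have h1 := hsm G hGc (fun ζ hζ => by
    have hζ1 : ζ ∈ closedBall (0 : ℂ) 1 :=
      ball_subset_closedBall (hsub (by rw [mem_closedBall, dist_eq_norm, hζ]))
    have h2 := hmax' ζ hζ1
    rcases eq_or_ne (v ζ) ⊥ with hb | hb
    · rw [hb]; exact bot_le
    obtain ⟨Vz, hVz⟩ : ∃ Vz : ℝ, v ζ = Vz :=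
      ⟨(v ζ).toReal, (EReal.coe_toReal (htop ζ hζ1).ne hb).symm⟩
    rw [hVz, ← EReal.coe_add, ← EReal.coe_add, EReal.coe_le_coe_iff] at h2
    rw [hVz, EReal.coe_le_coe_iff]
    have h3 : ‖ζ‖ ^ 2 = ‖a‖ ^ 2 + r ^ 2 + 2 * (conj a * (ζ - a)).re := by
      have e1 : ζ = a + (ζ - a) := by ring
      have e2 : ‖a + (ζ - a)‖ ^ 2 = ‖a‖ ^ 2 + ‖ζ - a‖ ^ 2 + 2 * (conj a * (ζ - a)).re := by
        rw [← Complex.normSq_eq_norm_sq, ← Complex.normSq_eq_norm_sq, ← Complex.normSq_eq_norm_sq,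
          Complex.normSq_add]
        congr 2
        rw [← Complex.conj_re]
        simp [mul_comm]
      rw [← e1, hζ] at e2
      exact e2
    simp only [hk] at h2 hM
    have h4 : G ζ = (P.eval ζ).re - 2 * ε * (conj a * (ζ - a)).re +
        (M - ε * (‖a‖ ^ 2 + r ^ 2)) := by
      simp only [G, Complex.add_re, Complex.sub_re, Complex.ofReal_re]
      congr 2
      have : (2 * (ε : ℂ) * (conj a * (ζ - a))) = ((2 * ε : ℝ) : ℂ) * (conj a * (ζ - a)) := by
        push_cast; ring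
      rw [this, Complex.re_ofReal_mul]
    rw [h4, h3] at *
    nlinarith)
  rw [hVa, hGavg, EReal.coe_le_coe_iff] at h1
  simp only [hk] at hM
  nlinarith [mul_pos hε0 (pow_pos hr0' 2)]

/-! ### binary quadratic forms and the flip -/

abbrev V2 : Type := Fin 2 → ℂ
abbrev C3 : Type := Fin 3 → Fin 3 → Fin 3 → ℂ
/-- states `(c; a, b, e)` -/
abbrev St : Type := C3 × V2 × V2 × V2

/-- the monomials of degree two -/
def mon (i : Fin 3) (x : V2) : ℂ := ![x 0 ^ 2, x 0 * x 1, x 1 ^ 2] i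

lemma mon_zero (x : V2) : mon 0 x = x 0 ^ 2 := rfl
lemma mon_one (x : V2) : mon 1 x = x 0 * x 1 := rfl
lemma mon_two (x : V2) : mon 2 x = x 1 ^ 2 := rfl

lemma mon_smul (t : ℂ) (x : V2) (i : Fin 3) : mon i (fun j => t * x j) = t ^ 2 * mon i x := by
  fin_cases i <;> simp [mon] <;> ring

lemma differentiable_mon (i : Fin 3) : Differentiable ℂ (mon i) := by
  have h0 : Differentiable ℂ (fun x : V2 => x 0) := by fun_prop
  have h1 : Differentiable ℂ (fun x : V2 => x 1) := by fun_prop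
  fin_cases i
  · exact h0.pow 2
  · exact h0.mul h1
  · exact h1.pow 2

lemma norm_mon_le (i : Fin 3) (x : V2) : ‖mon i x‖ ≤ ‖x‖ ^ 2 := by
  have h0 := norm_le_pi_norm x 0
  have h1 := norm_le_pi_norm x 1
  have := norm_nonneg (x 0)
  have := norm_nonneg (x 1)
  fin_cases i
  · simp only [Fin.zero_eta, mon_zero, norm_pow]; gcongr
  · simp only [Fin.mk_one, mon_one, norm_mul]; nlinarith
  · simp only [Fin.reduceFinMk, mon_two, norm_pow]; gcongr

/-- value of a binary quadratic form -/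
def qf (q : Fin 3 → ℂ) (z : V2) : ℂ := ∑ i, q i * mon i z

lemma qf_eq (q : Fin 3 → ℂ) (z : V2) :
    qf q z = q 0 * z 0 ^ 2 + q 1 * (z 0 * z 1) + q 2 * z 1 ^ 2 := by
  simp [qf, Fin.sum_univ_three, mon_zero, mon_one, mon_two]

def wedge (z w : V2) : ℂ := z 1 * w 0 - z 0 * w 1

/-- the second root of the form `q` with root `z` -/
noncomputable def flip (q : Fin 3 → ℂ) (z : V2) : V2 :=
  if z 0 = 0 then ![-(q 0 * z 0 + q 1 * z 1) / z 1 ^ 2, q 0 / z 1]
  else ![q 2 / z 0, -(q 1 * z 0 + q 2 * z 1) / z 0 ^ 2]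

lemma flip_zero (q : Fin 3 → ℂ) : flip q 0 = 0 := by
  funext i; fin_cases i <;> simp [flip]

lemma flip_form_zero (z : V2) : flip 0 z = 0 := by
  funext i
  by_cases h : z 0 = 0 <;> fin_cases i <;> simp [flip, h]

lemma flip_of_ne0 {q : Fin 3 → ℂ} {z : V2} (h : z 0 ≠ 0) :
    flip q z = ![q 2 / z 0, -(q 1 * z 0 + q 2 * z 1) / z 0 ^ 2] := by simp [flip, h]

lemma flip_of_ne1 {q : Fin 3 → ℂ} {z : V2} (h : z 1 ≠ 0) (hq : qf q z = 0) :
    flip q z = ![-(q 0 * z 0 + q 1 * z 1) / z 1 ^ 2, q 0 / z 1] := by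
  by_cases h0 : z 0 = 0
  · simp [flip, h0]
  · rw [flip_of_ne0 h0]
    rw [qf_eq] at hq
    funext i
    fin_cases i
    · simp only [Fin.zero_eta, Matrix.cons_val_zero]
      field_simp
      linear_combination hq
    · simp only [Fin.mk_one, Matrix.cons_val_one, Matrix.cons_val_zero, Matrix.cons_val_fin_one]
      field_simp
      linear_combination -hq

lemma ne_zero_cases {z : V2} (hz : z ≠ 0) : z 0 ≠ 0 ∨ z 1 ≠ 0 := by
  by_contra h
  push Not at h
  apply hz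
  funext i; fin_cases i
  · exact h.1
  · exact h.2

lemma flip_add (q q' : Fin 3 → ℂ) (s : ℂ) (z : V2) :
    flip (q + s • q') z = flip q z + s • flip q' z := by
  by_cases h : z 0 = 0
  · funext i; fin_cases i <;> simp [flip, h] <;> ring
  · funext i; fin_cases i <;> simp [flip, h] <;> ring

lemma qf_factor {q : Fin 3 → ℂ} {z : V2} (hz : z ≠ 0) (hq : qf q z = 0) (Z : V2) :
    qf q Z = wedge z Z * wedge (flip q z) Z := by
  rcases ne_zero_cases hz with h | h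
  · rw [flip_of_ne0 h]
    rw [qf_eq] at hq ⊢
    simp only [wedge, Matrix.cons_val_zero, Matrix.cons_val_one, Matrix.cons_val_fin_one]
    field_simp
    linear_combination Z 0 ^ 2 * hq
  · rw [flip_of_ne1 h hq]
    rw [qf_eq] at hq ⊢
    simp only [wedge, Matrix.cons_val_zero, Matrix.cons_val_one, Matrix.cons_val_fin_one]
    field_simp
    linear_combination Z 1 ^ 2 * hq

/-- coefficients of the product of two linear forms -/
def co (p r : V2) : Fin 3 → ℂ := ![p 1 * r 1, -(p 1 * r 0 + p 0 * r 1), p 0 * r 0]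

lemma qf_co (p r Z : V2) : qf (co p r) Z = wedge p Z * wedge r Z := by
  rw [qf_eq]; simp [co, wedge]; ring

lemma co_comm (p r : V2) : co p r = co r p := by
  funext i; fin_cases i <;> simp [co] <;> ring

lemma flip_co {z : V2} (hz : z ≠ 0) (w : V2) : flip (co z w) z = w := by
  rcases ne_zero_cases hz with h | h
  · rw [flip_of_ne0 h]
    funext i; fin_cases i
    · simp [co]; field_simp
    · simp [co]; field_simp; ring
  · rw [flip_of_ne1 h (by rw [qf_co]; simp [wedge]; left; ring)]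
    funext i; fin_cases i
    · simp [co]; field_simp; ring
    · simp [co]; field_simp

lemma eq_co_flip {q : Fin 3 → ℂ} {z : V2} (hz : z ≠ 0) (hq : qf q z = 0) :
    q = co z (flip q z) := by
  rcases ne_zero_cases hz with h | h
  · rw [flip_of_ne0 h]
    rw [qf_eq] at hq
    funext i; fin_cases i
    · simp [co]; field_simp; linear_combination hq
    · simp [co]; field_simp; ring
    · simp [co]; field_simp
  · rw [flip_of_ne1 h hq]
    rw [qf_eq] at hq
    funext i; fin_cases i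
    · simp [co]; field_simp
    · simp [co]; field_simp; ring
    · simp [co]; field_simp; linear_combination hq

lemma flip_flip {q : Fin 3 → ℂ} {z : V2} (hz : z ≠ 0) (hq : qf q z = 0) (hf : flip q z ≠ 0) :
    flip q (flip q z) = z := by
  have h := eq_co_flip hz hq
  conv_lhs => rw [h]
  rw [flip_co hz, co_comm]
  exact flip_co hf z

lemma flip_root {q : Fin 3 → ℂ} {z : V2} (hz : z ≠ 0) (hq : qf q z = 0) :
    qf q (flip q z) = 0 := by
  rw [qf_factor hz hq]; simp [wedge]; right; ring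

lemma norm_flip_le {q : Fin 3 → ℂ} {z : V2} (hq : qf q z = 0) :
    ‖flip q z‖ * ‖z‖ ≤ 2 * ‖q‖ := by
  rcases eq_or_ne z 0 with hz | hz
  · rw [hz, norm_zero, mul_zero]; positivity
  have hz0 : 0 < ‖z‖ := norm_pos_iff.2 hz
  have hq0 := norm_le_pi_norm q 0
  have hq1 := norm_le_pi_norm q 1
  have hq2 := norm_le_pi_norm q 2
  have hz1 := norm_le_pi_norm z 0
  have hz2 := norm_le_pi_norm z 1
  rw [← le_div_iff₀ hz0]
  have hmax : ‖z‖ = ‖z 0‖ ∨ ‖z‖ = ‖z 1‖ := by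
    rcases le_total ‖z 0‖ ‖z 1‖ with h | h
    · right
      refine le_antisymm ?_ hz2
      rw [pi_norm_le_iff_of_nonneg (norm_nonneg _)]
      intro i; fin_cases i
      · exact h
      · exact le_rfl
    · left
      refine le_antisymm ?_ hz1
      rw [pi_norm_le_iff_of_nonneg (norm_nonneg _)]
      intro i; fin_cases i
      · exact le_rfl
      · exact h
  rcases hmax with h | h
  · have h0 : z 0 ≠ 0 := by rw [← norm_pos_iff, ← h]; exact hz0
    have h0' : 0 < ‖z 0‖ := norm_pos_iff.2 h0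
    rw [flip_of_ne0 h0, pi_norm_le_iff_of_nonneg (by positivity), h]
    intro i; fin_cases i
    · simp only [Fin.zero_eta, Matrix.cons_val_zero, norm_div]
      gcongr
      nlinarith [norm_nonneg q]
    · simp only [Fin.mk_one, Matrix.cons_val_one, Matrix.cons_val_zero, Matrix.cons_val_fin_one,
        norm_div, norm_pow]
      rw [div_le_div_iff₀ (by positivity) h0', norm_neg]
      have : ‖q 1 * z 0 + q 2 * z 1‖ ≤ 2 * ‖q‖ * ‖z 0‖ := by
        refine (norm_add_le _ _).trans ?_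
        rw [norm_mul, norm_mul]
        rw [h] at hz2
        nlinarith [norm_nonneg q, norm_nonneg (q 1), norm_nonneg (q 2), norm_nonneg (z 1)]
      nlinarith
  · have h0 : z 1 ≠ 0 := by rw [← norm_pos_iff, ← h]; exact hz0
    have h0' : 0 < ‖z 1‖ := norm_pos_iff.2 h0
    rw [flip_of_ne1 h0 hq, pi_norm_le_iff_of_nonneg (by positivity), h]
    intro i; fin_cases i
    · simp only [Fin.zero_eta, Matrix.cons_val_zero, norm_div, norm_pow]
      rw [div_le_div_iff₀ (by positivity) h0', norm_neg]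
      have : ‖q 0 * z 0 + q 1 * z 1‖ ≤ 2 * ‖q‖ * ‖z 1‖ := by
        refine (norm_add_le _ _).trans ?_
        rw [norm_mul, norm_mul]
        rw [h] at hz1
        nlinarith [norm_nonneg q, norm_nonneg (q 1), norm_nonneg (q 0), norm_nonneg (z 0)]
      nlinarith
    · simp only [Fin.mk_one, Matrix.cons_val_one, Matrix.cons_val_fin_one,
        norm_div]
      gcongr
      nlinarith [norm_nonneg q]

/-! ### forms in three variables and the two maps `stp`, `bk` -/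

def form1 (c : C3) (b e : V2) : Fin 3 → ℂ := fun i => ∑ j, ∑ k, c i j k * mon j b * mon k e

/-- the value of the form with coefficients `c` -/
def FF (c : C3) (a b e : V2) : ℂ := qf (form1 c b e) a

def rot (c : C3) : C3 := fun i j k => c k i j
def rot' (c : C3) : C3 := fun i j k => c j k i

lemma rot'_rot (c : C3) : rot' (rot c) = c := rfl
lemma rot_rot' (c : C3) : rot (rot' c) = c := rfl

lemma FF_eq (c : C3) (a b e : V2) :
    FF c a b e = ∑ i, ∑ j, ∑ k, c i j k * mon i a * mon j b * mon k e := by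
  unfold FF qf form1
  refine Finset.sum_congr rfl fun i _ => ?_
  rw [Finset.sum_mul]
  refine Finset.sum_congr rfl fun j _ => ?_
  rw [Finset.sum_mul]
  refine Finset.sum_congr rfl fun k _ => ?_
  ring

lemma FF_rot (c : C3) (a b e : V2) : FF (rot c) b e a = FF c a b e := by
  rw [FF_eq, FF_eq]
  simp only [rot, Fin.sum_univ_three]
  ring

lemma FF_rot' (c : C3) (a b e : V2) : FF (rot' c) e a b = FF c a b e := by
  rw [FF_eq, FF_eq]
  simp only [rot', Fin.sum_univ_three]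
  ring

noncomputable def stp (s : St) : St :=
  (rot s.1, s.2.2.1, s.2.2.2, flip (form1 s.1 s.2.2.1 s.2.2.2) s.2.1)

noncomputable def bk (s : St) : St :=
  (rot' s.1, flip (form1 (rot' s.1) s.2.1 s.2.2.1) s.2.2.2, s.2.1, s.2.2.1)

def Con : Set St :=
  {s | s.1 ≠ 0 ∧ s.2.1 ≠ 0 ∧ s.2.2.1 ≠ 0 ∧ s.2.2.2 ≠ 0 ∧ FF s.1 s.2.1 s.2.2.1 s.2.2.2 = 0}

lemma rot_ne {c : C3} (h : c ≠ 0) : rot c ≠ 0 := by
  intro h'
  apply h
  rw [← rot'_rot c, h']; rfl

lemma rot'_ne {c : C3} (h : c ≠ 0) : rot' c ≠ 0 := by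
  intro h'
  apply h
  rw [← rot_rot' c, h']; rfl

lemma stp_mem {s : St} (hs : s ∈ Con) (h : (stp s).2.2.2 ≠ 0) : stp s ∈ Con := by
  obtain ⟨h1, h2, h3, h4, h5⟩ := hs
  refine ⟨rot_ne h1, h3, h4, h, ?_⟩
  show FF (rot s.1) s.2.2.1 s.2.2.2 (flip (form1 s.1 s.2.2.1 s.2.2.2) s.2.1) = 0
  rw [FF_rot]
  exact flip_root h2 h5

lemma bk_mem {s : St} (hs : s ∈ Con) (h : (bk s).2.1 ≠ 0) : bk s ∈ Con := by
  obtain ⟨h1, h2, h3, h4, h5⟩ := hs
  refine ⟨rot'_ne h1, h, h2, h3, ?_⟩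
  show FF (rot' s.1) (flip (form1 (rot' s.1) s.2.1 s.2.2.1) s.2.2.2) s.2.1 s.2.2.1 = 0
  rw [← FF_rot'] at h5
  exact flip_root h4 h5

lemma bk_stp {s : St} (hs : s ∈ Con) (h : (stp s).2.2.2 ≠ 0) : bk (stp s) = s := by
  obtain ⟨h1, h2, h3, h4, h5⟩ := hs
  obtain ⟨c, a, b, e⟩ := s
  show (rot' (rot c), flip (form1 (rot' (rot c)) b e) (flip (form1 c b e) a), b, e) = _
  rw [rot'_rot, flip_flip h2 h5 h]

lemma stp_bk {s : St} (hs : s ∈ Con) (h : (bk s).2.1 ≠ 0) : stp (bk s) = s := by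
  obtain ⟨h1, h2, h3, h4, h5⟩ := hs
  obtain ⟨c, a, b, e⟩ := s
  rw [← FF_rot'] at h5
  show (rot (rot' c), a, b, flip (form1 (rot' c) a b) (flip (form1 (rot' c) a b) e)) = _
  rw [rot_rot', flip_flip h4 h5 h]

/-- tensor product of three forms -/
def tens (P R T : Fin 3 → ℂ) : C3 := fun i j k => P i * R j * T k

lemma form1_rot'_tens (P R T : Fin 3 → ℂ) (a b : V2) :
    form1 (rot' (tens P R T)) a b = (qf P a * qf R b) • T := by
  funext i
  simp only [form1, rot', tens, qf, Fin.sum_univ_three, Pi.smul_apply, smul_eq_mul]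
  ring

lemma form1_rot'_add (c d : C3) (s : ℂ) (a b : V2) :
    form1 (rot' (c + s • d)) a b = form1 (rot' c) a b + s • form1 (rot' d) a b := by
  funext i
  simp only [form1, rot', Fin.sum_univ_three, Pi.smul_apply, smul_eq_mul, Pi.add_apply]
  ring

lemma FF_add_tens (c : C3) (P R : Fin 3 → ℂ) (s : ℂ) (a b e ε : V2)
    (h : FF c a b e = 0) : FF (c + s • tens P R (co e ε)) a b e = 0 := by
  rw [← FF_rot'] at h ⊢
  unfold FF at h ⊢
  rw [form1_rot'_add, form1_rot'_tens]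
  have h2 : qf (co e ε) e = 0 := by rw [qf_co]; simp [wedge]; left; ring
  simp only [qf, Pi.add_apply, Pi.smul_apply, smul_eq_mul] at h h2 ⊢
  have : ∀ i, (form1 (rot' c) a b i + s * ((∑ i, P i * mon i a) * (∑ i, R i * mon i b) * co e ε i)) * mon i e =
    form1 (rot' c) a b i * mon i e + (s * ((∑ i, P i * mon i a) * (∑ i, R i * mon i b))) * (co e ε i * mon i e) := by
    intro i; ring
  simp only [this, Finset.sum_add_distrib, ← Finset.mul_sum, h, h2, mul_zero, add_zero]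

lemma bk_add_tens (c : C3) (P R : Fin 3 → ℂ) (s : ℂ) (a b e ε : V2) (he : e ≠ 0) :
    bk (c + s • tens P R (co e ε), a, b, e) =
      (rot' (c + s • tens P R (co e ε)), (bk (c, a, b, e)).2.1 + (s * (qf P a * qf R b)) • ε, a, b) := by
  show (_, flip (form1 (rot' (c + s • tens P R (co e ε))) a b) e, a, b) = _
  rw [form1_rot'_add, form1_rot'_tens, smul_smul, flip_add, flip_co he]
  rfl

lemma norm_form1_le (c : C3) (b e : V2) : ‖form1 c b e‖ ≤ 9 * (‖c‖ * ‖b‖ ^ 2 * ‖e‖ ^ 2) := by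
  rw [pi_norm_le_iff_of_nonneg (by positivity)]
  intro i
  have hterm : ∀ j k, ‖c i j k * mon j b * mon k e‖ ≤ ‖c‖ * ‖b‖ ^ 2 * ‖e‖ ^ 2 := by
    intro j k
    have h1 : ‖c i j k‖ ≤ ‖c‖ :=
      ((norm_le_pi_norm (c i j) k).trans (norm_le_pi_norm (c i) j)).trans (norm_le_pi_norm c i)
    rw [norm_mul, norm_mul]
    have := norm_mon_le j b
    have := norm_mon_le k e
    gcongr
  calc ‖form1 c b e i‖ ≤ ∑ j, ∑ k, ‖c i j k * mon j b * mon k e‖ :=
        (norm_sum_le _ _).trans (Finset.sum_le_sum fun j _ => norm_sum_le _ _)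
    _ ≤ ∑ j : Fin 3, ∑ k : Fin 3, ‖c‖ * ‖b‖ ^ 2 * ‖e‖ ^ 2 :=
        Finset.sum_le_sum fun j _ => Finset.sum_le_sum fun k _ => hterm j k
    _ = 9 * (‖c‖ * ‖b‖ ^ 2 * ‖e‖ ^ 2) := by
        simp [Finset.sum_const]; ring

lemma norm_co_le (p r : V2) : ‖co p r‖ ≤ 2 * (‖p‖ * ‖r‖) := by
  have h0 := norm_le_pi_norm p 0
  have h1 := norm_le_pi_norm p 1
  have h2 := norm_le_pi_norm r 0
  have h3 := norm_le_pi_norm r 1
  have n0 := norm_nonneg (p 0)
  have n1 := norm_nonneg (p 1)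
  have n2 := norm_nonneg (r 0)
  have n3 := norm_nonneg (r 1)
  rw [pi_norm_le_iff_of_nonneg (by positivity)]
  intro i; fin_cases i
  · simp only [co, Fin.zero_eta, Matrix.cons_val_zero, norm_mul]; nlinarith
  · simp only [co, Fin.mk_one, Matrix.cons_val_one, Matrix.cons_val_zero, norm_neg]
    refine (norm_add_le _ _).trans ?_
    rw [norm_mul, norm_mul]; nlinarith
  · simp only [co, Fin.reduceFinMk, Matrix.cons_val, norm_mul]; nlinarith

lemma norm_tens_le (P R T : Fin 3 → ℂ) : ‖tens P R T‖ ≤ ‖P‖ * ‖R‖ * ‖T‖ := by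
  refine (pi_norm_le_iff_of_nonneg (by positivity)).2 fun i => ?_
  refine (pi_norm_le_iff_of_nonneg (by positivity)).2 fun j => ?_
  refine (pi_norm_le_iff_of_nonneg (by positivity)).2 fun k => ?_
  have h1 := norm_le_pi_norm P i
  have h2 := norm_le_pi_norm R j
  have h3 := norm_le_pi_norm T k
  simp only [tens, norm_mul]
  gcongr

lemma norm_rot' (c : C3) : ‖rot' c‖ = ‖c‖ := by
  have h : ∀ c : C3, ‖rot' c‖ ≤ ‖c‖ := by
    intro c
    refine (pi_norm_le_iff_of_nonneg (by positivity)).2 fun i => ?_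
    refine (pi_norm_le_iff_of_nonneg (by positivity)).2 fun j => ?_
    refine (pi_norm_le_iff_of_nonneg (by positivity)).2 fun k => ?_
    exact ((norm_le_pi_norm (c j k) i).trans (norm_le_pi_norm (c j) k)).trans (norm_le_pi_norm c j)
  refine le_antisymm (h c) ?_
  calc ‖c‖ = ‖rot' (rot' (rot' c))‖ := rfl
    _ ≤ ‖rot' (rot' c)‖ := h _
    _ ≤ ‖rot' c‖ := h _

lemma norm_rot (c : C3) : ‖rot c‖ = ‖c‖ := by
  rw [← norm_rot' (rot c), rot'_rot]

/-- a vector dual to `w` -/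
lemma exists_dual {w : V2} (hw : w ≠ 0) : ∃ p : V2, wedge p w = 1 ∧ ‖p‖ ≤ ‖w‖⁻¹ := by
  rcases le_total ‖w 0‖ ‖w 1‖ with h | h
  · have hn : ‖w‖ = ‖w 1‖ := by
      refine le_antisymm ?_ (norm_le_pi_norm w 1)
      rw [pi_norm_le_iff_of_nonneg (norm_nonneg _)]
      intro i; fin_cases i
      · exact h
      · exact le_rfl
    have h1 : w 1 ≠ 0 := by rw [← norm_pos_iff, ← hn]; exact norm_pos_iff.2 hw
    refine ⟨![-(w 1)⁻¹, 0], ?_, ?_⟩
    · simp [wedge, h1]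
    · rw [pi_norm_le_iff_of_nonneg (by positivity), hn]
      intro i; fin_cases i
      · simp
      · simp
  · have hn : ‖w‖ = ‖w 0‖ := by
      refine le_antisymm ?_ (norm_le_pi_norm w 0)
      rw [pi_norm_le_iff_of_nonneg (norm_nonneg _)]
      intro i; fin_cases i
      · exact le_rfl
      · exact h
    have h1 : w 0 ≠ 0 := by rw [← norm_pos_iff, ← hn]; exact norm_pos_iff.2 hw
    refine ⟨![0, (w 0)⁻¹], ?_, ?_⟩
    · simp [wedge, h1]
    · rw [pi_norm_le_iff_of_nonneg (by positivity), hn]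
      intro i; fin_cases i
      · simp
      · simp

/-- a direction avoiding the origin -/
lemma exists_dir {w : V2} (hw : w ≠ 0) {r : ℝ} (hr : 0 < r) : ∃ ε : V2, ‖ε‖ = r ∧
    (∀ ζ : ℂ, w + ζ • ε ≠ 0) ∧ ∀ ζ : ℂ, ‖ζ‖ = 1 → r / 2 ≤ ‖w + ζ • ε‖ := by
  have hnorm : ∀ i : Fin 2, ‖(Pi.single i (r : ℂ) : V2)‖ = r := by
    intro i
    rw [Pi.norm_single, Complex.norm_real, Real.norm_of_nonneg hr.le]
  rcases le_total ‖w 0‖ ‖w 1‖ with h | h
  · have hn : w 1 ≠ 0 := by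
      intro h1
      rw [h1, norm_zero] at h
      rcases ne_zero_cases hw with h2 | h2
      · exact h2 (norm_le_zero_iff.1 h)
      · exact h2 h1
    refine ⟨Pi.single 0 (r : ℂ), hnorm 0, fun ζ h0 => ?_, fun ζ hζ => ?_⟩
    · have := congrFun h0 1
      simp at this
      exact hn this
    · have h1 := norm_le_pi_norm (w + ζ • (Pi.single 0 (r : ℂ) : V2)) 0
      have h2 := norm_le_pi_norm (w + ζ • (Pi.single 0 (r : ℂ) : V2)) 1
      simp at h1 h2
      have h3 : r - ‖w 0‖ ≤ ‖w 0 + ζ * r‖ := by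
        have := norm_sub_norm_le (ζ * r : ℂ) (-(w 0))
        rw [norm_neg, norm_mul, hζ, Complex.norm_real, Real.norm_of_nonneg hr.le, one_mul,
          sub_neg_eq_add, add_comm (ζ * (r : ℂ))] at this
        exact this
      linarith
  · have hn : w 0 ≠ 0 := by
      intro h1
      rw [h1, norm_zero] at h
      rcases ne_zero_cases hw with h2 | h2
      · exact h2 h1
      · exact h2 (norm_le_zero_iff.1 h)
    refine ⟨Pi.single 1 (r : ℂ), hnorm 1, fun ζ h0 => ?_, fun ζ hζ => ?_⟩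
    · have := congrFun h0 0
      simp at this
      exact hn this
    · have h1 := norm_le_pi_norm (w + ζ • (Pi.single 1 (r : ℂ) : V2)) 0
      have h2 := norm_le_pi_norm (w + ζ • (Pi.single 1 (r : ℂ) : V2)) 1
      simp at h1 h2
      have h3 : r - ‖w 1‖ ≤ ‖w 1 + ζ * r‖ := by
        have := norm_sub_norm_le (ζ * r : ℂ) (-(w 1))
        rw [norm_neg, norm_mul, hζ, Complex.norm_real, Real.norm_of_nonneg hr.le, one_mul,
          sub_neg_eq_add, add_comm (ζ * (r : ℂ))] at this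
        exact this
      linarith

/-! ### holomorphic discs of states -/

lemma eventually_flip_eq0 {X : Type} [TopologicalSpace X] {q : X → Fin 3 → ℂ} {z : X → V2} {p : X}
    {l : Filter X} (hz : Tendsto z l (𝓝 (z p))) (h : z p 0 ≠ 0) :
    (fun y => flip (q y) (z y)) =ᶠ[l]
      fun y => ![q y 2 / z y 0, -(q y 1 * z y 0 + q y 2 * z y 1) / z y 0 ^ 2] := by
  have h1 : Tendsto (fun y => z y 0) l (𝓝 (z p 0)) :=
    ((continuous_apply (0 : Fin 2)).tendsto _).comp hz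
  filter_upwards [h1.eventually_ne h] with y hy
  exact flip_of_ne0 hy

lemma eventually_flip_eq1 {X : Type} [TopologicalSpace X] {q : X → Fin 3 → ℂ} {z : X → V2} {p : X}
    {l : Filter X} (hz : Tendsto z l (𝓝 (z p))) (hr : ∀ᶠ y in l, qf (q y) (z y) = 0)
    (h : z p 1 ≠ 0) :
    (fun y => flip (q y) (z y)) =ᶠ[l]
      fun y => ![-(q y 0 * z y 0 + q y 1 * z y 1) / z y 1 ^ 2, q y 0 / z y 1] := by
  have h1 : Tendsto (fun y => z y 1) l (𝓝 (z p 1)) :=
    ((continuous_apply (1 : Fin 2)).tendsto _).comp hz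
  filter_upwards [h1.eventually_ne h, hr] with y hy hy'
  exact flip_of_ne1 hy hy'

lemma differentiableAt_flip
    {q : ℂ → Fin 3 → ℂ} {z : ℂ → V2} {p : ℂ} (hq : DifferentiableAt ℂ q p)
    (hz : DifferentiableAt ℂ z p) (h0 : z p ≠ 0) (hr : ∀ᶠ y in 𝓝 p, qf (q y) (z y) = 0) :
    DifferentiableAt ℂ (fun y => flip (q y) (z y)) p := by
  have hq' : ∀ i, DifferentiableAt ℂ (fun y => q y i) p := differentiableAt_pi.1 hq
  have hz' : ∀ i, DifferentiableAt ℂ (fun y => z y i) p := differentiableAt_pi.1 hz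
  rcases ne_zero_cases h0 with h | h
  · refine DifferentiableAt.congr_of_eventuallyEq ?_
      (eventually_flip_eq0 hz.continuousAt.tendsto h)
    refine differentiableAt_pi.2 fun i => ?_
    fin_cases i
    · show DifferentiableAt ℂ (fun y => q y 2 / z y 0) p
      exact (hq' 2).div (hz' 0) h
    · show DifferentiableAt ℂ (fun y => -(q y 1 * z y 0 + q y 2 * z y 1) / z y 0 ^ 2) p
      exact ((((hq' 1).mul (hz' 0)).add ((hq' 2).mul (hz' 1))).neg).div ((hz' 0).pow 2)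
        (pow_ne_zero 2 h)
  · refine DifferentiableAt.congr_of_eventuallyEq ?_
      (eventually_flip_eq1 hz.continuousAt.tendsto hr h)
    refine differentiableAt_pi.2 fun i => ?_
    fin_cases i
    · show DifferentiableAt ℂ (fun y => -(q y 0 * z y 0 + q y 1 * z y 1) / z y 1 ^ 2) p
      exact ((((hq' 0).mul (hz' 0)).add ((hq' 1).mul (hz' 1))).neg).div ((hz' 1).pow 2)
        (pow_ne_zero 2 h)
    · show DifferentiableAt ℂ (fun y => q y 0 / z y 1) p
      exact (hq' 0).div (hz' 1) h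

lemma continuousWithinAt_flip {X : Type} [TopologicalSpace X] {s : Set X}
    {q : X → Fin 3 → ℂ} {z : X → V2} {p : X} (hp : p ∈ s) (hq : ContinuousWithinAt q s p)
    (hz : ContinuousWithinAt z s p) (h0 : z p ≠ 0) (hr : ∀ y ∈ s, qf (q y) (z y) = 0) :
    ContinuousWithinAt (fun y => flip (q y) (z y)) s p := by
  have hq' : ∀ i, ContinuousWithinAt (fun y => q y i) s p := continuousWithinAt_pi.1 hq
  have hz' : ∀ i, ContinuousWithinAt (fun y => z y i) s p := continuousWithinAt_pi.1 hz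
  rcases ne_zero_cases h0 with h | h
  · refine ContinuousWithinAt.congr_of_eventuallyEq ?_
      (eventually_flip_eq0 hz.tendsto h) (flip_of_ne0 h)
    refine continuousWithinAt_pi.2 fun i => ?_
    fin_cases i
    · exact (hq' 2).div (hz' 0) h
    · exact ((((hq' 1).mul (hz' 0)).add ((hq' 2).mul (hz' 1))).neg).div ((hz' 0).pow 2)
        (pow_ne_zero 2 h)
  · refine ContinuousWithinAt.congr_of_eventuallyEq ?_
      (eventually_flip_eq1 hz.tendsto (eventually_mem_nhdsWithin.mono hr) h)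
      (flip_of_ne1 h (hr p hp))
    refine continuousWithinAt_pi.2 fun i => ?_
    fin_cases i
    · exact ((((hq' 0).mul (hz' 0)).add ((hq' 1).mul (hz' 1))).neg).div ((hz' 1).pow 2)
        (pow_ne_zero 2 h)
    · exact (hq' 0).div (hz' 1) h

lemma differentiable_form1 :
    Differentiable ℂ (fun t : C3 × V2 × V2 => form1 t.1 t.2.1 t.2.2) := by
  refine differentiable_pi.2 fun i => ?_
  unfold form1
  refine Differentiable.fun_sum fun j _ => Differentiable.fun_sum fun k _ => ?_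
  have h1 : Differentiable ℂ (fun t : C3 × V2 × V2 => t.1 i j k) := by fun_prop
  have h2 : Differentiable ℂ (fun t : C3 × V2 × V2 => mon j t.2.1) :=
    (differentiable_mon j).comp (by fun_prop)
  have h3 : Differentiable ℂ (fun t : C3 × V2 × V2 => mon k t.2.2) :=
    (differentiable_mon k).comp (by fun_prop)
  exact (h1.mul h2).mul h3

lemma differentiable_rot : Differentiable ℂ rot := by
  refine differentiable_pi.2 fun i => differentiable_pi.2 fun j => differentiable_pi.2 fun k => ?_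
  unfold rot
  fun_prop

lemma differentiable_rot' : Differentiable ℂ rot' := by
  refine differentiable_pi.2 fun i => differentiable_pi.2 fun j => differentiable_pi.2 fun k => ?_
  unfold rot'
  fun_prop

def Dsc (R : ℝ) (f : ℂ → St) : Prop :=
  DifferentiableOn ℂ f (ball 0 R) ∧ ∀ ζ ∈ ball (0 : ℂ) R, f ζ ∈ Con

lemma Dsc.mono {R R' : ℝ} {f : ℂ → St} (h : Dsc R f) (hR : R' ≤ R) : Dsc R' f :=
  ⟨h.1.mono (ball_subset_ball hR), fun ζ hζ => h.2 ζ (ball_subset_ball hR hζ)⟩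

lemma Dsc.bk_diff {R : ℝ} {f : ℂ → St} (h : Dsc R f) :
    DifferentiableOn ℂ (fun ζ => bk (f ζ)) (ball 0 R) := by
  intro ζ hζ
  have hf : DifferentiableAt ℂ f ζ := h.1.differentiableAt (isOpen_ball.mem_nhds hζ)
  refine DifferentiableAt.differentiableWithinAt ?_
  have h1 : DifferentiableAt ℂ (fun ζ => rot' (f ζ).1) ζ :=
    differentiable_rot'.differentiableAt.comp ζ hf.fst
  have h2 : DifferentiableAt ℂ (fun ζ => form1 (rot' (f ζ).1) (f ζ).2.1 (f ζ).2.2.1) ζ :=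
    DifferentiableAt.comp (g := fun t : C3 × V2 × V2 => form1 t.1 t.2.1 t.2.2)
      (f := fun ζ => (rot' (f ζ).1, (f ζ).2.1, (f ζ).2.2.1)) ζ
      differentiable_form1.differentiableAt
      (h1.prodMk (hf.snd.fst.prodMk hf.snd.snd.fst))
  refine h1.prodMk ((differentiableAt_flip h2 hf.snd.snd.snd (h.2 ζ hζ).2.2.2.1 ?_).prodMk
    (hf.snd.fst.prodMk hf.snd.snd.fst))
  filter_upwards [isOpen_ball.mem_nhds hζ] with y hy
  have := (h.2 y hy).2.2.2.2
  rw [← FF_rot'] at this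
  exact this

lemma Dsc.stp_diff {R : ℝ} {f : ℂ → St} (h : Dsc R f) :
    DifferentiableOn ℂ (fun ζ => stp (f ζ)) (ball 0 R) := by
  intro ζ hζ
  have hf : DifferentiableAt ℂ f ζ := h.1.differentiableAt (isOpen_ball.mem_nhds hζ)
  refine DifferentiableAt.differentiableWithinAt ?_
  have h1 : DifferentiableAt ℂ (fun ζ => rot (f ζ).1) ζ :=
    differentiable_rot.differentiableAt.comp ζ hf.fst
  have h2 : DifferentiableAt ℂ (fun ζ => form1 (f ζ).1 (f ζ).2.2.1 (f ζ).2.2.2) ζ :=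
    DifferentiableAt.comp (g := fun t : C3 × V2 × V2 => form1 t.1 t.2.1 t.2.2)
      (f := fun ζ => ((f ζ).1, (f ζ).2.2.1, (f ζ).2.2.2)) ζ
      differentiable_form1.differentiableAt
      (hf.fst.prodMk (hf.snd.snd.fst.prodMk hf.snd.snd.snd))
  refine h1.prodMk (hf.snd.snd.fst.prodMk (hf.snd.snd.snd.prodMk
    (differentiableAt_flip h2 hf.snd.fst (h.2 ζ hζ).2.1 ?_)))
  filter_upwards [isOpen_ball.mem_nhds hζ] with y hy
  exact (h.2 y hy).2.2.2.2

lemma continuousOn_stp : ContinuousOn stp Con := by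
  intro s hs
  have hf : ContinuousWithinAt (fun s : St => s) Con s := continuousWithinAt_id
  have h1 : ContinuousWithinAt (fun s : St => rot s.1) Con s :=
    (differentiable_rot.continuous.comp continuous_fst).continuousWithinAt
  have h2 : ContinuousWithinAt (fun s : St => form1 s.1 s.2.2.1 s.2.2.2) Con s :=
    (differentiable_form1.continuous.comp (f := fun s : St => (s.1, s.2.2.1, s.2.2.2))
      (by fun_prop)).continuousWithinAt
  exact h1.prodMk (hf.snd.snd.fst.prodMk (hf.snd.snd.snd.prodMk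
    (continuousWithinAt_flip hs h2 hf.snd.fst hs.2.1 fun y hy => hy.2.2.2.2)))

lemma countable_zeros {R : ℝ} {g : ℂ → ℂ} (hg : DifferentiableOn ℂ g (ball 0 R)) (hR : 0 < R)
    (h0 : g 0 ≠ 0) : {ζ ∈ ball (0 : ℂ) R | g ζ = 0}.Countable := by
  have ha : AnalyticOnNhd ℂ g (ball 0 R) := hg.analyticOnNhd isOpen_ball
  have hconn : IsPreconnected (ball (0 : ℂ) R) := (convex_ball (0 : ℂ) R).isPreconnected
  have h1 : g ⁻¹' {0}ᶜ ∈ codiscreteWithin (ball (0 : ℂ) R) :=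
    ha.preimage_zero_mem_codiscreteWithin h0 (by simpa using hR) ⟨⟨0, by simpa using hR⟩, hconn⟩
  have h1' : (g ⁻¹' {0})ᶜ ∈ codiscreteWithin (ball (0 : ℂ) R) := h1
  have h2 := isDiscrete_of_codiscreteWithin h1'
  have h3 : (g ⁻¹' {0} ∩ ball (0 : ℂ) R).Countable :=
    (HereditarilyLindelofSpace.isLindelof _).countable h2.to_subtype
  refine h3.mono ?_
  rintro ζ ⟨h3, h4⟩
  exact ⟨h4, h3⟩

lemma exists_small_notMem {B : Set ℂ} (hB : B.Countable) {r : ℝ} (hr : 0 < r) :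
    ∃ δ : ℂ, ‖δ‖ < r ∧ δ ∉ B := by
  have hd : Dense Bᶜ := hB.dense_compl ℝ
  obtain ⟨δ, hδ, hδ'⟩ := hd.exists_mem_open isOpen_ball ⟨(0 : ℂ), mem_ball_self hr⟩
  exact ⟨δ, by simpa using hδ', hδ⟩

lemma exists_slope {Z : Set ℂ} (hZ : Z.Countable) (a : ℂ → V2) (ha : ∀ ζ ∈ Z, a ζ ≠ 0) :
    ∃ p : V2, ∀ ζ ∈ Z, wedge p (a ζ) ≠ 0 := by
  obtain ⟨t, _, ht⟩ := exists_small_notMem (hZ.image fun ζ => a ζ 1 / a ζ 0) one_pos
  refine ⟨![1, t], fun ζ hζ h => ?_⟩
  simp only [wedge, Matrix.cons_val_zero, Matrix.cons_val_one, Matrix.cons_val_fin_one] at h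
  by_cases h0 : a ζ 0 = 0
  · rw [h0] at h
    rcases ne_zero_cases (ha ζ hζ) with h1 | h1
    · exact h1 h0
    · apply h1; linear_combination -h
  · apply ht
    refine ⟨ζ, hζ, ?_⟩
    show a ζ 1 / a ζ 0 = t
    field_simp
    linear_combination -h

lemma differentiable_co_left (ε : V2) : Differentiable ℂ (fun e : V2 => co e ε) := by
  refine differentiable_pi.2 fun i => ?_
  have h0 : Differentiable ℂ (fun x : V2 => x 0) := by fun_prop
  have h1 : Differentiable ℂ (fun x : V2 => x 1) := by fun_prop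
  fin_cases i
  · exact h1.mul (differentiable_const _)
  · exact ((h1.mul (differentiable_const _)).add (h0.mul (differentiable_const _))).neg
  · exact h0.mul (differentiable_const _)

lemma differentiable_tens (P R : Fin 3 → ℂ) : Differentiable ℂ (fun T => tens P R T) := by
  refine differentiable_pi.2 fun i => differentiable_pi.2 fun j => differentiable_pi.2 fun k => ?_
  unfold tens
  fun_prop

/-- one-step perturbation: a disc can be moved slightly, keeping its centre, so that the backward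
flip vanishes nowhere. -/
lemma pert {R : ℝ} (hR : 1 < R) {f : ℂ → St} (hf : Dsc R f) (h0 : bk (f 0) ∈ Con) {ε : ℝ}
    (hε : 0 < ε) : ∃ R' > (1 : ℝ), ∃ f' : ℂ → St, Dsc R' f' ∧ Dsc R' (fun ζ => bk (f' ζ)) ∧
      f' 0 = f 0 ∧ ∀ ζ : ℂ, ‖ζ‖ ≤ 1 → dist (f' ζ) (f ζ) < ε := by
  set R' : ℝ := (1 + R) / 2 with hR'
  have hR1 : 1 < R' := by rw [hR']; linarith
  have hRR : R' < R := by rw [hR']; linarith
  have hsub : closedBall (0 : ℂ) R' ⊆ ball 0 R := closedBall_subset_ball hRR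
  have hbk := hf.bk_diff
  have h0R : (0 : ℂ) ∈ ball (0 : ℂ) R := by simp; linarith
  -- choose coordinate
  obtain ⟨i, hi⟩ : ∃ i : Fin 2, (bk (f 0)).2.1 i ≠ 0 := by
    rcases ne_zero_cases h0.2.1 with h | h
    · exact ⟨0, h⟩
    · exact ⟨1, h⟩
  set i' : Fin 2 := 1 - i with hi'
  have hii : i ≠ i' := by fin_cases i <;> simp [hi']
  set u : V2 := Pi.single i' 1 with hu
  have hui : u i = 0 := by rw [hu, Pi.single_eq_of_ne hii]
  have hui' : u i' = 1 := by rw [hu, Pi.single_eq_same]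
  set g : ℂ → ℂ := fun ζ => (bk (f ζ)).2.1 i with hg
  have hgd : DifferentiableOn ℂ g (ball 0 R) := by
    have h1 : DifferentiableOn ℂ (fun ζ => (bk (f ζ)).2.1) (ball 0 R) := hbk.snd.fst
    exact fun ζ hζ => (differentiableWithinAt_pi.1 (h1 ζ hζ)) i
  set Z : Set ℂ := {ζ ∈ ball (0 : ℂ) R | g ζ = 0} with hZ
  have hZc : Z.Countable := countable_zeros hgd (by linarith) hi
  obtain ⟨p, hp⟩ := exists_slope hZc (fun ζ => (f ζ).2.1) (fun ζ hζ => (hf.2 ζ hζ.1).2.1)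
  obtain ⟨r, hr⟩ := exists_slope hZc (fun ζ => (f ζ).2.2.1) (fun ζ hζ => (hf.2 ζ hζ.1).2.2.1)
  set P := co p p with hP
  set Q := co r r with hQ
  have hPn : ∀ ζ ∈ Z, qf P (f ζ).2.1 * qf Q (f ζ).2.2.1 ≠ 0 := by
    intro ζ hζ
    rw [hP, hQ, qf_co, qf_co]
    have h1 := hp ζ hζ
    have h2 := hr ζ hζ
    positivity
  set d : ℂ → C3 := fun ζ => tens P Q (co (f ζ).2.2.2 u) with hd
  have hdd : DifferentiableOn ℂ d (ball 0 R) :=
    ((differentiable_tens P Q).comp (differentiable_co_left u)).comp_differentiableOn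
      hf.1.snd.snd.snd
  -- compactness bounds
  obtain ⟨D, hD⟩ := (isCompact_closedBall (0 : ℂ) R').exists_bound_of_continuousOn
    ((continuousOn_id.smul (hdd.continuousOn.mono hsub)) : ContinuousOn (fun ζ => ζ • d ζ) _)
  have hD0 : 0 ≤ D := (norm_nonneg _).trans (hD 0 (by simp; linarith))
  obtain ⟨m, hm0, hm⟩ : ∃ m : ℝ, 0 < m ∧ ∀ ζ ∈ closedBall (0 : ℂ) R', m ≤ ‖(f ζ).1‖ := by
    obtain ⟨x, hx, hmin⟩ := (isCompact_closedBall (0 : ℂ) R').exists_isMinOn
      ⟨0, by simp; linarith⟩ (hf.1.continuousOn.fst.norm.mono hsub)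
    exact ⟨‖(f x).1‖, norm_pos_iff.2 (hf.2 x (hsub hx)).1, fun ζ hζ => hmin hζ⟩
  set Bad : Set ℂ := (fun ζ => -(bk (f ζ)).2.1 i' / (ζ * (qf P (f ζ).2.1 * qf Q (f ζ).2.2.1))) '' Z
    with hBad
  have hBc : Bad.Countable := hZc.image _
  obtain ⟨δ, hδ, hδB⟩ := exists_small_notMem hBc (r := min m ε / (D + 1)) (by positivity)
  have hδD : ∀ ζ ∈ closedBall (0 : ℂ) R', ‖(δ * ζ) • d ζ‖ < min m ε := by
    intro ζ hζ
    have h1 : ‖ζ • d ζ‖ ≤ D := hD ζ hζ
    rw [mul_smul, norm_smul]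
    rw [lt_div_iff₀ (by positivity)] at hδ
    calc ‖δ‖ * ‖ζ • d ζ‖ ≤ ‖δ‖ * (D + 1) := by gcongr; linarith
      _ < min m ε := hδ
  refine ⟨R', hR1, fun ζ => ((f ζ).1 + (δ * ζ) • d ζ, (f ζ).2), ⟨?_, ?_⟩, ?_, ?_, ?_⟩
  · have h1 : DifferentiableOn ℂ (fun ζ => (f ζ).1 + (δ * ζ) • d ζ) (ball 0 R) :=
      hf.1.fst.add (((differentiableOn_const δ).mul differentiableOn_id).smul hdd)
    exact (h1.prodMk hf.1.snd).mono (ball_subset_ball hRR.le)
  · intro ζ hζ
    have hζ' := ball_subset_closedBall hζ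
    obtain ⟨h1, h2, h3, h4, h5⟩ := hf.2 ζ (hsub hζ')
    refine ⟨?_, h2, h3, h4, FF_add_tens _ _ _ _ _ _ _ _ h5⟩
    intro h6
    have h7 : (f ζ).1 = -((δ * ζ) • d ζ) := eq_neg_of_add_eq_zero_left h6
    have h8 := hδD ζ hζ'
    have h9 := hm ζ hζ'
    rw [h7, norm_neg] at h9
    exact absurd (h9.trans_lt (h8.trans_le (min_le_left _ _))) (lt_irrefl _)
  · -- the backward disc
    have hmem : Dsc R' (fun ζ => ((f ζ).1 + (δ * ζ) • d ζ, (f ζ).2)) := by
      refine ⟨?_, ?_⟩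
      · have h1 : DifferentiableOn ℂ (fun ζ => (f ζ).1 + (δ * ζ) • d ζ) (ball 0 R) :=
          hf.1.fst.add (((differentiableOn_const δ).mul differentiableOn_id).smul hdd)
        exact (h1.prodMk hf.1.snd).mono (ball_subset_ball hRR.le)
      · intro ζ hζ
        have hζ' := ball_subset_closedBall hζ
        obtain ⟨h1, h2, h3, h4, h5⟩ := hf.2 ζ (hsub hζ')
        refine ⟨?_, h2, h3, h4, FF_add_tens _ _ _ _ _ _ _ _ h5⟩
        intro h6
        have h7 : (f ζ).1 = -((δ * ζ) • d ζ) := eq_neg_of_add_eq_zero_left h6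
        have h8 := hδD ζ hζ'
        have h9 := hm ζ hζ'
        rw [h7, norm_neg] at h9
        exact absurd (h9.trans_lt (h8.trans_le (min_le_left _ _))) (lt_irrefl _)
    refine ⟨hmem.bk_diff, fun ζ hζ => bk_mem (hmem.2 ζ hζ) ?_⟩
    have hζ' := hsub (ball_subset_closedBall hζ)
    intro hz
    have hform := bk_add_tens (f ζ).1 P Q (δ * ζ) (f ζ).2.1 (f ζ).2.2.1 (f ζ).2.2.2 u
      (hf.2 ζ hζ').2.2.2.1
    have h1 : (bk (f ζ)).2.1 + (δ * ζ * (qf P (f ζ).2.1 * qf Q (f ζ).2.2.1)) • u = 0 := by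
      rw [← hz]
      exact (congrArg (fun s : St => s.2.1) hform).symm
    have h2 := congrFun h1 i
    have h3 := congrFun h1 i'
    simp only [Pi.add_apply, Pi.smul_apply, smul_eq_mul, hui, hui', mul_zero, add_zero, mul_one,
      Pi.zero_apply] at h2 h3
    have hζZ : ζ ∈ Z := ⟨hζ', h2⟩
    have hζ0 : ζ ≠ 0 := by
      rintro rfl
      exact hi h2
    apply hδB
    refine ⟨ζ, hζZ, ?_⟩
    have h4 := hPn ζ hζZ
    show -(bk (f ζ)).2.1 i' / (ζ * (qf P (f ζ).2.1 * qf Q (f ζ).2.2.1)) = δ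
    rw [div_eq_iff (mul_ne_zero hζ0 h4)]
    linear_combination -h3
  · simp
  · intro ζ hζ
    have hζ' : ζ ∈ closedBall (0 : ℂ) R' := by simp; linarith
    have h1 := hδD ζ hζ'
    have h2 : dist ((f ζ).1 + (δ * ζ) • d ζ, (f ζ).2) (f ζ) = ‖(δ * ζ) • d ζ‖ := by
      rw [Prod.dist_eq, dist_self, dist_eq_norm, add_sub_cancel_left]
      exact max_eq_left (norm_nonneg _)
    rw [h2]
    exact h1.trans_le (min_le_right _ _)

/-! ### approximation of discs, and the forced poles -/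

lemma unif_near {α β : Type} [PseudoMetricSpace α] [PseudoMetricSpace β] {F : α → β} {S K : Set α}
    (hF : ContinuousOn F S) (hK : IsCompact K) (hKS : K ⊆ S) {ε : ℝ} (hε : 0 < ε) :
    ∃ δ > 0, ∀ x ∈ K, ∀ y ∈ S, dist y x < δ → dist (F y) (F x) < ε := by
  have h1 : ∀ x : K, ∃ U : Set α, IsOpen U ∧ (x : α) ∈ U ∧ ∀ y ∈ U ∩ S, dist (F y) (F x) < ε / 2 := by
    intro x
    have h2 := (hF x (hKS x.2)).eventually (ball_mem_nhds (F x) (half_pos hε))
    rw [eventually_nhdsWithin_iff] at h2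
    obtain ⟨U, hU, hUo, hxU⟩ := _root_.eventually_nhds_iff.1 h2
    exact ⟨U, hUo, hxU, fun y hy => hU y hy.1 hy.2⟩
  choose U hUo hxU hU using h1
  obtain ⟨δ, hδ, hleb⟩ := lebesgue_number_lemma_of_metric hK hUo
    (fun x hx => mem_iUnion.2 ⟨⟨x, hx⟩, hxU ⟨x, hx⟩⟩)
  refine ⟨δ, hδ, fun x hx y hy hyx => ?_⟩
  obtain ⟨i, hi⟩ := hleb x hx
  have h3 := hU i y ⟨hi hyx, hy⟩
  have h4 := hU i x ⟨hi (mem_ball_self hδ), hKS hx⟩
  calc dist (F y) (F x) ≤ dist (F y) (F i) + dist (F x) (F i) := dist_triangle_right _ _ _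
    _ < ε := by linarith

lemma exists_radius {U : Set ℂ} (hU : IsOpen U) (h : closedBall (0 : ℂ) 1 ⊆ U) :
    ∃ R > (1 : ℝ), ball (0 : ℂ) R ⊆ U := by
  obtain ⟨δ, hδ, h1⟩ := (isCompact_closedBall (0 : ℂ) 1).exists_thickening_subset_open hU h
  rw [thickening_closedBall hδ zero_le_one] at h1
  exact ⟨δ + 1, by linarith, h1⟩

def Good (j : ℕ) (w : St) : Prop := ∀ i ≤ j, bk^[i] w ∈ Con

lemma Good.bk {j : ℕ} {w : St} (h : Good (j + 1) w) : Good j (bk w) := by
  intro i hi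
  have := h (i + 1) (by omega)
  rwa [Function.iterate_succ_apply] at this

lemma Good.mem {j : ℕ} {w : St} (h : Good j w) : w ∈ Con := h 0 (by omega)

lemma approx (j : ℕ) : ∀ {R : ℝ}, 1 < R → ∀ {f : ℂ → St}, Dsc R f → Good j (f 0) →
    ∀ {ε : ℝ}, 0 < ε → ∃ R' > (1 : ℝ), ∃ f' : ℂ → St,
      (∀ i ≤ j, Dsc R' (fun ζ => bk^[i] (f' ζ))) ∧ f' 0 = f 0 ∧
        ∀ ζ : ℂ, ‖ζ‖ ≤ 1 → dist (f' ζ) (f ζ) < ε := by
  induction j with
  | zero =>
    intro R hR f hf _ ε hε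
    refine ⟨R, hR, f, ?_, rfl, fun ζ _ => by simpa using hε⟩
    intro i hi
    obtain rfl : i = 0 := by omega
    exact hf
  | succ j ih =>
    intro R hR f hf hgood ε hε
    have hb0 : bk (f 0) ∈ Con := hgood 1 (by omega)
    obtain ⟨R1, hR1, f1, hf1, hh, hf10, hf1ε⟩ := pert hR hf hb0 (half_pos hε)
    set h : ℂ → St := fun ζ => bk (f1 ζ) with hhdef
    have hstp : ∀ ζ ∈ ball (0 : ℂ) R1, stp (h ζ) = f1 ζ := fun ζ hζ =>
      stp_bk (hf1.2 ζ hζ) (hh.2 ζ hζ).2.1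
    have hsub1 : closedBall (0 : ℂ) 1 ⊆ ball 0 R1 := closedBall_subset_ball hR1
    -- lower bound for the last component
    obtain ⟨m, hm0, hm⟩ : ∃ m : ℝ, 0 < m ∧ ∀ ζ ∈ closedBall (0 : ℂ) 1, m ≤ ‖(f1 ζ).2.2.2‖ := by
      obtain ⟨x, hx, hmin⟩ := (isCompact_closedBall (0 : ℂ) 1).exists_isMinOn
        ⟨0, by simp⟩ (hf1.1.continuousOn.snd.snd.snd.norm.mono hsub1)
      exact ⟨‖(f1 x).2.2.2‖, norm_pos_iff.2 (hf1.2 x (hsub1 hx)).2.2.2.1, fun ζ hζ => hmin hζ⟩
    have hK : IsCompact (h '' closedBall (0 : ℂ) 1) :=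
      (isCompact_closedBall (0 : ℂ) 1).image_of_continuousOn (hh.1.continuousOn.mono hsub1)
    have hKC : h '' closedBall (0 : ℂ) 1 ⊆ Con := by
      rintro _ ⟨ζ, hζ, rfl⟩
      exact hh.2 ζ (hsub1 hζ)
    obtain ⟨ε', hε', hunif⟩ := unif_near continuousOn_stp hK hKC
      (ε := min (ε / 2) m) (lt_min (half_pos hε) hm0)
    have hh0 : Good j (h 0) := by
      have : h 0 = bk (f 0) := by rw [hhdef, ← hf10]
      rw [this]
      exact hgood.bk
    obtain ⟨R2, hR2, h', hh', hh'0, hh'ε⟩ := ih hR1 hh hh0 hε'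
    have hh'D : Dsc R2 h' := hh' 0 (by omega)
    have hsub2 : closedBall (0 : ℂ) 1 ⊆ ball 0 R2 := closedBall_subset_ball hR2
    have hclose : ∀ ζ ∈ closedBall (0 : ℂ) 1, dist (stp (h' ζ)) (f1 ζ) < min (ε / 2) m := by
      intro ζ hζ
      rw [← hstp ζ (hsub1 hζ)]
      exact hunif _ ⟨ζ, hζ, rfl⟩ _ (hh'D.2 ζ (hsub2 hζ)) (hh'ε ζ (by simpa using hζ))
    have hne : ∀ ζ ∈ closedBall (0 : ℂ) 1, (stp (h' ζ)).2.2.2 ≠ 0 := by
      intro ζ hζ h0
      have h1 := (hclose ζ hζ).trans_le (min_le_right _ _)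
      have h2 := hm ζ hζ
      have h3 : dist (stp (h' ζ)).2.2.2 (f1 ζ).2.2.2 ≤ dist (stp (h' ζ)) (f1 ζ) := by
        refine le_trans ?_ (le_max_right _ _)
        refine le_trans ?_ (le_max_right _ _)
        exact le_max_right _ _
      rw [h0, dist_zero_left] at h3
      linarith
    -- enlarge the disc
    have hopen : IsOpen (ball (0 : ℂ) R2 ∩ (fun ζ => (stp (h' ζ)).2.2.2) ⁻¹' {0}ᶜ) :=
      hh'D.stp_diff.continuousOn.snd.snd.snd.isOpen_inter_preimage isOpen_ball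
        isOpen_compl_singleton
    obtain ⟨R3, hR3, hsub3⟩ := exists_radius hopen fun ζ hζ => ⟨hsub2 hζ, hne ζ hζ⟩
    have hsub3' : ball (0 : ℂ) R3 ⊆ ball 0 R2 := fun ζ hζ => (hsub3 hζ).1
    have hbs : ∀ ζ ∈ ball (0 : ℂ) R3, bk (stp (h' ζ)) = h' ζ := fun ζ hζ =>
      bk_stp (hh'D.2 ζ (hsub3' hζ)) (hsub3 hζ).2
    refine ⟨R3, hR3, fun ζ => stp (h' ζ), ?_, ?_, ?_⟩
    · intro i hi
      rcases i with _ | i
      · exact ⟨hh'D.stp_diff.mono hsub3', fun ζ hζ =>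
          stp_mem (hh'D.2 ζ (hsub3' hζ)) (hsub3 hζ).2⟩
      · have hi' := hh' i (by omega)
        have heq : ∀ ζ ∈ ball (0 : ℂ) R3, bk^[i + 1] (stp (h' ζ)) = bk^[i] (h' ζ) := by
          intro ζ hζ
          rw [Function.iterate_succ_apply, hbs ζ hζ]
        refine ⟨(hi'.1.mono hsub3').congr heq, fun ζ hζ => ?_⟩
        show bk^[i + 1] (stp (h' ζ)) ∈ Con
        rw [heq ζ hζ]
        exact hi'.2 ζ (hsub3' hζ)
    · show stp (h' 0) = f 0
      rw [hh'0]
      have : h 0 = bk (f 0) := by rw [hhdef, ← hf10]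
      rw [this]
      exact stp_bk hgood.mem hb0.2.1
    · intro ζ hζ
      have hζ' : ζ ∈ closedBall (0 : ℂ) 1 := by simpa using hζ
      have h1 := (hclose ζ hζ').trans_le (min_le_left _ _)
      have h2 := hf1ε ζ hζ
      calc dist (stp (h' ζ)) (f ζ) ≤ dist (stp (h' ζ)) (f1 ζ) + dist (f1 ζ) (f ζ) :=
            dist_triangle _ _ _
        _ < ε := by linarith

/-- transfer of upper bounds to the centre of a disc -/
lemma bound_centre {φ : St → EReal}
    (hφ : ∀ (R : ℝ) (f : ℂ → St), 1 < R → Dsc R f → SubMean (fun ζ => φ (f ζ)) 0 1)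
    {j : ℕ} {M : St → ℝ} (hM : ContinuousOn M Con)
    (hB : ∀ w, Good j w → φ (bk^[j] w) ≤ (M w : EReal)) {R : ℝ} (hR : 1 < R) {f : ℂ → St}
    (hf : Dsc R f) (hg : Good j (f 0)) {K : ℝ} (hK : ∀ ζ : ℂ, ‖ζ‖ = 1 → M (f ζ) < K) :
    φ (bk^[j] (f 0)) ≤ (K : EReal) := by
  have hsub : sphere (0 : ℂ) 1 ⊆ ball 0 R :=
    sphere_subset_closedBall.trans (closedBall_subset_ball hR)
  obtain ⟨x, hx, hmax⟩ := (isCompact_sphere (0 : ℂ) 1).exists_isMaxOn
    ⟨1, by simp⟩ (hM.comp (hf.1.continuousOn.mono hsub) fun ζ hζ => hf.2 ζ (hsub hζ))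
  have hx' : M (f x) < K := hK x (by simpa using hx)
  have hcomp : IsCompact (f '' sphere (0 : ℂ) 1) :=
    (isCompact_sphere (0 : ℂ) 1).image_of_continuousOn (hf.1.continuousOn.mono hsub)
  obtain ⟨δ, hδ, hunif⟩ := unif_near hM hcomp
    (by rintro _ ⟨ζ, hζ, rfl⟩; exact hf.2 ζ (hsub hζ)) (sub_pos.2 hx')
  obtain ⟨R', hR', f', hf', hf'0, hf'd⟩ := approx j hR hf hg hδ
  have hs := hφ R' _ hR' (hf' j le_rfl) (fun _ => K) continuous_const (fun ζ hζ => by
    have hζ1 : ‖ζ‖ = 1 := by simpa using hζ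
    have hζR : ζ ∈ ball (0 : ℂ) R' := by simp [hζ1]; linarith
    have hgood : Good j (f' ζ) := fun i hi => (hf' i hi).2 ζ hζR
    refine (hB _ hgood).trans ?_
    rw [EReal.coe_le_coe_iff]
    have h1 := hunif (f ζ) ⟨ζ, by simpa using hζ1, rfl⟩ (f' ζ) hgood.mem (hf'd ζ hζ1.le)
    have h2 : M (f ζ) ≤ M (f x) := hmax (by simpa using hζ1)
    rw [Real.dist_eq] at h1
    have := (abs_lt.1 h1).2
    linarith)
  rw [Real.circleAverage_const] at hs
  have e : (fun ζ => φ (bk^[j] (f' ζ))) 0 = φ (bk^[j] (f 0)) := by simp only [hf'0]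
  rw [← e]
  exact hs

noncomputable def beta (w : St) : ℝ :=
  -Real.log ‖w.2.1‖ + Real.goldenRatio * Real.log ‖w.2.2.1‖ +
    Real.goldenRatio ^ 2 * Real.log ‖w.2.2.2‖

lemma continuousOn_beta (C κ μ : ℝ) :
    ContinuousOn (fun w : St => C + κ * beta w + μ * Real.log ‖w.1‖) Con := by
  have h1 : ContinuousOn (fun w : St => Real.log ‖w.1‖) Con :=
    ContinuousOn.log (by fun_prop) fun w hw => (norm_pos_iff.2 hw.1).ne'
  have h2 : ContinuousOn (fun w : St => Real.log ‖w.2.1‖) Con :=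
    ContinuousOn.log (by fun_prop) fun w hw => (norm_pos_iff.2 hw.2.1).ne'
  have h3 : ContinuousOn (fun w : St => Real.log ‖w.2.2.1‖) Con :=
    ContinuousOn.log (by fun_prop) fun w hw => (norm_pos_iff.2 hw.2.2.1).ne'
  have h4 : ContinuousOn (fun w : St => Real.log ‖w.2.2.2‖) Con :=
    ContinuousOn.log (by fun_prop) fun w hw => (norm_pos_iff.2 hw.2.2.2.1).ne'
  unfold beta
  fun_prop

lemma golden_aux {g : ℝ} (h : g ^ 2 = g + 1) (hp : 0 < g) :
    g - 2 = -(1 / g ^ 2) ∧ g ^ 2 - 2 = g / g ^ 2 := by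
  have h2 : g ^ 2 ≠ 0 := by positivity
  constructor
  · rw [eq_neg_iff_add_eq_zero, ← mul_right_inj' h2, mul_add, mul_one_div_cancel h2]
    linear_combination (g - 1) * h
  · rw [eq_div_iff h2]
    linear_combination (g ^ 2 + g) * h

lemma golden_rel1 : Real.goldenRatio - 2 = -(1 / Real.goldenRatio ^ 2) :=
  (golden_aux Real.goldenRatio_sq Real.goldenRatio_pos).1

lemma golden_rel2 : Real.goldenRatio ^ 2 - 2 = Real.goldenRatio / Real.goldenRatio ^ 2 :=
  (golden_aux Real.goldenRatio_sq Real.goldenRatio_pos).2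

lemma step_bound {φ : St → EReal}
    (hφ : ∀ (R : ℝ) (f : ℂ → St), 1 < R → Dsc R f → SubMean (fun ζ => φ (f ζ)) 0 1)
    {j : ℕ} {C κ μ : ℝ} (hκ : 0 < κ)
    (hB : ∀ w, Good j w → φ (bk^[j] w) ≤ ((C + κ * beta w + μ * Real.log ‖w.1‖ : ℝ) : EReal)) :
    ∃ C' : ℝ, ∀ w, Good (j + 1) w → φ (bk^[j + 1] w) ≤
      ((C' + κ / Real.goldenRatio ^ 2 * beta w + (μ - κ) * Real.log ‖w.1‖ : ℝ) : EReal) := by
  refine ⟨C + κ * Real.log 32 + |μ| * Real.log 2 + 1, fun w hw => ?_⟩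
  obtain ⟨c, w0, w1, w2⟩ := w
  obtain ⟨hc, h0, h1, h2, hF⟩ := hw.mem
  have hbk : bk (c, w0, w1, w2) ∈ Con := hw 1 (by omega)
  obtain ⟨-, hb, -⟩ := hbk
  simp only at hc h0 h1 h2 hF
  have nc : 0 < ‖c‖ := norm_pos_iff.2 hc
  have n0 : 0 < ‖w0‖ := norm_pos_iff.2 h0
  have n1 : 0 < ‖w1‖ := norm_pos_iff.2 h1
  have n2 : 0 < ‖w2‖ := norm_pos_iff.2 h2
  set r : ℝ := ‖c‖ * ‖w0‖ ^ 2 * ‖w1‖ ^ 2 / (16 * ‖w2‖) with hr
  have hr0 : 0 < r := by positivity
  obtain ⟨ε, hεn, hε0, hε1⟩ := exists_dir hb hr0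
  obtain ⟨p, hp, hpn⟩ := exists_dual h0
  obtain ⟨q, hq, hqn⟩ := exists_dual h1
  set d : C3 := tens (co p p) (co q q) (co w2 ε) with hd
  have hdn : ‖d‖ ≤ ‖c‖ / 2 := by
    have e1 : ‖co p p‖ ≤ 2 * (‖w0‖⁻¹ * ‖w0‖⁻¹) := (norm_co_le p p).trans (by gcongr)
    have e2 : ‖co q q‖ ≤ 2 * (‖w1‖⁻¹ * ‖w1‖⁻¹) := (norm_co_le q q).trans (by gcongr)
    have e3 : ‖co w2 ε‖ ≤ 2 * (‖w2‖ * r) := by rw [← hεn]; exact norm_co_le w2 ε
    calc ‖d‖ ≤ ‖co p p‖ * ‖co q q‖ * ‖co w2 ε‖ := norm_tens_le _ _ _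
      _ ≤ (2 * (‖w0‖⁻¹ * ‖w0‖⁻¹)) * (2 * (‖w1‖⁻¹ * ‖w1‖⁻¹)) * (2 * (‖w2‖ * r)) := by gcongr
      _ = ‖c‖ / 2 := by rw [hr]; field_simp; ring
  -- the family of states over the plane
  set F : ℂ → St := fun ζ => (c + ζ • d, w0, w1, w2) with hFdef
  have hcz : ∀ ζ : ℂ, ‖ζ‖ ≤ 3 / 2 → ‖c‖ / 4 ≤ ‖c + ζ • d‖ ∧ ‖c + ζ • d‖ ≤ 2 * ‖c‖ := by
    intro ζ hζ
    have e1 : ‖ζ • d‖ ≤ 3 / 4 * ‖c‖ := by
      rw [norm_smul]
      calc ‖ζ‖ * ‖d‖ ≤ 3 / 2 * (‖c‖ / 2) := by gcongr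
        _ = 3 / 4 * ‖c‖ := by ring
    constructor
    · have := norm_sub_norm_le c (-(ζ • d))
      rw [norm_neg, sub_neg_eq_add] at this
      linarith
    · have := norm_add_le c (ζ • d)
      linarith
  have hFmem : ∀ ζ : ℂ, ‖ζ‖ ≤ 3 / 2 → F ζ ∈ Con := by
    intro ζ hζ
    refine ⟨?_, h0, h1, h2, FF_add_tens _ _ _ _ _ _ _ _ hF⟩
    rw [← norm_pos_iff]
    exact lt_of_lt_of_le (by positivity) (hcz ζ hζ).1
  have hform : ∀ ζ : ℂ, bk (F ζ) =
      (rot' (c + ζ • d), (bk (c, w0, w1, w2)).2.1 + ζ • ε, w0, w1) := by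
    intro ζ
    rw [hFdef]
    show bk (c + ζ • d, w0, w1, w2) = _
    rw [hd, bk_add_tens _ _ _ _ _ _ _ _ h2, qf_co, qf_co, hp, hq]
    simp
  have hD : Dsc (3 / 2) F := by
    refine ⟨?_, fun ζ hζ => hFmem ζ (by simpa using (mem_ball_zero_iff.1 hζ).le)⟩
    rw [hFdef]
    fun_prop
  have hDb : Dsc (3 / 2) (fun ζ => bk (F ζ)) := by
    refine ⟨hD.bk_diff, fun ζ hζ => bk_mem (hD.2 ζ hζ) ?_⟩
    rw [hform ζ]
    exact hε0 ζ
  have hF0 : F 0 = (c, w0, w1, w2) := by simp [hFdef]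
  have hgood : Good j (bk (F 0)) := by rw [hF0]; exact hw.bk
  set L0 := Real.log ‖w0‖ with hL0
  set L1 := Real.log ‖w1‖ with hL1
  set L2 := Real.log ‖w2‖ with hL2
  set Lc := Real.log ‖c‖ with hLc
  have hlogr : Real.log (r / 2) = Lc + 2 * L0 + 2 * L1 - L2 - Real.log 32 := by
    have e : r / 2 = ‖c‖ * ‖w0‖ ^ 2 * ‖w1‖ ^ 2 / (‖w2‖ * 32) := by rw [hr]; field_simp; ring
    rw [e, Real.log_div (by positivity) (by positivity), Real.log_mul (by positivity) (by positivity),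
      Real.log_mul (by positivity) (by positivity), Real.log_mul (by positivity) (by norm_num),
      Real.log_pow, Real.log_pow]
    push_cast
    ring
  have hlog2 : ∀ ζ : ℂ, ‖ζ‖ = 1 → μ * Real.log ‖c + ζ • d‖ ≤ μ * Lc + |μ| * Real.log 2 := by
    intro ζ hζ
    have e1 : ‖ζ • d‖ ≤ ‖c‖ / 2 := by rw [norm_smul, hζ, one_mul]; exact hdn
    have e2 : ‖c‖ / 2 ≤ ‖c + ζ • d‖ := by
      have := norm_sub_norm_le c (-(ζ • d))
      rw [norm_neg, sub_neg_eq_add] at this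
      linarith
    have e3 := (hcz ζ (by rw [hζ]; norm_num)).2
    have e4 : |Real.log ‖c + ζ • d‖ - Lc| ≤ Real.log 2 := by
      rw [abs_le]
      constructor
      · have := Real.log_le_log (by positivity) e2
        rw [Real.log_div nc.ne' (by norm_num)] at this
        linarith
      · have := Real.log_le_log (lt_of_lt_of_le (by positivity) e2) e3
        rw [Real.log_mul (by norm_num) nc.ne'] at this
        linarith
    have e5 : μ * (Real.log ‖c + ζ • d‖ - Lc) ≤ |μ| * Real.log 2 :=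
      (le_abs_self _).trans (by rw [abs_mul]; gcongr)
    linarith
  have hres := bound_centre hφ (continuousOn_beta C κ μ) hB (by norm_num : (1 : ℝ) < 3 / 2) hDb hgood
    (K := C + κ * (-Real.log (r / 2) + Real.goldenRatio * L0 + Real.goldenRatio ^ 2 * L1) +
      (μ * Lc + |μ| * Real.log 2) + 1) (by
    intro ζ hζ
    have e1 : Real.log (r / 2) ≤ Real.log ‖(bk (c, w0, w1, w2)).2.1 + ζ • ε‖ :=
      Real.log_le_log (by positivity) (hε1 ζ hζ)
    have e2 := hlog2 ζ hζ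
    rw [hform ζ]
    simp only [beta, norm_rot']
    have e3 : κ * (-Real.log ‖(bk (c, w0, w1, w2)).2.1 + ζ • ε‖ + Real.goldenRatio * Real.log ‖w0‖ +
        Real.goldenRatio ^ 2 * Real.log ‖w1‖) ≤
        κ * (-Real.log (r / 2) + Real.goldenRatio * L0 + Real.goldenRatio ^ 2 * L1) := by
      rw [hL0, hL1]; gcongr
    linarith)
  rw [hF0, ← Function.iterate_succ_apply] at hres
  refine hres.trans ?_
  rw [EReal.coe_le_coe_iff]
  apply le_of_eq
  simp only [beta]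
  rw [hlogr, ← hL0, ← hL1, ← hL2]
  have g1 := golden_rel1
  have g2 := golden_rel2
  have g3 : Real.goldenRatio ^ 2 / Real.goldenRatio ^ 2 = 1 :=
    div_self (pow_ne_zero 2 Real.goldenRatio_pos.ne')
  linear_combination κ * L0 * g1 + κ * L1 * g2 - κ * L2 * g3

lemma all_bounds {φ : St → EReal}
    (hφ : ∀ (R : ℝ) (f : ℂ → St), 1 < R → Dsc R f → SubMean (fun ζ => φ (f ζ)) 0 1)
    {C μ : ℝ} (hB : ∀ w ∈ Con, φ w ≤ ((C + beta w + μ * Real.log ‖w.1‖ : ℝ) : EReal)) (j : ℕ) :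
    ∃ C' κ μ' : ℝ, 0 < κ ∧ ∀ w, Good j w → φ (bk^[j] w) ≤
      ((C' + κ * beta w + μ' * Real.log ‖w.1‖ : ℝ) : EReal) := by
  induction j with
  | zero =>
    refine ⟨C, 1, μ, one_pos, fun w hw => ?_⟩
    rw [one_mul]
    exact hB w hw.mem
  | succ j ih =>
    obtain ⟨C', κ, μ', hκ, h⟩ := ih
    obtain ⟨C'', h''⟩ := step_bound hφ hκ h
    exact ⟨C'', _, _, div_pos hκ (pow_pos Real.goldenRatio_pos 2), h''⟩

lemma forced_bot {φ : St → EReal}
    (hφ : ∀ (R : ℝ) (f : ℂ → St), 1 < R → Dsc R f → SubMean (fun ζ => φ (f ζ)) 0 1)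
    {C μ : ℝ} (hB : ∀ w ∈ Con, φ w ≤ ((C + beta w + μ * Real.log ‖w.1‖ : ℝ) : EReal)) {j : ℕ}
    {w : St} (hw : Good j w) (hz : form1 w.1 w.2.2.1 w.2.2.2 = 0) : φ (bk^[j] w) = ⊥ := by
  obtain ⟨C', κ, μ', hκ, h⟩ := all_bounds hφ hB j
  obtain ⟨c, w0, w1, w2⟩ := w
  obtain ⟨hc, h0, h1, h2, hF⟩ := hw.mem
  simp only at hc h0 h1 h2 hF hz
  rw [EReal.eq_bot_iff_forall_lt]
  intro y
  set B : ℝ := C' + κ * (Real.goldenRatio * Real.log ‖w1‖ + Real.goldenRatio ^ 2 * Real.log ‖w2‖) +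
    μ' * Real.log ‖c‖ with hBdef
  set r : ℝ := 2 * Real.exp ((B - y + 2) / κ) with hr
  have hr0 : 0 < r := by positivity
  obtain ⟨ε, hεn, hε0, hε1⟩ := exists_dir h0 hr0
  set f : ℂ → St := fun ζ => (c, w0 + ζ • ε, w1, w2) with hf
  have hD : Dsc 2 f := by
    refine ⟨by rw [hf]; fun_prop, fun ζ _ => ⟨hc, hε0 ζ, h1, h2, ?_⟩⟩
    show qf (form1 c w1 w2) _ = 0
    rw [hz]; simp [qf]
  have hf0 : f 0 = (c, w0, w1, w2) := by simp [hf]
  have hres := bound_centre hφ (continuousOn_beta C' κ μ') h one_lt_two hD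
    (by rw [hf0]; exact hw) (K := y - 1) (by
    intro ζ hζ
    have e1 : Real.log (r / 2) ≤ Real.log ‖w0 + ζ • ε‖ :=
      Real.log_le_log (by positivity) (hε1 ζ hζ)
    have e2 : Real.log (r / 2) = (B - y + 2) / κ := by
      rw [hr, mul_div_cancel_left₀ _ (two_ne_zero), Real.log_exp]
    have e3 : κ * ((B - y + 2) / κ) = B - y + 2 := by field_simp
    have e4 : κ * Real.log ‖w0 + ζ • ε‖ ≥ B - y + 2 := by
      rw [← e3, ← e2]; gcongr
    simp only [hf, beta]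
    rw [hBdef] at e4
    linarith)
  rw [hf0] at hres
  refine lt_of_le_of_lt hres ?_
  rw [EReal.coe_lt_coe_iff]; linarith

/-- Poles are forced at all points whose forward orbit runs into a vanishing form. -/
lemma forced_bot' {φ : St → EReal}
    (hφ : ∀ (R : ℝ) (f : ℂ → St), 1 < R → Dsc R f → SubMean (fun ζ => φ (f ζ)) 0 1)
    {C μ : ℝ} (hB : ∀ w ∈ Con, φ w ≤ ((C + beta w + μ * Real.log ‖w.1‖ : ℝ) : EReal)) {j : ℕ}
    {s : St} (hs : ∀ i ≤ j, stp^[i] s ∈ Con)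
    (hz : form1 (stp^[j] s).1 (stp^[j] s).2.2.1 (stp^[j] s).2.2.2 = 0) : φ s = ⊥ := by
  have key : ∀ i, i ≤ j → bk^[i] (stp^[j] s) = stp^[j - i] s := by
    intro i
    induction i with
    | zero => intro _; rfl
    | succ i ih =>
      intro hi
      rw [Function.iterate_succ_apply', ih (by omega)]
      obtain ⟨m, hm⟩ : ∃ m, j - i = m + 1 := ⟨j - i - 1, by omega⟩
      have hm' : j - (i + 1) = m := by omega
      rw [hm, hm', Function.iterate_succ_apply']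
      refine bk_stp (hs m (by omega)) ?_
      have := (hs (m + 1) (by omega)).2.2.2.1
      rwa [Function.iterate_succ_apply'] at this
  have hgood : Good j (stp^[j] s) := by
    intro i hi
    rw [key i hi]
    exact hs _ (by omega)
  have := forced_bot hφ hB hgood hz
  rw [key j le_rfl, Nat.sub_self] at this
  exact this

/-! ### the iterates on all states (the coefficients may vanish) -/

def Con0 : Set St :=
  {s | s.2.1 ≠ 0 ∧ s.2.2.1 ≠ 0 ∧ s.2.2.2 ≠ 0 ∧ FF s.1 s.2.1 s.2.2.1 s.2.2.2 = 0}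

lemma FF_stp {s : St} (h : FF s.1 s.2.1 s.2.2.1 s.2.2.2 = 0) :
    FF (stp s).1 (stp s).2.1 (stp s).2.2.1 (stp s).2.2.2 = 0 := by
  show FF (rot s.1) s.2.2.1 s.2.2.2 (flip (form1 s.1 s.2.2.1 s.2.2.2) s.2.1) = 0
  rw [FF_rot]
  rcases eq_or_ne s.2.1 0 with h0 | h0
  · rw [h0, flip_zero]
    rw [h0] at h
    exact h
  · exact flip_root h0 h

lemma FF_iter {s : St} (h : FF s.1 s.2.1 s.2.2.1 s.2.2.2 = 0) (n : ℕ) :
    FF (stp^[n] s).1 (stp^[n] s).2.1 (stp^[n] s).2.2.1 (stp^[n] s).2.2.2 = 0 := by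
  induction n with
  | zero => exact h
  | succ n ih => rw [Function.iterate_succ_apply']; exact FF_stp ih

lemma stp_norm_le {s : St} (h : FF s.1 s.2.1 s.2.2.1 s.2.2.2 = 0) :
    ‖(stp s).2.2.2‖ * ‖s.2.1‖ ≤ 18 * (‖s.1‖ * ‖s.2.2.1‖ ^ 2 * ‖s.2.2.2‖ ^ 2) := by
  refine (norm_flip_le (q := form1 s.1 s.2.2.1 s.2.2.2) (z := s.2.1) h).trans ?_
  have := norm_form1_le s.1 s.2.2.1 s.2.2.2
  linarith

lemma norm_iter_fst (s : St) (n : ℕ) : ‖(stp^[n] s).1‖ = ‖s.1‖ := by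
  induction n with
  | zero => rfl
  | succ n ih =>
    rw [Function.iterate_succ_apply']
    show ‖rot (stp^[n] s).1‖ = _
    rw [norm_rot, ih]

lemma stp_eq_zero {s : St} (h : s.2.1 = 0) : (stp s).2.2.2 = 0 := by
  show flip _ s.2.1 = 0
  rw [h, flip_zero]

lemma continuousWithinAt_stp_aux {s0 : St} (hs0 : s0 ∈ Con0) {t : St → St}
    (ht : ContinuousWithinAt t Con0 s0)
    (hF : ∀ s ∈ Con0, FF (t s).1 (t s).2.1 (t s).2.2.1 (t s).2.2.2 = 0)
    {M : ℝ} (hM : 0 ≤ M) (hb : ∀ᶠ s in 𝓝[Con0] s0, ‖(t s).2.2.1‖ ≤ M * ‖(t s).2.1‖ ^ 2) :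
    ContinuousWithinAt (fun s => stp (t s)) Con0 s0 ∧
      ∃ M' : ℝ, 0 ≤ M' ∧ ∀ᶠ s in 𝓝[Con0] s0, ‖(stp (t s)).2.2.2‖ ≤ M' * ‖(t s).2.2.2‖ ^ 2 := by
  have key : ∀ᶠ s in 𝓝[Con0] s0, ‖(stp (t s)).2.2.2‖ ≤
      18 * ‖(t s).1‖ * M ^ 2 * ‖(t s).2.1‖ ^ 3 * ‖(t s).2.2.2‖ ^ 2 := by
    filter_upwards [hb, self_mem_nhdsWithin] with s hs hsC
    rcases eq_or_ne (t s).2.1 0 with h0 | h0
    · rw [stp_eq_zero h0, norm_zero]; positivity
    · have hpos : 0 < ‖(t s).2.1‖ := norm_pos_iff.2 h0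
      have h1 := stp_norm_le (hF s hsC)
      have h2 : ‖(t s).2.2.1‖ ^ 2 ≤ M ^ 2 * ‖(t s).2.1‖ ^ 4 := by
        calc ‖(t s).2.2.1‖ ^ 2 ≤ (M * ‖(t s).2.1‖ ^ 2) ^ 2 := by gcongr
          _ = M ^ 2 * ‖(t s).2.1‖ ^ 4 := by ring
      rw [← mul_le_mul_iff_left₀ hpos]
      refine h1.trans ?_
      calc 18 * (‖(t s).1‖ * ‖(t s).2.2.1‖ ^ 2 * ‖(t s).2.2.2‖ ^ 2)
          ≤ 18 * (‖(t s).1‖ * (M ^ 2 * ‖(t s).2.1‖ ^ 4) * ‖(t s).2.2.2‖ ^ 2) := by gcongr
        _ = 18 * ‖(t s).1‖ * M ^ 2 * ‖(t s).2.1‖ ^ 3 * ‖(t s).2.2.2‖ ^ 2 * ‖(t s).2.1‖ := by ring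
  have hcn : ContinuousWithinAt (fun s => 18 * ‖(t s).1‖ * M ^ 2 * ‖(t s).2.1‖ ^ 3) Con0 s0 := by
    have h1 := ht.fst.norm
    have h2 := ht.snd.fst.norm
    exact ((continuousWithinAt_const.mul h1).mul continuousWithinAt_const).mul (h2.pow 3)
  constructor
  · have h1 : ContinuousWithinAt (fun s => rot (t s).1) Con0 s0 :=
      differentiable_rot.continuous.continuousAt.comp_continuousWithinAt ht.fst
    refine h1.prodMk (ht.snd.snd.fst.prodMk (ht.snd.snd.snd.prodMk ?_))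
    rcases eq_or_ne (t s0).2.1 0 with h0 | h0
    · have hv : flip (form1 (t s0).1 (t s0).2.2.1 (t s0).2.2.2) (t s0).2.1 = 0 := by
        rw [h0, flip_zero]
      rw [ContinuousWithinAt, hv]
      refine squeeze_zero_norm' key ?_
      have h2 : Tendsto (fun n => 18 * ‖(t n).1‖ * M ^ 2 * ‖(t n).2.1‖ ^ 3 * ‖(t n).2.2.2‖ ^ 2)
          (𝓝[Con0] s0) (𝓝 (18 * ‖(t s0).1‖ * M ^ 2 * ‖(t s0).2.1‖ ^ 3 * ‖(t s0).2.2.2‖ ^ 2)) :=
        (hcn.mul (ht.snd.snd.snd.norm.pow 2)).tendsto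
      rw [h0, norm_zero, zero_pow (by norm_num), mul_zero, zero_mul] at h2
      exact h2
    · have h2 : ContinuousWithinAt (fun s => form1 (t s).1 (t s).2.2.1 (t s).2.2.2) Con0 s0 :=
        ContinuousAt.comp_continuousWithinAt (g := fun t : C3 × V2 × V2 => form1 t.1 t.2.1 t.2.2)
          (f := fun s => ((t s).1, (t s).2.2.1, (t s).2.2.2))
          differentiable_form1.continuous.continuousAt
          (ht.fst.prodMk (ht.snd.snd.fst.prodMk ht.snd.snd.snd))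
      exact continuousWithinAt_flip hs0 h2 ht.snd.fst h0 hF
  · set B : ℝ := 18 * ‖(t s0).1‖ * M ^ 2 * ‖(t s0).2.1‖ ^ 3 + 1 with hB
    refine ⟨B, by positivity, ?_⟩
    have h1 : ∀ᶠ s in 𝓝[Con0] s0, 18 * ‖(t s).1‖ * M ^ 2 * ‖(t s).2.1‖ ^ 3 < B :=
      hcn.tendsto.eventually (gt_mem_nhds (by rw [hB]; linarith))
    filter_upwards [key, h1] with s h2 h3
    refine h2.trans ?_
    gcongr

lemma local_ratio {f g : St → V2} {s0 : St} (hf : ContinuousWithinAt f Con0 s0)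
    (hg : ContinuousWithinAt g Con0 s0) (h0 : g s0 ≠ 0) :
    ∃ M : ℝ, 0 ≤ M ∧ ∀ᶠ s in 𝓝[Con0] s0, ‖f s‖ ≤ M * ‖g s‖ ^ 2 := by
  have hpos : 0 < ‖g s0‖ := norm_pos_iff.2 h0
  refine ⟨(‖f s0‖ + 1) / (‖g s0‖ / 2) ^ 2, by positivity, ?_⟩
  have h1 : ∀ᶠ s in 𝓝[Con0] s0, ‖f s‖ < ‖f s0‖ + 1 :=
    hf.norm.tendsto.eventually (gt_mem_nhds (by linarith))
  have h2 : ∀ᶠ s in 𝓝[Con0] s0, ‖g s0‖ / 2 < ‖g s‖ :=
    hg.norm.tendsto.eventually (lt_mem_nhds (by linarith))
  filter_upwards [h1, h2] with s h3 h4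
  rw [div_mul_eq_mul_div, le_div_iff₀ (by positivity)]
  have : (‖g s0‖ / 2) ^ 2 ≤ ‖g s‖ ^ 2 := by gcongr
  nlinarith [norm_nonneg (f s), sq_nonneg (‖g s0‖ / 2)]

lemma continuousOn_iter (n : ℕ) : ContinuousOn (fun s => stp^[n] s) Con0 ∧
    ∀ s0 ∈ Con0, ∃ M : ℝ, 0 ≤ M ∧ ∀ᶠ s in 𝓝[Con0] s0,
      ‖(stp^[n] s).2.2.1‖ ≤ M * ‖(stp^[n] s).2.1‖ ^ 2 ∧
      ‖(stp^[n] s).2.2.2‖ ≤ M * ‖(stp^[n] s).2.2.1‖ ^ 2 := by
  induction n with
  | zero =>
    refine ⟨continuousOn_id, fun s0 hs0 => ?_⟩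
    have hc : ContinuousWithinAt (fun s : St => s) Con0 s0 := continuousWithinAt_id
    obtain ⟨M, hM, h1⟩ := local_ratio hc.snd.snd.fst hc.snd.fst hs0.1
    obtain ⟨M', hM', h2⟩ := local_ratio hc.snd.snd.snd hc.snd.snd.fst hs0.2.1
    refine ⟨max M M', le_max_of_le_left hM, ?_⟩
    filter_upwards [h1, h2] with s h3 h4
    show ‖s.2.2.1‖ ≤ _ * ‖s.2.1‖ ^ 2 ∧ ‖s.2.2.2‖ ≤ _ * ‖s.2.2.1‖ ^ 2
    exact ⟨h3.trans (by gcongr; exact le_max_left _ _), h4.trans (by gcongr; exact le_max_right _ _)⟩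
  | succ n ih =>
    obtain ⟨ih1, ih2⟩ := ih
    have hF : ∀ s ∈ Con0, FF (stp^[n] s).1 (stp^[n] s).2.1 (stp^[n] s).2.2.1 (stp^[n] s).2.2.2 = 0 :=
      fun s hs => FF_iter hs.2.2.2 n
    constructor
    · intro s0 hs0
      obtain ⟨M, hM, hb⟩ := ih2 s0 hs0
      have := (continuousWithinAt_stp_aux hs0 (ih1 s0 hs0) hF hM (hb.mono fun s h => h.1)).1
      simpa only [Function.iterate_succ_apply'] using this
    · intro s0 hs0
      obtain ⟨M, hM, hb⟩ := ih2 s0 hs0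
      obtain ⟨M', hM', hb'⟩ :=
        (continuousWithinAt_stp_aux hs0 (ih1 s0 hs0) hF hM (hb.mono fun s h => h.1)).2
      refine ⟨max M M', le_max_of_le_left hM, ?_⟩
      filter_upwards [hb, hb'] with s h3 h4
      rw [Function.iterate_succ_apply']
      refine ⟨?_, ?_⟩
      · show ‖(stp^[n] s).2.2.2‖ ≤ _ * ‖(stp^[n] s).2.2.1‖ ^ 2
        exact h3.2.trans (by gcongr; exact le_max_left _ _)
      · show _ ≤ _ * ‖(stp^[n] s).2.2.2‖ ^ 2
        exact h4.trans (by gcongr; exact le_max_right _ _)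

lemma differentiableOn_iter {R : ℝ} {f : ℂ → St} (hf : DifferentiableOn ℂ f (ball 0 R))
    (hm : ∀ ζ ∈ ball (0 : ℂ) R, f ζ ∈ Con0) (n : ℕ) :
    DifferentiableOn ℂ (fun ζ => stp^[n] (f ζ)) (ball 0 R) := by
  have hcont : ∀ n : ℕ, ContinuousOn (fun ζ => stp^[n] (f ζ)) (ball 0 R) := fun n =>
    (continuousOn_iter n).1.comp hf.continuousOn hm
  induction n with
  | zero => exact hf
  | succ n ih =>
    intro ζ hζ
    have hnhds : ball (0 : ℂ) R ∈ 𝓝 ζ := isOpen_ball.mem_nhds hζ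
    have ht : DifferentiableAt ℂ (fun ζ => stp^[n] (f ζ)) ζ := ih.differentiableAt hnhds
    refine DifferentiableAt.differentiableWithinAt ?_
    simp only [Function.iterate_succ_apply']
    have h1 : DifferentiableAt ℂ (fun ζ => rot (stp^[n] (f ζ)).1) ζ :=
      differentiable_rot.differentiableAt.comp ζ ht.fst
    refine h1.prodMk (ht.snd.snd.fst.prodMk (ht.snd.snd.snd.prodMk ?_))
    have hgen : ∀ η ∈ ball (0 : ℂ) R, (stp^[n] (f η)).2.1 ≠ 0 → DifferentiableAt ℂ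
        (fun ζ => flip (form1 (stp^[n] (f ζ)).1 (stp^[n] (f ζ)).2.2.1 (stp^[n] (f ζ)).2.2.2)
          (stp^[n] (f ζ)).2.1) η := by
      intro η hη h0
      have hη' : ball (0 : ℂ) R ∈ 𝓝 η := isOpen_ball.mem_nhds hη
      have ht : DifferentiableAt ℂ (fun ζ => stp^[n] (f ζ)) η := ih.differentiableAt hη'
      refine differentiableAt_flip ?_ ht.snd.fst h0 ?_
      · exact DifferentiableAt.comp (g := fun t : C3 × V2 × V2 => form1 t.1 t.2.1 t.2.2)
          (f := fun ζ => ((stp^[n] (f ζ)).1, (stp^[n] (f ζ)).2.2.1, (stp^[n] (f ζ)).2.2.2)) η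
          differentiable_form1.differentiableAt
          (ht.fst.prodMk (ht.snd.snd.fst.prodMk ht.snd.snd.snd))
      · filter_upwards [hη'] with y hy
        exact FF_iter (hm y hy).2.2.2 n
    have hana : AnalyticAt ℂ (fun ζ => (stp^[n] (f ζ)).2.1) ζ :=
      ih.snd.fst.analyticAt hnhds
    rcases hana.eventually_eq_zero_or_eventually_ne_zero with h0 | h0
    · refine (differentiableAt_const (0 : V2)).congr_of_eventuallyEq ?_
      filter_upwards [h0] with η hη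
      rw [hη, flip_zero]
    · refine (Complex.analyticAt_of_differentiable_on_punctured_nhds_of_continuousAt ?_ ?_).differentiableAt
      · rw [eventually_nhdsWithin_iff] at h0 ⊢
        filter_upwards [h0, hnhds] with η hη1 hη2 hη3
        exact hgen η hη2 (hη1 hη3)
      · have h2 := (hcont (n + 1) ζ hζ).continuousAt hnhds
        simp only [Function.iterate_succ_apply'] at h2
        exact h2.snd.snd.snd

/-! ### logarithms with values in the extended reals -/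

noncomputable def elog (t : ℝ) : EReal := ENNReal.log (ENNReal.ofReal t)

lemma elog_zero : elog 0 = ⊥ := by simp [elog]

lemma elog_of_pos {t : ℝ} (ht : 0 < t) : elog t = ((Real.log t : ℝ) : EReal) := by
  unfold elog; exact ENNReal.log_ofReal_of_pos ht

lemma elog_mul {s t : ℝ} (hs : 0 ≤ s) : elog (s * t) = elog s + elog t := by
  unfold elog
  rw [ENNReal.ofReal_mul hs, ENNReal.log_mul_add]

lemma elog_lt_top (t : ℝ) : elog t < ⊤ := by
  unfold elog
  rw [lt_top_iff_ne_top, ne_eq, ENNReal.log_eq_top_iff]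
  exact ENNReal.ofReal_ne_top

lemma continuous_elog : Continuous elog :=
  ENNReal.continuous_log.comp ENNReal.continuous_ofReal

lemma elog_mono : Monotone elog := fun _ _ h =>
  ENNReal.log_monotone (ENNReal.ofReal_le_ofReal h)

lemma elog_le_coe {t r : ℝ} (h : t ≤ Real.exp r) : elog t ≤ (r : EReal) := by
  refine (elog_mono h).trans ?_
  rw [elog_of_pos (Real.exp_pos r), Real.log_exp]

lemma jensen_one {R : ℝ} (hR : 1 < R) {h : ℂ → ℂ} (hh : DifferentiableOn ℂ h (ball 0 R))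
    (h0 : h 0 ≠ 0) : Real.log ‖h 0‖ ≤ Real.circleAverage (fun ζ => Real.log ‖h ζ‖) 0 1 ∧
      CircleIntegrable (fun ζ => Real.log ‖h ζ‖) 0 1 ∧
      {ζ : ℂ | h ζ ≠ 0} ∈ codiscreteWithin (sphere (0 : ℂ) |(1 : ℝ)|) := by
  have hha : AnalyticOnNhd ℂ h (closedBall 0 1) :=
    (hh.analyticOnNhd isOpen_ball).mono (closedBall_subset_ball hR)
  have hh' : AnalyticOnNhd ℂ h (closedBall 0 |(1 : ℝ)|) := by simpa using hha
  have hJ := hh'.circleAverage_log_norm one_ne_zero h0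
  refine ⟨?_, (hh'.mono sphere_subset_closedBall).meromorphicOn.circleIntegrable_log_norm, ?_⟩
  · rw [hJ]
    have : 0 ≤ ∑ᶠ u, MeromorphicOn.divisor h (closedBall 0 |(1 : ℝ)|) u *
        Real.log (1 * ‖(0 : ℂ) - u‖⁻¹) := by
      refine finsum_nonneg fun u => ?_
      by_cases hu : u ∈ closedBall (0 : ℂ) |(1 : ℝ)|
      · refine mul_nonneg ?_ ?_
        · have := (MeromorphicOn.AnalyticOnNhd.divisor_nonneg hh') u
          exact_mod_cast this
        · rw [one_mul, zero_sub, norm_neg]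
          have hu' : ‖u‖ ≤ 1 := by simpa using hu
          rcases eq_or_ne u 0 with rfl | hu0
          · simp
          · exact Real.log_nonneg ((one_le_inv₀ (norm_pos_iff.2 hu0)).2 hu')
      · rw [Function.locallyFinsuppWithin.apply_eq_zero_of_notMem _ hu]; simp
    linarith
  · have h1 : h ⁻¹' {0}ᶜ ∈ codiscreteWithin (closedBall (0 : ℂ) |(1 : ℝ)|) :=
      hh'.preimage_zero_mem_codiscreteWithin h0 (by simp)
        ⟨⟨0, by simp⟩, (convex_closedBall (0 : ℂ) |(1 : ℝ)|).isPreconnected⟩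
    exact codiscreteWithin_mono sphere_subset_closedBall h1

lemma jensen_sum {ι : Type} [Fintype ι] {R : ℝ} (hR : 1 < R) {h : ι → ℂ → ℂ}
    (hh : ∀ i, DifferentiableOn ℂ (h i) (ball 0 R)) {α : ι → ℝ} (hα : ∀ i, 0 < α i)
    {g : ℂ → ℝ} (hg : Continuous g)
    (hle : ∀ ζ : ℂ, ‖ζ‖ = 1 → (∀ i, h i ζ ≠ 0) → ∑ i, α i * Real.log ‖h i ζ‖ ≤ g ζ)
    (h0 : ∀ i, h i 0 ≠ 0) :
    ∑ i, α i * Real.log ‖h i 0‖ ≤ Real.circleAverage g 0 1 := by
  classical
  have hJ := fun i => jensen_one hR (hh i) (h0 i)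
  set F : ℂ → ℝ := fun ζ => ∑ i, α i * Real.log ‖h i ζ‖ with hF
  have hci : ∀ i, CircleIntegrable (fun ζ => α i * Real.log ‖h i ζ‖) 0 1 := fun i =>
    (hJ i).2.1.const_mul _
  have hFi : CircleIntegrable F 0 1 := by
    have := CircleIntegrable.sum Finset.univ (fun i _ => hci i)
    convert this using 1
    funext ζ
    simp [hF]
  have h1 : ∑ i, α i * Real.log ‖h i 0‖ ≤ Real.circleAverage F 0 1 := by
    have e : Real.circleAverage F 0 1 =
        ∑ i, Real.circleAverage (fun ζ => α i * Real.log ‖h i ζ‖) 0 1 := by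
      rw [hF, Real.circleAverage_fun_sum fun i _ => hci i]
    rw [e]
    refine Finset.sum_le_sum fun i _ => ?_
    have e2 : Real.circleAverage (fun ζ => α i * Real.log ‖h i ζ‖) 0 1 =
        α i * Real.circleAverage (fun ζ => Real.log ‖h i ζ‖) 0 1 := by
      have := Real.circleAverage_fun_smul (a := α i) (f := fun ζ => Real.log ‖h i ζ‖) (c := 0) (R := 1)
      simpa using this
    rw [e2]
    exact mul_le_mul_of_nonneg_left (hJ i).1 (hα i).le
  set k : ℂ → ℝ := fun ζ => if ∀ i, h i ζ ≠ 0 then F ζ else g ζ with hk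
  have hcod : {ζ : ℂ | ∀ i, h i ζ ≠ 0} ∈ codiscreteWithin (sphere (0 : ℂ) |(1 : ℝ)|) := by
    have : {ζ : ℂ | ∀ i, h i ζ ≠ 0} = ⋂ i, {ζ : ℂ | h i ζ ≠ 0} := by ext; simp
    rw [this, iInter_mem]
    exact fun i => (hJ i).2.2
  have hkeq : F =ᶠ[codiscreteWithin (sphere (0 : ℂ) |(1 : ℝ)|)] k := by
    filter_upwards [hcod] with ζ hζ
    have hζ' : ∀ i, h i ζ ≠ 0 := hζ
    simp only [hk, if_pos hζ']
  have hki : CircleIntegrable k 0 1 := hFi.congr_codiscreteWithin hkeq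
  have hgi : CircleIntegrable g 0 1 := hg.continuousOn.circleIntegrable'
  have h2 : Real.circleAverage F 0 1 = Real.circleAverage k 0 1 :=
    Real.circleAverage_congr_codiscreteWithin hkeq one_ne_zero
  have h3 : Real.circleAverage k 0 1 ≤ Real.circleAverage g 0 1 := by
    refine Real.circleAverage_mono hki hgi fun ζ hζ => ?_
    have hζ' : ‖ζ‖ = 1 := by simpa using hζ
    by_cases hz : ∀ i, h i ζ ≠ 0
    · simp only [hk, if_pos hz]
      exact hle ζ hζ' hz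
    · simp only [hk, if_neg hz, le_refl]
  linarith

/-- `N` behaves like the norm of a holomorphic vector function along the disc -/
def SubLog (R : ℝ) (N : ℂ → ℝ) : Prop :=
  (∀ ζ ∈ ball (0 : ℂ) R, 0 ≤ N ζ) ∧ ∃ h : ℂ → ℂ, DifferentiableOn ℂ h (ball 0 R) ∧
    ‖h 0‖ = N 0 ∧ ∀ ζ ∈ ball (0 : ℂ) R, ‖h ζ‖ ≤ N ζ

lemma SubLog.norm_pi {R : ℝ} {n : ℕ} {H : ℂ → Fin (n + 1) → ℂ}
    (hH : DifferentiableOn ℂ H (ball 0 R)) : SubLog R (fun ζ => ‖H ζ‖) := by
  refine ⟨fun _ _ => norm_nonneg _, ?_⟩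
  obtain ⟨i, hi⟩ : ∃ i, ‖H 0 i‖ = ‖H 0‖ := by
    obtain ⟨i, -, hi⟩ := Finset.exists_max_image Finset.univ (fun i => ‖H 0 i‖) ⟨0, by simp⟩
    refine ⟨i, le_antisymm (norm_le_pi_norm _ _) ?_⟩
    rw [pi_norm_le_iff_of_nonneg (norm_nonneg _)]
    exact fun j => hi j (by simp)
  exact ⟨fun ζ => H ζ i, fun ζ hζ => (differentiableWithinAt_pi.1 (hH ζ hζ)) i, hi,
    fun ζ _ => norm_le_pi_norm _ _⟩

/-- the Euclidean norm of a vector with entries indexed by a finite type -/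
noncomputable def en {ι : Type} [Fintype ι] (v : ι → ℂ) : ℝ := Real.sqrt (∑ i, ‖v i‖ ^ 2)

lemma en_nonneg {ι : Type} [Fintype ι] (v : ι → ℂ) : 0 ≤ en v := Real.sqrt_nonneg _

lemma en_sq {ι : Type} [Fintype ι] (v : ι → ℂ) : en v ^ 2 = ∑ i, ‖v i‖ ^ 2 :=
  Real.sq_sqrt (Finset.sum_nonneg fun i _ => by positivity)

lemma norm_le_en {ι : Type} [Fintype ι] (v : ι → ℂ) (i : ι) : ‖v i‖ ≤ en v := by
  rw [← abs_of_nonneg (en_nonneg v), ← Real.sqrt_sq_eq_abs]
  refine Real.le_sqrt_of_sq_le ?_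
  rw [en_sq]
  exact Finset.single_le_sum (f := fun i => ‖v i‖ ^ 2) (fun j _ => by positivity) (Finset.mem_univ i)

lemma en_pos {ι : Type} [Fintype ι] {v : ι → ℂ} (hv : v ≠ 0) : 0 < en v := by
  obtain ⟨i, hi⟩ : ∃ i, v i ≠ 0 := by
    by_contra h
    push Not at h
    exact hv (funext h)
  exact (norm_pos_iff.2 hi).trans_le (norm_le_en v i)

lemma SubLog.en {ι : Type} [Fintype ι] {R : ℝ} {H : ℂ → ι → ℂ}
    (hH : ∀ i, DifferentiableOn ℂ (fun ζ => H ζ i) (ball 0 R)) :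
    SubLog R (fun ζ => PNB.en (H ζ)) := by
  refine ⟨fun _ _ => en_nonneg _, ?_⟩
  set r : ℝ := PNB.en (H 0) with hr
  rcases eq_or_ne r 0 with h0 | h0
  · refine ⟨fun _ => 0, differentiableOn_const 0, by simp [← hr, h0], fun ζ _ => ?_⟩
    rw [norm_zero]; exact en_nonneg _
  have hr0 : 0 < r := lt_of_le_of_ne (en_nonneg _) (Ne.symm h0)
  refine ⟨fun ζ => (∑ i, conj (H 0 i) * H ζ i) / r, ?_, ?_, fun ζ _ => ?_⟩
  · exact (DifferentiableOn.fun_sum fun i _ => (differentiableOn_const _).mul (hH i)).div_const _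
  · have : (∑ i, conj (H 0 i) * H 0 i) = ((r ^ 2 : ℝ) : ℂ) := by
      rw [hr, en_sq]
      push_cast
      refine Finset.sum_congr rfl fun i _ => ?_
      rw [Complex.conj_mul']
    show ‖(∑ i, conj (H 0 i) * H 0 i) / (r : ℂ)‖ = r
    rw [this, norm_div, Complex.norm_real, Complex.norm_real, Real.norm_of_nonneg (by positivity),
      Real.norm_of_nonneg hr0.le]
    field_simp
  · rw [norm_div, Complex.norm_real, Real.norm_of_nonneg hr0.le, div_le_iff₀ hr0]
    calc ‖∑ i, conj (H 0 i) * H ζ i‖ ≤ ∑ i, ‖H 0 i‖ * ‖H ζ i‖ := by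
          refine (norm_sum_le _ _).trans (Finset.sum_le_sum fun i _ => ?_)
          rw [norm_mul, RCLike.norm_conj]
      _ ≤ Real.sqrt (∑ i, ‖H 0 i‖ ^ 2) * Real.sqrt (∑ i, ‖H ζ i‖ ^ 2) :=
          Real.sum_mul_le_sqrt_mul_sqrt _ _ _
      _ = PNB.en (H ζ) * r := by rw [hr, mul_comm]; rfl

lemma subMean_prod {ι : Type} [Fintype ι] {R : ℝ} (hR : 1 < R) {N : ι → ℂ → ℝ}
    (hN : ∀ i, SubLog R (N i)) {α : ι → ℝ} (hα : ∀ i, 0 < α i) :
    SubMean (fun ζ => elog (∏ i, N i ζ ^ α i)) 0 1 := by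
  intro g hg hle
  have h0R : (0 : ℂ) ∈ ball (0 : ℂ) R := by simp; linarith
  by_cases hz : ∃ i, N i 0 = 0
  · obtain ⟨i, hi⟩ := hz
    have : ∏ i, N i 0 ^ α i = 0 :=
      Finset.prod_eq_zero (Finset.mem_univ i) (by rw [hi, Real.zero_rpow (hα i).ne'])
    simp only [this, elog_zero]
    exact bot_le
  push Not at hz
  have hpos : ∀ i, 0 < N i 0 := fun i => lt_of_le_of_ne ((hN i).1 0 h0R) (Ne.symm (hz i))
  choose h hd h00 hhle using fun i => (hN i).2
  have hh0 : ∀ i, h i 0 ≠ 0 := fun i => by rw [← norm_pos_iff, h00 i]; exact hpos i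
  have key := jensen_sum hR hd hα hg (fun ζ hζ hne => by
    have hζR : ζ ∈ ball (0 : ℂ) R := by simp [hζ]; linarith
    have hNpos : ∀ i, 0 < N i ζ := fun i => (norm_pos_iff.2 (hne i)).trans_le (hhle i ζ hζR)
    have h1 : elog (∏ i, N i ζ ^ α i) ≤ (g ζ : EReal) := hle ζ (by simpa using hζ)
    rw [elog_of_pos (Finset.prod_pos fun i _ => Real.rpow_pos_of_pos (hNpos i) _),
      EReal.coe_le_coe_iff, Real.log_prod fun i _ => (Real.rpow_pos_of_pos (hNpos i) _).ne'] at h1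
    refine le_trans (Finset.sum_le_sum fun i _ => ?_) h1
    rw [Real.log_rpow (hNpos i)]
    exact mul_le_mul_of_nonneg_left (Real.log_le_log (norm_pos_iff.2 (hne i)) (hhle i ζ hζR))
      (hα i).le) hh0
  show elog (∏ i, N i 0 ^ α i) ≤ _
  rw [elog_of_pos (Finset.prod_pos fun i _ => Real.rpow_pos_of_pos (hpos i) _),
    EReal.coe_le_coe_iff, Real.log_prod fun i _ => (Real.rpow_pos_of_pos (hpos i) _).ne']
  refine le_trans (le_of_eq ?_) key
  refine Finset.sum_congr rfl fun i _ => ?_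
  rw [Real.log_rpow (hpos i), h00 i]

/-! ### the decreasing sequence defining the Green function -/

noncomputable def Qk (Ns : ℝ) (s : St) (k : ℕ) : ℝ :=
  ‖(stp^[k] s).2.2.1‖ * ‖(stp^[k] s).2.2.2‖ * ‖s.2.1‖ ^ Nat.fib (2 * k) /
    (‖s.2.2.2‖ ^ Nat.fib (2 * k + 2) * ‖s.2.2.1‖ ^ Nat.fib (2 * k + 1) *
      Ns ^ (Nat.fib (2 * k + 1) - 1))

lemma form1_zero_right (c : C3) (b : V2) : form1 c b 0 = 0 := by
  funext i
  have h : ∀ k, mon k 0 = 0 := by intro k; fin_cases k <;> simp [mon]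
  simp [form1, h]

lemma iter_zero_prop {s : St} (hs : s ∈ Con0) (j : ℕ) (h : (stp^[j] s).2.2.1 = 0) :
    (stp^[j] s).2.2.2 = 0 := by
  cases j with
  | zero => exact absurd h hs.2.1
  | succ j =>
    rw [Function.iterate_succ_apply'] at h ⊢
    have h' : (stp^[j] s).2.2.2 = 0 := h
    show flip (form1 _ _ (stp^[j] s).2.2.2) _ = 0
    rw [h', form1_zero_right, flip_form_zero]

lemma Qk_nonneg {Ns : ℝ} (hN : 0 < Ns) (s : St) (k : ℕ) : 0 ≤ Qk Ns s k := by
  unfold Qk; positivity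

lemma Qk_zero_prop {Ns : ℝ} (hN : 0 < Ns) {s : St} (hs : s ∈ Con0) {k : ℕ} (h : Qk Ns s k = 0) :
    Qk Ns s (k + 1) = 0 := by
  have ha : 0 < ‖s.2.1‖ := norm_pos_iff.2 hs.1
  have hb : 0 < ‖s.2.2.1‖ := norm_pos_iff.2 hs.2.1
  have he : 0 < ‖s.2.2.2‖ := norm_pos_iff.2 hs.2.2.1
  have h1 : (stp^[k] s).2.2.2 = 0 := by
    unfold Qk at h
    rw [div_eq_zero_iff] at h
    rcases h with h | h
    · rw [mul_eq_zero, mul_eq_zero] at h
      rcases h with (h | h) | h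
      · exact iter_zero_prop hs k (norm_eq_zero.1 h)
      · exact norm_eq_zero.1 h
      · exact absurd h (by positivity)
    · exact absurd h (by positivity)
  have h2 : (stp^[k + 1] s).2.2.1 = 0 := by
    rw [Function.iterate_succ_apply']; exact h1
  unfold Qk
  rw [h2, norm_zero, zero_mul, zero_mul, zero_div]

lemma fib_rec (m : ℕ) : Nat.fib (m + 4) + Nat.fib m = 3 * Nat.fib (m + 2) := by
  have h1 : Nat.fib (m + 4) = Nat.fib (m + 2) + Nat.fib (m + 3) := Nat.fib_add_two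
  have h2 : Nat.fib (m + 3) = Nat.fib (m + 1) + Nat.fib (m + 2) := Nat.fib_add_two
  have h3 : Nat.fib (m + 2) = Nat.fib m + Nat.fib (m + 1) := Nat.fib_add_two
  omega

lemma Qk_rec {Ns : ℝ} (hN : 0 < Ns) {s : St} (hs : s ∈ Con0) (hc : 18 * ‖s.1‖ ≤ Ns) (k : ℕ) :
    Qk Ns s (k + 2) * Qk Ns s k ≤ Qk Ns s (k + 1) ^ 3 := by
  have ha : 0 < ‖s.2.1‖ := norm_pos_iff.2 hs.1
  have hb : 0 < ‖s.2.2.1‖ := norm_pos_iff.2 hs.2.1
  have he : 0 < ‖s.2.2.2‖ := norm_pos_iff.2 hs.2.2.1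
  set t := stp^[k] s with ht
  have e1 : (stp^[k + 1] s).2.2.1 = t.2.2.2 := by rw [Function.iterate_succ_apply']; rfl
  have e2 : (stp^[k + 1] s).2.2.2 = (stp t).2.2.2 := by rw [Function.iterate_succ_apply']
  have e3 : (stp^[k + 2] s).2.2.1 = (stp t).2.2.2 := by
    rw [Function.iterate_succ_apply', Function.iterate_succ_apply']; rfl
  have e4 : (stp^[k + 2] s).2.2.2 = (stp (stp t)).2.2.2 := by
    rw [Function.iterate_succ_apply', Function.iterate_succ_apply']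
  have hFt : FF (stp t).1 (stp t).2.1 (stp t).2.2.1 (stp t).2.2.2 = 0 := by
    have := FF_iter hs.2.2.2 (k + 1)
    rwa [Function.iterate_succ_apply'] at this
  have hineq : ‖(stp (stp t)).2.2.2‖ * ‖t.2.2.1‖ ≤
      Ns * (‖t.2.2.2‖ ^ 2 * ‖(stp t).2.2.2‖ ^ 2) := by
    refine (stp_norm_le hFt).trans ?_
    have h1 : ‖(stp t).1‖ = ‖s.1‖ := by
      have := norm_iter_fst s (k + 1)
      rwa [Function.iterate_succ_apply'] at this
    rw [h1]
    calc 18 * (‖s.1‖ * ‖(stp t).2.2.1‖ ^ 2 * ‖(stp t).2.2.2‖ ^ 2)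
        = (18 * ‖s.1‖) * (‖t.2.2.2‖ ^ 2 * ‖(stp t).2.2.2‖ ^ 2) := by
          show 18 * (‖s.1‖ * ‖t.2.2.2‖ ^ 2 * ‖(stp t).2.2.2‖ ^ 2) = _
          ring
      _ ≤ Ns * (‖t.2.2.2‖ ^ 2 * ‖(stp t).2.2.2‖ ^ 2) := by gcongr
  have f1 := fib_rec (2 * k)
  have f2 := fib_rec (2 * k + 1)
  have f3 := fib_rec (2 * k + 2)
  have f4 : 1 ≤ Nat.fib (2 * k + 1) := Nat.fib_pos.2 (by omega)
  have f5 : 1 ≤ Nat.fib (2 * k + 3) := Nat.fib_pos.2 (by omega)
  have f6 : 1 ≤ Nat.fib (2 * k + 5) := Nat.fib_pos.2 (by omega)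
  have i1 : 2 * (k + 2) = 2 * k + 4 := by ring
  have i2 : 2 * (k + 1) = 2 * k + 2 := by ring
  unfold Qk
  rw [← ht, e1, e2, e3, e4, i1, i2]
  set A := ‖s.2.1‖
  set B := ‖s.2.2.1‖
  set E := ‖s.2.2.2‖
  set U1 := ‖t.2.2.1‖
  set U2 := ‖t.2.2.2‖
  set U3 := ‖(stp t).2.2.2‖
  set U4 := ‖(stp (stp t)).2.2.2‖
  rw [div_mul_div_comm, div_pow, div_le_div_iff₀ (by positivity) (by positivity)]
  have p1 : A ^ Nat.fib (2 * k + 4) * A ^ Nat.fib (2 * k) = (A ^ Nat.fib (2 * k + 2)) ^ 3 := by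
    rw [← pow_add, ← pow_mul, f1, mul_comm]
  have p2 : E ^ Nat.fib (2 * k + 4 + 2) * E ^ Nat.fib (2 * k + 2) =
      (E ^ Nat.fib (2 * k + 2 + 2)) ^ 3 := by
    rw [← pow_add, ← pow_mul]
    congr 1
    have h1 : Nat.fib (2 * k + 4 + 2) = Nat.fib (2 * k + 2 + 4) := rfl
    rw [h1, f3, mul_comm]
  have p3 : B ^ Nat.fib (2 * k + 4 + 1) * B ^ Nat.fib (2 * k + 1) =
      (B ^ Nat.fib (2 * k + 2 + 1)) ^ 3 := by
    rw [← pow_add, ← pow_mul]
    congr 1
    have h1 : Nat.fib (2 * k + 4 + 1) = Nat.fib (2 * k + 1 + 4) := rfl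
    have h2 : Nat.fib (2 * k + 2 + 1) = Nat.fib (2 * k + 1 + 2) := rfl
    rw [h1, h2, f2, mul_comm]
  have p4 : Ns ^ (Nat.fib (2 * k + 4 + 1) - 1) * Ns ^ (Nat.fib (2 * k + 1) - 1) =
      (Ns ^ (Nat.fib (2 * k + 2 + 1) - 1)) ^ 3 * Ns := by
    rw [← pow_add, ← pow_mul, ← pow_succ]
    congr 1
    have h1 : Nat.fib (2 * k + 4 + 1) = Nat.fib (2 * k + 1 + 4) := rfl
    have h2 : Nat.fib (2 * k + 2 + 1) = Nat.fib (2 * k + 1 + 2) := rfl
    have h3 : Nat.fib (2 * k + 3) = Nat.fib (2 * k + 1 + 2) := rfl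
    have h4 : Nat.fib (2 * k + 5) = Nat.fib (2 * k + 1 + 4) := rfl
    rw [h1, h2]
    rw [h3] at f5
    rw [h4] at f6
    generalize Nat.fib (2 * k + 1) = u at *
    generalize Nat.fib (2 * k + 1 + 4) = v at *
    generalize Nat.fib (2 * k + 1 + 2) = w at *
    omega
  set a1 := A ^ Nat.fib (2 * k + 4)
  set a2 := A ^ Nat.fib (2 * k)
  set a3 := A ^ Nat.fib (2 * k + 2)
  set x1 := E ^ Nat.fib (2 * k + 4 + 2)
  set x2 := E ^ Nat.fib (2 * k + 2)
  set x3 := E ^ Nat.fib (2 * k + 2 + 2)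
  set y1 := B ^ Nat.fib (2 * k + 4 + 1)
  set y2 := B ^ Nat.fib (2 * k + 1)
  set y3 := B ^ Nat.fib (2 * k + 2 + 1)
  set n1 := Ns ^ (Nat.fib (2 * k + 4 + 1) - 1)
  set n2 := Ns ^ (Nat.fib (2 * k + 1) - 1)
  set n3 := Ns ^ (Nat.fib (2 * k + 2 + 1) - 1)
  have hnn : 0 ≤ U2 * U3 * a3 ^ 3 * (x3 ^ 3 * y3 ^ 3 * n3 ^ 3) := by positivity
  calc U3 * U4 * a1 * (U1 * U2 * a2) * (x3 * y3 * n3) ^ 3
      = (U4 * U1) * (U2 * U3 * (a1 * a2) * (x3 ^ 3 * y3 ^ 3 * n3 ^ 3)) := by ring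
    _ = (U4 * U1) * (U2 * U3 * a3 ^ 3 * (x3 ^ 3 * y3 ^ 3 * n3 ^ 3)) := by rw [p1]
    _ ≤ (Ns * (U2 ^ 2 * U3 ^ 2)) * (U2 * U3 * a3 ^ 3 * (x3 ^ 3 * y3 ^ 3 * n3 ^ 3)) :=
        mul_le_mul_of_nonneg_right hineq hnn
    _ = (U2 * U3 * a3) ^ 3 * ((x3 ^ 3) * (y3 ^ 3) * (n3 ^ 3 * Ns)) := by ring
    _ = (U2 * U3 * a3) ^ 3 * ((x1 * x2) * (y1 * y2) * (n1 * n2)) := by rw [p2, p3, p4]
    _ = (U2 * U3 * a3) ^ 3 * (x1 * y1 * n1 * (x2 * y2 * n2)) := by ring

lemma Qk_zero {Ns : ℝ} {s : St} (hs : s ∈ Con0) : Qk Ns s 0 = 1 := by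
  have hb : ‖s.2.2.1‖ ≠ 0 := (norm_pos_iff.2 hs.2.1).ne'
  have he : ‖s.2.2.2‖ ≠ 0 := (norm_pos_iff.2 hs.2.2.1).ne'
  simp [Qk]
  field_simp

lemma Qk_one {Ns : ℝ} (hN : 0 < Ns) {s : St} (hs : s ∈ Con0) (hc : 18 * ‖s.1‖ ≤ Ns) :
    Qk Ns s 1 ≤ 1 := by
  have ha : 0 < ‖s.2.1‖ := norm_pos_iff.2 hs.1
  have hb : 0 < ‖s.2.2.1‖ := norm_pos_iff.2 hs.2.1
  have he : 0 < ‖s.2.2.2‖ := norm_pos_iff.2 hs.2.2.1
  have h1 : ‖(stp s).2.2.2‖ * ‖s.2.1‖ ≤ Ns * (‖s.2.2.1‖ ^ 2 * ‖s.2.2.2‖ ^ 2) := by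
    refine (stp_norm_le hs.2.2.2).trans ?_
    calc 18 * (‖s.1‖ * ‖s.2.2.1‖ ^ 2 * ‖s.2.2.2‖ ^ 2)
        = (18 * ‖s.1‖) * (‖s.2.2.1‖ ^ 2 * ‖s.2.2.2‖ ^ 2) := by ring
      _ ≤ Ns * (‖s.2.2.1‖ ^ 2 * ‖s.2.2.2‖ ^ 2) := by gcongr
  have e : (stp s).2.2.1 = s.2.2.2 := rfl
  have f2 : Nat.fib (2 * 1) = 1 := by norm_num [Nat.fib_add_two]
  have f3 : Nat.fib (2 * 1 + 1) = 2 := by norm_num [Nat.fib_add_two]
  have f4 : Nat.fib (2 * 1 + 2) = 3 := by norm_num [Nat.fib_add_two]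
  unfold Qk
  rw [Function.iterate_one, e, f2, f3, f4, div_le_one (by positivity)]
  calc ‖s.2.2.2‖ * ‖(stp s).2.2.2‖ * ‖s.2.1‖ ^ 1
      = ‖s.2.2.2‖ * (‖(stp s).2.2.2‖ * ‖s.2.1‖) := by ring
    _ ≤ ‖s.2.2.2‖ * (Ns * (‖s.2.2.1‖ ^ 2 * ‖s.2.2.2‖ ^ 2)) := by gcongr
    _ = ‖s.2.2.2‖ ^ 3 * ‖s.2.2.1‖ ^ 2 * Ns ^ (2 - 1) := by norm_num; ring

lemma golden_sum : Real.goldenRatio ^ 2 + (Real.goldenRatio ^ 2)⁻¹ = 3 := by
  have h := Real.goldenRatio_sq
  have hp := Real.goldenRatio_pos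
  have h2 : Real.goldenRatio ^ 2 ≠ 0 := by positivity
  rw [← mul_right_inj' h2, mul_add, mul_inv_cancel₀ h2]
  linear_combination (Real.goldenRatio ^ 2 + Real.goldenRatio - 1) * h

lemma Qk_step {Ns : ℝ} (hN : 0 < Ns) {s : St} (hs : s ∈ Con0) (hc : 18 * ‖s.1‖ ≤ Ns) (k : ℕ) :
    Qk Ns s (k + 1) ≤ Qk Ns s k ^ (Real.goldenRatio ^ 2) := by
  have hg2 : 0 < Real.goldenRatio ^ 2 := pow_pos Real.goldenRatio_pos 2
  induction k with
  | zero =>
    rw [Qk_zero hs, Real.one_rpow]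
    exact Qk_one hN hs hc
  | succ k ih =>
    have h0 := Qk_nonneg hN s k
    have h1 := Qk_nonneg hN s (k + 1)
    have h2 := Qk_nonneg hN s (k + 2)
    rcases h0.eq_or_lt with hz | hz
    · have h3 := Qk_zero_prop hN hs hz.symm
      have h4 := Qk_zero_prop hN hs h3
      rw [h3, h4, Real.zero_rpow hg2.ne']
    · have hrec := Qk_rec hN hs hc k
      rcases h1.eq_or_lt with hz1 | hz1
      · rw [← hz1, Real.zero_rpow hg2.ne']
        rw [← hz1] at hrec
        have : Qk Ns s (k + 2) * Qk Ns s k ≤ 0 := by simpa using hrec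
        nlinarith
      · have h5 : Qk Ns s (k + 1) ^ ((Real.goldenRatio ^ 2)⁻¹) ≤ Qk Ns s k := by
          calc Qk Ns s (k + 1) ^ ((Real.goldenRatio ^ 2)⁻¹)
              ≤ (Qk Ns s k ^ (Real.goldenRatio ^ 2)) ^ ((Real.goldenRatio ^ 2)⁻¹) :=
                Real.rpow_le_rpow h1 ih (by positivity)
            _ = Qk Ns s k := by
                rw [← Real.rpow_mul h0, mul_inv_cancel₀ hg2.ne', Real.rpow_one]
        have h6 : Qk Ns s (k + 1) ^ (Real.goldenRatio ^ 2) *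
            Qk Ns s (k + 1) ^ ((Real.goldenRatio ^ 2)⁻¹) = Qk Ns s (k + 1) ^ 3 := by
          rw [← Real.rpow_add hz1, golden_sum]
          norm_num
        have h7 : 0 < Qk Ns s (k + 1) ^ ((Real.goldenRatio ^ 2)⁻¹) := Real.rpow_pos_of_pos hz1 _
        rw [← mul_le_mul_iff_left₀ h7, h6]
        refine le_trans ?_ hrec
        gcongr

noncomputable def cc (k : ℕ) : ℝ := Real.sqrt 5 / Real.goldenRatio ^ (2 * k)

lemma cc_pos (k : ℕ) : 0 < cc k :=
  div_pos (Real.sqrt_pos.2 (by norm_num)) (pow_pos Real.goldenRatio_pos _)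

noncomputable def Pk (Ns : ℝ) (s : St) (k : ℕ) : ℝ := Qk Ns s k ^ cc k

lemma Pk_nonneg {Ns : ℝ} (hN : 0 < Ns) (s : St) (k : ℕ) : 0 ≤ Pk Ns s k :=
  Real.rpow_nonneg (Qk_nonneg hN s k) _

lemma Pk_succ_le {Ns : ℝ} (hN : 0 < Ns) {s : St} (hs : s ∈ Con0) (hc : 18 * ‖s.1‖ ≤ Ns) (k : ℕ) :
    Pk Ns s (k + 1) ≤ Pk Ns s k := by
  unfold Pk
  have h1 : cc k = Real.goldenRatio ^ 2 * cc (k + 1) := by
    unfold cc
    have : Real.goldenRatio ^ (2 * (k + 1)) = Real.goldenRatio ^ (2 * k) * Real.goldenRatio ^ 2 := by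
      rw [← pow_add]; ring_nf
    rw [this]
    have := Real.goldenRatio_pos.ne'
    field_simp
  rw [h1, Real.rpow_mul (Qk_nonneg hN s k)]
  exact Real.rpow_le_rpow (Qk_nonneg hN s _) (Qk_step hN hs hc k) (cc_pos _).le

lemma Pk_le_one {Ns : ℝ} (hN : 0 < Ns) {s : St} (hs : s ∈ Con0) (hc : 18 * ‖s.1‖ ≤ Ns) (k : ℕ) :
    Pk Ns s k ≤ 1 := by
  induction k with
  | zero => rw [Pk, Qk_zero hs, Real.one_rpow]
  | succ k ih => exact (Pk_succ_le hN hs hc k).trans ih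

lemma Pk_antitone {Ns : ℝ} (hN : 0 < Ns) {s : St} (hs : s ∈ Con0) (hc : 18 * ‖s.1‖ ≤ Ns) :
    Antitone (Pk Ns s) := antitone_nat_of_succ_le (Pk_succ_le hN hs hc)

lemma fib_le_pow (n : ℕ) : (Nat.fib (n + 1) : ℝ) ≤ Real.goldenRatio ^ n := by
  induction n using Nat.twoStepInduction with
  | zero => simp
  | one => simpa using Real.one_lt_goldenRatio.le
  | more n ih1 ih2 =>
    have h1 : Nat.fib (n + 2 + 1) = Nat.fib (n + 1) + Nat.fib (n + 2) := Nat.fib_add_two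
    rw [h1]
    push_cast
    have h2 : Real.goldenRatio ^ (n + 2) = Real.goldenRatio ^ n + Real.goldenRatio ^ (n + 1) := by
      rw [pow_add, Real.goldenRatio_sq]; ring
    rw [h2]
    exact add_le_add ih1 ih2

/-- lower bound at a point whose orbit has constant norms -/
lemma Pk_lower {Ns : ℝ} (hN : 1 ≤ Ns) {s : St} (hs : ∀ k, ‖(stp^[k] s).2.1‖ = 1) (k : ℕ) :
    Ns ^ (-Real.sqrt 5) ≤ Pk Ns s k := by
  have h0 : ‖s.2.1‖ = 1 := hs 0
  have h1 : ‖s.2.2.1‖ = 1 := hs 1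
  have h2 : ‖s.2.2.2‖ = 1 := hs 2
  have h3 : ‖(stp^[k] s).2.2.1‖ = 1 := by
    have := hs (k + 1)
    rw [Function.iterate_succ_apply'] at this
    exact this
  have h4 : ‖(stp^[k] s).2.2.2‖ = 1 := by
    have := hs (k + 2)
    rw [Function.iterate_succ_apply', Function.iterate_succ_apply'] at this
    exact this
  have hNs : 0 < Ns := by linarith
  have hQ : Qk Ns s k = (Ns ^ (Nat.fib (2 * k + 1) - 1))⁻¹ := by
    unfold Qk
    rw [h0, h1, h2, h3, h4]
    simp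
  rw [Pk, hQ, Real.inv_rpow (by positivity), ← Real.rpow_natCast, ← Real.rpow_mul hNs.le,
    ← Real.rpow_neg hNs.le]
  refine Real.rpow_le_rpow_of_exponent_le hN ?_
  rw [neg_le_neg_iff]
  have h5 : ((Nat.fib (2 * k + 1) - 1 : ℕ) : ℝ) ≤ Real.goldenRatio ^ (2 * k) := by
    refine le_trans ?_ (fib_le_pow (2 * k))
    exact_mod_cast Nat.sub_le _ _
  have hg : 0 < Real.goldenRatio ^ (2 * k) := pow_pos Real.goldenRatio_pos _
  calc ((Nat.fib (2 * k + 1) - 1 : ℕ) : ℝ) * cc k ≤ Real.goldenRatio ^ (2 * k) * cc k := by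
        have := (cc_pos k).le
        gcongr
    _ = Real.sqrt 5 := by unfold cc; field_simp

/-! limits of the exponents -/

lemma cc_fib (k m : ℕ) : cc k * (Nat.fib (2 * k + m) : ℝ) =
    Real.goldenRatio ^ m - Real.goldenConj ^ m * (Real.goldenConj / Real.goldenRatio) ^ (2 * k) := by
  have key : ∀ a b d e r : ℝ, r ≠ 0 → a ≠ 0 → r / a * ((a * d - b * e) / r) = d - e * (b / a) := by
    intro a b d e r hr ha
    field_simp
  have h5 : Real.sqrt 5 ≠ 0 := (Real.sqrt_pos.2 (by norm_num)).ne'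
  have hg : Real.goldenRatio ^ (2 * k) ≠ 0 := (pow_pos Real.goldenRatio_pos _).ne'
  have e : (Real.goldenConj / Real.goldenRatio) ^ (2 * k) =
    Real.goldenConj ^ (2 * k) / Real.goldenRatio ^ (2 * k) := div_pow _ _ _
  rw [Real.coe_fib_eq, cc, e, pow_add, pow_add]
  exact key _ _ _ _ _ h5 hg

lemma tendsto_ratio : Tendsto (fun k : ℕ => (Real.goldenConj / Real.goldenRatio) ^ (2 * k)) atTop
    (𝓝 0) := by
  have h1 : |Real.goldenConj / Real.goldenRatio| < 1 := by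
    rw [abs_div, abs_of_pos Real.goldenRatio_pos, div_lt_one Real.goldenRatio_pos, abs_lt]
    have h2 := Real.neg_one_lt_goldenConj
    have h3 := Real.goldenConj_neg
    have h4 := Real.one_lt_goldenRatio
    constructor <;> linarith
  exact (tendsto_pow_atTop_nhds_zero_of_abs_lt_one h1).comp
    (tendsto_id.const_mul_atTop' (by norm_num : 0 < 2))

lemma tendsto_cc_fib (m : ℕ) :
    Tendsto (fun k : ℕ => cc k * (Nat.fib (2 * k + m) : ℝ)) atTop (𝓝 (Real.goldenRatio ^ m)) := by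
  simp only [cc_fib]
  have := (tendsto_ratio.const_mul (Real.goldenConj ^ m)).const_sub (Real.goldenRatio ^ m)
  simpa using this

lemma tendsto_cc : Tendsto cc atTop (𝓝 0) := by
  have h1 : Tendsto (fun k : ℕ => Real.goldenRatio ^ (2 * k)) atTop atTop :=
    (tendsto_pow_atTop_atTop_of_one_lt Real.one_lt_goldenRatio).comp
      (tendsto_id.const_mul_atTop' (by norm_num : 0 < 2))
  exact h1.const_div_atTop (Real.sqrt 5)

lemma tendsto_cc_fib' :
    Tendsto (fun k : ℕ => cc k * ((Nat.fib (2 * k + 1) - 1 : ℕ) : ℝ)) atTop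
      (𝓝 Real.goldenRatio) := by
  have h1 := (tendsto_cc_fib 1).sub tendsto_cc
  rw [pow_one, sub_zero] at h1
  refine h1.congr fun k => ?_
  rw [Nat.cast_sub (Nat.fib_pos.2 (by omega) : 1 ≤ Nat.fib (2 * k + 1))]
  push_cast
  ring

/-- decreasing limits with converging potentials -/
lemma subMean_limit {a : ℕ → ℂ → ℝ} {w : ℕ → ℂ → ℝ} {w' : ℂ → ℝ}
    (ha0 : ∀ k ζ, ζ ∈ closedBall (0 : ℂ) 1 → 0 ≤ a k ζ)
    (hac : ∀ k, ContinuousOn (a k) (closedBall 0 1))
    (hanti : ∀ ζ ∈ closedBall (0 : ℂ) 1, Antitone (fun k => a k ζ))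
    (hw : TendstoUniformlyOn w w' atTop (closedBall 0 1))
    (hwc : ContinuousOn w' (closedBall 0 1))
    (hs : ∀ k, SubMean (fun ζ => elog (a k ζ) + ((w k ζ : ℝ) : EReal)) 0 1) :
    SubMean (fun ζ => elog (⨅ k, a k ζ) + ((w' ζ : ℝ) : EReal)) 0 1 := by
  intro g hg hle
  have hsub : sphere (0 : ℂ) 1 ⊆ closedBall 0 1 := sphere_subset_closedBall
  have hbdd : ∀ ζ ∈ closedBall (0 : ℂ) 1, BddBelow (Set.range fun k => a k ζ) := fun ζ hζ =>
    ⟨0, by rintro _ ⟨k, rfl⟩; exact ha0 k ζ hζ⟩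
  have key : ∀ ε : ℝ, 0 < ε → elog (⨅ k, a k 0) + ((w' 0 : ℝ) : EReal) ≤
      ((Real.circleAverage g 0 1 + ε : ℝ) : EReal) := by
    intro ε' hε'
    set ε := ε' / 3 with hε
    have hε0 : 0 < ε := by rw [hε]; linarith
    -- uniformly below on the circle for large k
    have h1 : ∀ ζ ∈ sphere (0 : ℂ) 1, ∃ k, a k ζ < Real.exp (g ζ - w' ζ + ε) := by
      intro ζ hζ
      have h2 : elog (⨅ k, a k ζ) + ((w' ζ : ℝ) : EReal) ≤ (g ζ : EReal) :=
        hle ζ (by simpa using hζ)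
      have h3 : ⨅ k, a k ζ < Real.exp (g ζ - w' ζ + ε) := by
        rcases (Real.iInf_nonneg fun k => ha0 k ζ (hsub hζ)).eq_or_lt with h4 | h4
        · rw [← h4]; exact Real.exp_pos _
        · rw [elog_of_pos h4, ← EReal.coe_add, EReal.coe_le_coe_iff] at h2
          rw [← Real.log_lt_iff_lt_exp h4]
          linarith
      exact exists_lt_of_ciInf_lt h3
    obtain ⟨k0, hk0⟩ : ∃ k0, ∀ k ≥ k0, ∀ ζ ∈ sphere (0 : ℂ) 1, a k ζ < Real.exp (g ζ - w' ζ + ε) := by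
      have hcomp : IsCompact (sphere (0 : ℂ) 1) := isCompact_sphere 0 1
      have h5 : ∀ ζ ∈ sphere (0 : ℂ) 1, ∃ t ∈ 𝓝[sphere (0 : ℂ) 1] ζ, ∃ k0, ∀ k ≥ k0, ∀ η ∈ t,
          a k η < Real.exp (g η - w' η + ε) := by
        intro ζ hζ
        obtain ⟨k, hk⟩ := h1 ζ hζ
        have hc1 : ContinuousWithinAt (a k) (sphere 0 1) ζ := ((hac k).mono hsub) ζ hζ
        have hc2 : ContinuousWithinAt (fun η => Real.exp (g η - w' η + ε)) (sphere 0 1) ζ :=
          (((hg.continuousWithinAt).sub ((hwc.mono hsub) ζ hζ)).add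
            continuousWithinAt_const).rexp
        have h6 := hc1.tendsto.eventually_lt hc2.tendsto hk
        have h7 : ∀ᶠ η in 𝓝[sphere (0 : ℂ) 1] ζ, η ∈ sphere (0 : ℂ) 1 := eventually_mem_nhdsWithin
        refine ⟨_, h6.and h7, k, fun k' hk' η hη => ?_⟩
        exact lt_of_le_of_lt (hanti η (hsub hη.2) hk') hη.1
      refine hcomp.induction_on (p := fun t => ∃ k0, ∀ k ≥ k0, ∀ ζ ∈ t,
        a k ζ < Real.exp (g ζ - w' ζ + ε)) ⟨0, by simp⟩ ?_ ?_ h5
      · rintro s t hst ⟨k0, hk0⟩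
        exact ⟨k0, fun k hk ζ hζ => hk0 k hk ζ (hst hζ)⟩
      · rintro s t ⟨k0, hk0⟩ ⟨k1, hk1⟩
        refine ⟨max k0 k1, fun k hk ζ hζ => ?_⟩
        rcases hζ with hζ | hζ
        · exact hk0 k (le_trans (le_max_left _ _) hk) ζ hζ
        · exact hk1 k (le_trans (le_max_right _ _) hk) ζ hζ
    have hwu := (Metric.tendstoUniformlyOn_iff.1 hw ε hε0).and (eventually_ge_atTop k0)
    obtain ⟨k, hk1, hk2⟩ := hwu.exists
    have h8 := hs k (fun ζ => g ζ + 2 * ε) (by fun_prop) (fun ζ hζ => by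
      have hζ' : ζ ∈ sphere (0 : ℂ) 1 := by simpa using hζ
      have h9 := hk0 k hk2 ζ hζ'
      have h10 := hk1 ζ (hsub hζ')
      rw [Real.dist_eq] at h10
      have h11 := (abs_lt.1 h10).1
      have h12 : elog (a k ζ) ≤ ((g ζ - w' ζ + ε : ℝ) : EReal) := elog_le_coe h9.le
      calc elog (a k ζ) + ((w k ζ : ℝ) : EReal) ≤ ((g ζ - w' ζ + ε : ℝ) : EReal) +
            ((w k ζ : ℝ) : EReal) := by gcongr
        _ = ((g ζ - w' ζ + ε + w k ζ : ℝ) : EReal) := by rw [← EReal.coe_add]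
        _ ≤ ((g ζ + 2 * ε : ℝ) : EReal) := by
            rw [EReal.coe_le_coe_iff]; linarith)
    rw [Real.circleAverage_fun_add hg.continuousOn.circleIntegrable'
      continuous_const.continuousOn.circleIntegrable', Real.circleAverage_const] at h8
    have h0 : (0 : ℂ) ∈ closedBall (0 : ℂ) 1 := by simp
    have h13 := hk1 0 h0
    rw [Real.dist_eq] at h13
    have h14 := (abs_lt.1 h13).2
    have h15 : elog (⨅ k, a k 0) ≤ elog (a k 0) := elog_mono (ciInf_le (hbdd 0 h0) k)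
    calc elog (⨅ k, a k 0) + ((w' 0 : ℝ) : EReal)
        ≤ elog (a k 0) + ((w k 0 + ε : ℝ) : EReal) := by
          refine add_le_add h15 ?_
          rw [EReal.coe_le_coe_iff]; linarith
      _ = (elog (a k 0) + ((w k 0 : ℝ) : EReal)) + ((ε : ℝ) : EReal) := by
          rw [EReal.coe_add, add_assoc]
      _ ≤ ((Real.circleAverage g 0 1 + 2 * ε : ℝ) : EReal) + ((ε : ℝ) : EReal) :=
          add_le_add h8 le_rfl
      _ = ((Real.circleAverage g 0 1 + ε' : ℝ) : EReal) := by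
          rw [← EReal.coe_add]; congr 1; rw [hε]; ring
  refine EReal.le_of_forall_lt_iff_le.1 fun z hz => ?_
  have hz' : Real.circleAverage g 0 1 < z := by exact_mod_cast hz
  have := key (z - Real.circleAverage g 0 1) (by linarith)
  simpa using this

/-! ### the special form and its orbits -/

/-- coefficients of `(x0²y1² - 5/2 x0x1y0y1 + x1²y0²)(z0²+z1²) + (x0²y0² - 2 x0x1y0y1) z0z1`,
where `a = z`, `b = y`, `e = x`. -/
noncomputable def cst : C3 := fun i j k =>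
  if i = 1 then (if j = 0 ∧ k = 0 then 1 else if j = 1 ∧ k = 1 then -2 else 0)
  else (if j = 2 ∧ k = 0 then 1 else if j = 0 ∧ k = 2 then 1 else if j = 1 ∧ k = 1 then -(5 / 2) else 0)

/-- the two coordinate vectors -/
def ZZ (z : Bool) : V2 := if z then ![0, 1] else ![1, 0]

/-- special states -/
noncomputable def sA (z : Bool) (α β γ t : ℂ) : St :=
  (cst, α • ZZ z, β • ![1, t / 2], γ • ![1, t])

lemma cst_ne : cst ≠ 0 := by
  intro h
  have := congrFun (congrFun (congrFun h 1) 0) 0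
  simp [cst] at this

lemma form1_cst (b e : V2) : form1 cst b e =
    ![mon 2 b * mon 0 e + mon 0 b * mon 2 e - 5 / 2 * (mon 1 b * mon 1 e),
      mon 0 b * mon 0 e - 2 * (mon 1 b * mon 1 e),
      mon 2 b * mon 0 e + mon 0 b * mon 2 e - 5 / 2 * (mon 1 b * mon 1 e)] := by
  funext i
  fin_cases i
  · simp [form1, cst, Fin.sum_univ_three]; ring
  · simp [form1, cst, Fin.sum_univ_three]; ring
  · simp [form1, cst, Fin.sum_univ_three]; ring

lemma form1_sA (z : Bool) (α β γ t : ℂ) :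
    form1 (sA z α β γ t).1 (sA z α β γ t).2.2.1 (sA z α β γ t).2.2.2 =
      ![0, β ^ 2 * γ ^ 2 * (1 - t ^ 2), 0] := by
  show form1 cst _ _ = _
  rw [form1_cst]
  funext i
  fin_cases i <;> simp [sA, mon] <;> ring

lemma sA_mem {z : Bool} {α β γ t : ℂ} (hα : α ≠ 0) (hβ : β ≠ 0) (hγ : γ ≠ 0) :
    sA z α β γ t ∈ Con := by
  refine ⟨cst_ne, ?_, ?_, ?_, ?_⟩
  · intro h
    have h0 := congrFun h 0
    have h1 := congrFun h 1
    cases z <;> simp [sA, ZZ, hα] at h0 h1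
  · intro h
    have h0 := congrFun h 0
    simp [sA, hβ] at h0
  · intro h
    have h0 := congrFun h 0
    simp [sA, hγ] at h0
  · show qf (form1 _ _ _) _ = 0
    rw [form1_sA, qf_eq]
    cases z <;> simp [sA, ZZ]

lemma stp_sA {z : Bool} {α β γ t : ℂ} (hα : α ≠ 0) :
    stp (sA z α β γ t) = (rot cst, β • ![1, t / 2], γ • ![1, t],
      (-(β ^ 2 * γ ^ 2 * (1 - t ^ 2)) / α) • ZZ (!z)) := by
  unfold stp
  rw [form1_sA]
  refine Prod.ext rfl (Prod.ext rfl (Prod.ext rfl ?_))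
  show flip _ (α • ZZ z) = _
  cases z
  · rw [flip_of_ne0 (by simp [ZZ, hα])]
    funext i
    fin_cases i
    · simp [ZZ]
    · simp [ZZ]; field_simp
  · unfold flip
    rw [if_pos (by simp [ZZ])]
    funext i
    fin_cases i
    · simp [ZZ]; field_simp
    · simp [ZZ]

lemma stp_sB {z : Bool} {α β γ t : ℂ} (hβ : β ≠ 0) :
    stp (rot cst, β • ![1, t / 2], γ • ![1, t], α • ZZ z) =
      (rot (rot cst), γ • ![1, t], α • ZZ z, (α ^ 2 * γ ^ 2 / β) • ![1, 2 * t]) := by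
  have hq : form1 (rot cst) (γ • ![1, t]) (α • ZZ z) =
      ![α ^ 2 * γ ^ 2 * t ^ 2, -(5 / 2) * (α ^ 2 * γ ^ 2 * t), α ^ 2 * γ ^ 2] := by
    funext i
    cases z <;> fin_cases i <;> simp [form1, rot, cst, Fin.sum_univ_three, mon, ZZ] <;> ring
  unfold stp
  refine Prod.ext rfl (Prod.ext rfl (Prod.ext rfl ?_))
  show flip (form1 (rot cst) (γ • ![1, t]) (α • ZZ z)) (β • ![1, t / 2]) = _
  rw [hq, flip_of_ne0 (by simp [hβ])]
  funext i
  fin_cases i
  · simp
  · simp; field_simp; ring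

lemma stp_sC {z : Bool} {α β γ t : ℂ} (hγ : γ ≠ 0) :
    stp (rot (rot cst), γ • ![1, t], α • ZZ z, β • ![1, 2 * t]) =
      (cst, α • ZZ z, β • ![1, 2 * t], (α ^ 2 * β ^ 2 / γ) • ![1, 4 * t]) := by
  have hq : form1 (rot (rot cst)) (α • ZZ z) (β • ![1, 2 * t]) =
      ![α ^ 2 * β ^ 2 * (4 * t ^ 2), -(α ^ 2 * β ^ 2 * (5 * t)), α ^ 2 * β ^ 2] := by
    funext i
    cases z <;> fin_cases i <;> simp [form1, rot, cst, Fin.sum_univ_three, mon, ZZ] <;> ring
  unfold stp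
  refine Prod.ext rfl (Prod.ext rfl (Prod.ext rfl ?_))
  show flip (form1 (rot (rot cst)) (α • ZZ z) (β • ![1, 2 * t])) (γ • ![1, t]) = _
  rw [hq, flip_of_ne0 (by simp [hγ])]
  funext i
  fin_cases i
  · simp
  · simp; field_simp; ring

lemma stp3_sA {z : Bool} {α β γ t : ℂ} (hα : α ≠ 0) (hβ : β ≠ 0) (hγ : γ ≠ 0) :
    stp^[3] (sA z α β γ t) =
      (let α' := -(β ^ 2 * γ ^ 2 * (1 - t ^ 2)) / α
       let β' := α' ^ 2 * γ ^ 2 / β
       sA (!z) α' β' (α' ^ 2 * β' ^ 2 / γ) (4 * t)) := by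
  simp only [Function.iterate_succ_apply', Function.iterate_zero, id]
  rw [stp_sA hα, stp_sB hβ, stp_sC hγ]
  unfold sA
  refine Prod.ext rfl (Prod.ext rfl (Prod.ext ?_ rfl))
  show _ • ![(1 : ℂ), 2 * t] = _ • ![(1 : ℂ), 4 * t / 2]
  rw [show 4 * t / 2 = 2 * t by ring]

/-- orbits of special states with slope `t`, `t² ≠ 1`, stay in the cone for three steps -/
lemma three_steps {z : Bool} {α β γ t : ℂ} (hα : α ≠ 0) (hβ : β ≠ 0) (hγ : γ ≠ 0)
    (ht : t ^ 2 ≠ 1) : ∃ (z' : Bool) (α' β' γ' : ℂ), α' ≠ 0 ∧ β' ≠ 0 ∧ γ' ≠ 0 ∧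
      stp^[3] (sA z α β γ t) = sA z' α' β' γ' (4 * t) ∧
      ∀ i ≤ 3, stp^[i] (sA z α β γ t) ∈ Con := by
  have ht' : 1 - t ^ 2 ≠ 0 := by
    intro h; apply ht; linear_combination -h
  set α' := -(β ^ 2 * γ ^ 2 * (1 - t ^ 2)) / α with hα'
  have hα'0 : α' ≠ 0 := by
    rw [hα']
    exact div_ne_zero (neg_ne_zero.2 (mul_ne_zero (mul_ne_zero (pow_ne_zero 2 hβ) (pow_ne_zero 2 hγ)) ht')) hα
  set β' := α' ^ 2 * γ ^ 2 / β with hβ'
  have hβ'0 : β' ≠ 0 := by rw [hβ']; positivity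
  have hγ'0 : α' ^ 2 * β' ^ 2 / γ ≠ 0 := by positivity
  refine ⟨!z, α', β', α' ^ 2 * β' ^ 2 / γ, hα'0, hβ'0, hγ'0, stp3_sA hα hβ hγ, ?_⟩
  have h0 : sA z α β γ t ∈ Con := sA_mem hα hβ hγ
  have hne : ∀ (μ : ℂ) (z : Bool), μ ≠ 0 → μ • ZZ z ≠ 0 := by
    intro μ z hμ h
    have h0 := congrFun h 0
    have h1 := congrFun h 1
    cases z <;> simp [ZZ, hμ] at h0 h1
  have hne' : ∀ (μ s : ℂ), μ ≠ 0 → μ • (![1, s] : V2) ≠ 0 := by
    intro μ s hμ h
    have h0 := congrFun h 0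
    simp [hμ] at h0
  have e1 : stp^[1] (sA z α β γ t) = stp (sA z α β γ t) := rfl
  have h1 : stp (sA z α β γ t) ∈ Con := by
    refine stp_mem h0 ?_
    rw [stp_sA hα]
    exact hne _ _ hα'0
  have h2 : stp (stp (sA z α β γ t)) ∈ Con := by
    refine stp_mem h1 ?_
    rw [stp_sA hα, stp_sB hβ]
    exact hne' _ _ hβ'0
  have h3 : stp (stp (stp (sA z α β γ t))) ∈ Con := by
    refine stp_mem h2 ?_
    rw [stp_sA hα, stp_sB hβ, stp_sC hγ]
    exact hne' _ _ hγ'0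
  intro i hi
  interval_cases i
  · exact h0
  · exact h1
  · exact h2
  · exact h3

/-- the orbit of the special state with slope `4^{-n}` reaches a vanishing form. -/
lemma orbit_sA (n : ℕ) : ∀ {z : Bool} {α β γ : ℂ}, α ≠ 0 → β ≠ 0 → γ ≠ 0 →
    (∀ i ≤ 3 * n, stp^[i] (sA z α β γ ((1 / 4) ^ n)) ∈ Con) ∧
    form1 (stp^[3 * n] (sA z α β γ ((1 / 4) ^ n))).1
      (stp^[3 * n] (sA z α β γ ((1 / 4) ^ n))).2.2.1
      (stp^[3 * n] (sA z α β γ ((1 / 4) ^ n))).2.2.2 = 0 := by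
  induction n with
  | zero =>
    intro z α β γ hα hβ hγ
    refine ⟨?_, ?_⟩
    · intro i hi
      have : i = 0 := by omega
      subst this
      exact sA_mem hα hβ hγ
    · show form1 (sA z α β γ ((1 / 4) ^ 0)).1 (sA z α β γ ((1 / 4) ^ 0)).2.2.1
        (sA z α β γ ((1 / 4) ^ 0)).2.2.2 = 0
      rw [form1_sA]
      funext i
      fin_cases i <;> simp
  | succ n ih =>
    intro z α β γ hα hβ hγ
    have ht : (((1 / 4 : ℂ)) ^ (n + 1)) ^ 2 ≠ 1 := by
      intro h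
      have h1 : ‖(((1 / 4 : ℂ)) ^ (n + 1)) ^ 2‖ = 1 := by rw [h, norm_one]
      rw [norm_pow, norm_pow, ← pow_mul] at h1
      have h2 : ‖(1 / 4 : ℂ)‖ = 1 / 4 := by norm_num
      rw [h2] at h1
      have h3 : ((1 : ℝ) / 4) ^ ((n + 1) * 2) < 1 := pow_lt_one₀ (by norm_num) (by norm_num) (by omega)
      linarith
    obtain ⟨z', α', β', γ', hα', hβ', hγ', he, hm⟩ := three_steps (z := z) hα hβ hγ ht
    have h4 : (4 : ℂ) * (1 / 4) ^ (n + 1) = (1 / 4) ^ n := by rw [pow_succ]; ring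
    rw [h4] at he
    obtain ⟨i1, i2⟩ := ih (z := z') hα' hβ' hγ'
    have hsplit : ∀ i, stp^[i + 3] (sA z α β γ ((1 / 4) ^ (n + 1))) =
        stp^[i] (sA z' α' β' γ' ((1 / 4) ^ n)) := by
      intro i
      rw [Function.iterate_add_apply, he]
    refine ⟨?_, ?_⟩
    · intro i hi
      rcases le_or_gt i 3 with h | h
      · exact hm i h
      · obtain ⟨m, rfl⟩ : ∃ m, i = m + 3 := ⟨i - 3, by omega⟩
        rw [hsplit]
        exact i1 m (by omega)
    · rw [show 3 * (n + 1) = 3 * n + 3 by ring, hsplit]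
      exact i2

/-- norms along the orbit of the limit point -/
lemma norm_orbit (k : ℕ) : ∀ {z : Bool} {α β γ : ℂ}, ‖α‖ = 1 → ‖β‖ = 1 → ‖γ‖ = 1 →
    ‖(stp^[k] (sA z α β γ 0)).2.1‖ = 1 := by
  have hZ : ∀ z : Bool, ‖ZZ z‖ = 1 := by
    intro z
    refine le_antisymm ((pi_norm_le_iff_of_nonneg zero_le_one).2 fun i => ?_) ?_
    · cases z <;> fin_cases i <;> simp [ZZ]
    · cases z
      · simpa [ZZ] using norm_le_pi_norm (ZZ false) 0
      · simpa [ZZ] using norm_le_pi_norm (ZZ true) 1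
  have hv : ‖(![1, 0] : V2)‖ = 1 := by simpa [ZZ] using hZ false
  induction k using Nat.strong_induction_on with
  | _ k ih =>
    intro z α β γ hα hβ hγ
    have hα0 : α ≠ 0 := norm_pos_iff.1 (by rw [hα]; exact one_pos)
    have hβ0 : β ≠ 0 := norm_pos_iff.1 (by rw [hβ]; exact one_pos)
    have hγ0 : γ ≠ 0 := norm_pos_iff.1 (by rw [hγ]; exact one_pos)
    rcases lt_or_ge k 3 with hk | hk
    · interval_cases k
      · show ‖α • ZZ z‖ = 1
        rw [norm_smul, hα, hZ, one_mul]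
      · show ‖β • (![1, 0 / 2] : V2)‖ = 1
        rw [norm_smul, hβ, zero_div, hv, one_mul]
      · show ‖γ • (![1, 0] : V2)‖ = 1
        rw [norm_smul, hγ, hv, one_mul]
    · obtain ⟨m, rfl⟩ : ∃ m, k = m + 3 := ⟨k - 3, by omega⟩
      rw [Function.iterate_add_apply, stp3_sA hα0 hβ0 hγ0]
      simp only [mul_zero]
      have h1 : ‖-(β ^ 2 * γ ^ 2 * (1 - 0 ^ 2)) / α‖ = 1 := by
        simp [hα, hβ, hγ]
      refine ih m (by omega) h1 ?_ ?_
      · rw [norm_div, norm_mul, norm_pow, h1, norm_pow, hγ, hβ]; norm_num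
      · rw [norm_div, norm_mul, norm_pow, h1, norm_pow, norm_div, norm_mul, norm_pow, h1,
          norm_pow, hγ, hβ]; norm_num

/-! ### Laplacians of logarithms -/

lemma hasDerivAt_normSq_comp {F : ℝ → ℂ} {F' : ℂ} {s : ℝ} (h : HasDerivAt F F' s) :
    HasDerivAt (fun s => Complex.normSq (F s)) (2 * (conj (F s) * F').re) s := by
  have h1 : HasDerivAt (fun s => (F s).re) F'.re s :=
    Complex.reCLM.hasFDerivAt.comp_hasDerivAt s h
  have h2 : HasDerivAt (fun s => (F s).im) F'.im s :=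
    Complex.imCLM.hasFDerivAt.comp_hasDerivAt s h
  have h3 := (h1.mul h1).add (h2.mul h2)
  have h4 : (fun s => Complex.normSq (F s)) = fun s => (F s).re * (F s).re + (F s).im * (F s).im := by
    funext s; rw [Complex.normSq_apply]
  rw [h4]
  refine HasDerivAt.congr_deriv h3 ?_
  simp [Complex.mul_re]
  ring

/-- second derivative of `log ∑ |F_j|²` along the real line in direction `d`. -/
lemma iteratedDeriv_log_sum {J : Type} [Fintype J] (F : J → ℂ → ℂ) {r : ℝ} (hr : 0 < r)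
    (hF : ∀ j, DifferentiableOn ℂ (F j) (ball 0 r)) (d : ℂ) (hd : ‖d‖ = 1)
    (hN : 0 < ∑ j, Complex.normSq (F j 0)) :
    iteratedDeriv 2 (fun s : ℝ => Real.log (∑ j, Complex.normSq (F j ((s : ℂ) * d)))) 0 =
      ((∑ j, (2 * Complex.normSq (deriv (F j) 0) +
            2 * (conj (F j 0) * (deriv (deriv (F j)) 0 * d ^ 2)).re)) *
          (∑ j, Complex.normSq (F j 0)) -
        (∑ j, 2 * (conj (F j 0) * (deriv (F j) 0 * d)).re) ^ 2) /
      (∑ j, Complex.normSq (F j 0)) ^ 2 := by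
  have hopen : IsOpen (ball (0 : ℂ) r) := isOpen_ball
  have hline : ∀ (g : ℂ → ℂ), DifferentiableOn ℂ g (ball 0 r) → ∀ s : ℝ, |s| < r →
      HasDerivAt (fun s : ℝ => g ((s : ℂ) * d)) (deriv g ((s : ℂ) * d) * d) s := by
    intro g hg s hs
    have hmem : (s : ℂ) * d ∈ ball (0 : ℂ) r := by
      simp [hd, hs]
    have h1 : HasDerivAt g (deriv g ((s : ℂ) * d)) ((s : ℂ) * d) :=
      (hg.differentiableAt (hopen.mem_nhds hmem)).hasDerivAt
    have h2 : HasDerivAt (fun s : ℝ => (s : ℂ) * d) d s := by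
      simpa using (Complex.ofRealCLM.hasDerivAt (x := s)).mul_const d
    exact h1.comp s h2
  have hdF : ∀ j, DifferentiableOn ℂ (deriv (F j)) (ball 0 r) := fun j => (hF j).deriv hopen
  set N : ℝ → ℝ := fun s => ∑ j, Complex.normSq (F j ((s : ℂ) * d)) with hNdef
  set N1 : ℝ → ℝ := fun s => ∑ j, 2 * (conj (F j ((s : ℂ) * d)) * (deriv (F j) ((s : ℂ) * d) * d)).re
    with hN1def
  have hN0 : N 0 = ∑ j, Complex.normSq (F j 0) := by simp [hNdef]
  have hN10 : N1 0 = ∑ j, 2 * (conj (F j 0) * (deriv (F j) 0 * d)).re := by simp [hN1def]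
  have hd1 : ∀ s : ℝ, |s| < r → HasDerivAt N (N1 s) s := by
    intro s hs
    exact HasDerivAt.fun_sum fun j _ => hasDerivAt_normSq_comp (hline (F j) (hF j) s hs)
  have hd2 : HasDerivAt N1 (∑ j, (2 * Complex.normSq (deriv (F j) 0) +
            2 * (conj (F j 0) * (deriv (deriv (F j)) 0 * d ^ 2)).re)) 0 := by
    refine HasDerivAt.fun_sum fun j _ => ?_
    have h1 := hline (F j) (hF j) 0 (by simpa using hr)
    have h2 := (hline (deriv (F j)) (hdF j) 0 (by simpa using hr)).mul_const d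
    have h3 : HasDerivAt (fun s : ℝ => conj (F j ((s : ℂ) * d)))
        (conj (deriv (F j) ((0 : ℝ) * d) * d)) 0 :=
      Complex.conjCLE.hasFDerivAt.comp_hasDerivAt (0 : ℝ) h1
    have h4 := h3.mul h2
    have h5 : HasDerivAt (fun s : ℝ => (conj (F j ((s : ℂ) * d)) *
        (deriv (F j) ((s : ℂ) * d) * d)).re) _ 0 :=
      Complex.reCLM.hasFDerivAt.comp_hasDerivAt (0 : ℝ) h4
    refine (h5.const_mul 2).congr_deriv ?_
    have h6 : conj (deriv (F j) 0 * d) * (deriv (F j) 0 * d) = (Complex.normSq (deriv (F j) 0) : ℂ) := by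
      rw [mul_comm, Complex.mul_conj, map_mul, Complex.normSq_eq_norm_sq d, hd]
      simp
    simp only [Complex.ofReal_zero, zero_mul, Complex.reCLM_apply, Complex.add_re, mul_add]
    rw [h6, Complex.ofReal_re]
    ring_nf
  have hNpos : ∀ᶠ s in 𝓝 (0 : ℝ), 0 < N s := by
    have : ContinuousAt N 0 := (hd1 0 (by simpa using hr)).continuousAt
    exact this.eventually (lt_mem_nhds (by rw [hN0]; exact hN))
  have hsmall : ∀ᶠ s in 𝓝 (0 : ℝ), |s| < r := by
    have : ContinuousAt (fun s : ℝ => |s|) 0 := continuous_abs.continuousAt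
    exact this.eventually (gt_mem_nhds (by simpa using hr))
  rw [iteratedDeriv_succ, iteratedDeriv_one]
  have heq : deriv (fun s : ℝ => Real.log (N s)) =ᶠ[𝓝 0] fun s => N1 s / N s := by
    filter_upwards [hNpos, hsmall] with s hs1 hs2
    exact ((hd1 s hs2).log hs1.ne').deriv
  have hfin : HasDerivAt (fun s => N1 s / N s) _ 0 :=
    hd2.div (hd1 0 (by simpa using hr)) (by rw [hN0]; exact hN.ne')
  rw [heq.deriv_eq, hfin.deriv, hN0, hN10]
  ring

/-- Laplacian of `log ∑ |F_j|²`. -/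
lemma laplace_log_sum {J : Type} [Fintype J] (F : J → ℂ → ℂ) {r : ℝ} (hr : 0 < r)
    (hF : ∀ j, DifferentiableOn ℂ (F j) (ball 0 r))
    (hN : 0 < ∑ j, Complex.normSq (F j 0)) :
    laplaceAtZero (fun ζ => Real.log (∑ j, Complex.normSq (F j ζ))) =
      4 * ((∑ j, Complex.normSq (deriv (F j) 0)) * (∑ j, Complex.normSq (F j 0)) -
        Complex.normSq (∑ j, conj (F j 0) * deriv (F j) 0)) /
      (∑ j, Complex.normSq (F j 0)) ^ 2 := by
  have h1 := iteratedDeriv_log_sum F hr hF 1 (by simp) hN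
  have h2 := iteratedDeriv_log_sum F hr hF Complex.I (by simp) hN
  unfold laplaceAtZero
  simp only [mul_one] at h1
  rw [h1, h2]
  set N := ∑ j, Complex.normSq (F j 0)
  have e1 : (∑ j, 2 * (conj (F j 0) * deriv (F j) 0).re) =
      2 * (∑ j, conj (F j 0) * deriv (F j) 0).re := by
    rw [Complex.re_sum, Finset.mul_sum]
  have e2 : (∑ j, 2 * (conj (F j 0) * (deriv (F j) 0 * Complex.I)).re) =
      -(2 * (∑ j, conj (F j 0) * deriv (F j) 0).im) := by
    rw [Complex.im_sum, Finset.mul_sum, ← Finset.sum_neg_distrib]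
    refine Finset.sum_congr rfl fun j _ => ?_
    simp [Complex.mul_re, Complex.mul_im]
    ring
  have e3 : (∑ j, (2 * Complex.normSq (deriv (F j) 0) +
      2 * (conj (F j 0) * (deriv (deriv (F j)) 0 * 1 ^ 2)).re)) +
      (∑ j, (2 * Complex.normSq (deriv (F j) 0) +
      2 * (conj (F j 0) * (deriv (deriv (F j)) 0 * Complex.I ^ 2)).re)) =
      4 * ∑ j, Complex.normSq (deriv (F j) 0) := by
    rw [← Finset.sum_add_distrib, Finset.mul_sum]
    refine Finset.sum_congr rfl fun j _ => ?_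
    simp
    ring
  rw [e1, e2, ← add_div]
  congr 1
  rw [Complex.normSq_apply]
  linear_combination N * e3

lemma laplace_log_pos {J : Type} [Fintype J] (F : J → ℂ → ℂ) {r : ℝ} (hr : 0 < r)
    (hF : ∀ j, DifferentiableOn ℂ (F j) (ball 0 r)) (j₀ : J)
    (hj₀ : ∀ ζ ∈ ball (0 : ℂ) r, F j₀ ζ = 1) (j₁ : J) (hj₁ : deriv (F j₁) 0 ≠ 0) :
    0 < laplaceAtZero (fun ζ => Real.log (∑ j, Complex.normSq (F j ζ))) := by
  classical
  have hF0 : F j₀ 0 = 1 := hj₀ 0 (by simpa using hr)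
  have hN1 : 1 ≤ ∑ j, Complex.normSq (F j 0) := by
    calc (1 : ℝ) = Complex.normSq (F j₀ 0) := by rw [hF0]; simp
      _ ≤ _ := Finset.single_le_sum (f := fun j => Complex.normSq (F j 0))
        (fun j _ => Complex.normSq_nonneg _) (Finset.mem_univ j₀)
  rw [laplace_log_sum F hr hF (by linarith)]
  have hd0 : deriv (F j₀) 0 = 0 := by
    have : F j₀ =ᶠ[𝓝 0] fun _ => (1 : ℂ) := by
      filter_upwards [isOpen_ball.mem_nhds (mem_ball_self hr)] with ζ hζ using hj₀ ζ hζ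
    rw [this.deriv_eq, deriv_const]
  set A := ∑ j, Complex.normSq (deriv (F j) 0) with hA
  set N := ∑ j, Complex.normSq (F j 0) with hN
  have hApos : 0 < A := by
    refine lt_of_lt_of_le (Complex.normSq_pos.2 hj₁) ?_
    exact Finset.single_le_sum (f := fun j => Complex.normSq (deriv (F j) 0))
        (fun j _ => Complex.normSq_nonneg _) (Finset.mem_univ j₁)
  have hCS : Complex.normSq (∑ j, conj (F j 0) * deriv (F j) 0) ≤ (N - 1) * A := by
    have h1 : ∑ j, conj (F j 0) * deriv (F j) 0 =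
        ∑ j ∈ Finset.univ.erase j₀, conj (F j 0) * deriv (F j) 0 := by
      rw [← Finset.add_sum_erase Finset.univ _ (Finset.mem_univ j₀), hd0]
      simp
    have hN' : ∑ j ∈ Finset.univ.erase j₀, ‖F j 0‖ ^ 2 = N - 1 := by
      rw [hN, ← Finset.add_sum_erase Finset.univ _ (Finset.mem_univ j₀), hF0]
      simp [Complex.normSq_eq_norm_sq]
    have hA' : ∑ j ∈ Finset.univ.erase j₀, ‖deriv (F j) 0‖ ^ 2 = A := by
      rw [hA, ← Finset.add_sum_erase Finset.univ _ (Finset.mem_univ j₀), hd0]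
      simp [Complex.normSq_eq_norm_sq]
    rw [h1, Complex.normSq_eq_norm_sq]
    have h2 : ‖∑ j ∈ Finset.univ.erase j₀, conj (F j 0) * deriv (F j) 0‖ ≤
        ∑ j ∈ Finset.univ.erase j₀, ‖F j 0‖ * ‖deriv (F j) 0‖ := by
      refine (norm_sum_le _ _).trans (Finset.sum_le_sum fun j _ => ?_)
      rw [norm_mul, RCLike.norm_conj]
    calc ‖∑ j ∈ Finset.univ.erase j₀, conj (F j 0) * deriv (F j) 0‖ ^ 2
        ≤ (∑ j ∈ Finset.univ.erase j₀, ‖F j 0‖ * ‖deriv (F j) 0‖) ^ 2 :=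
          pow_le_pow_left₀ (norm_nonneg _) h2 2
      _ ≤ (∑ j ∈ Finset.univ.erase j₀, ‖F j 0‖ ^ 2) *
          (∑ j ∈ Finset.univ.erase j₀, ‖deriv (F j) 0‖ ^ 2) :=
          Finset.sum_mul_sq_le_sq_mul_sq _ _ _
      _ = (N - 1) * A := by rw [hN', hA']
  have hNpos : 0 < N := by linarith
  apply div_pos _ (by positivity)
  nlinarith

lemma laplace_log_normSq {h : ℂ → ℂ} {r : ℝ} (hr : 0 < r) (hh : DifferentiableOn ℂ h (ball 0 r))
    (h0 : h 0 ≠ 0) : laplaceAtZero (fun ζ => Real.log (Complex.normSq (h ζ))) = 0 := by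
  have h1 := laplace_log_sum (fun (_ : Unit) => h) hr (fun _ => hh) (by simpa using h0)
  simp only [Finset.univ_unique, Finset.sum_singleton] at h1
  rw [h1, map_mul, Complex.normSq_conj]
  ring


/-! ### homogeneous coordinates -/

/-- rank one orthogonal projection onto the line of `v`. -/
noncomputable def prj {I : Type} [Fintype I] (v : I → ℂ) : I → I → ℂ :=
  fun i j => v i * conj (v j) / ((∑ l, Complex.normSq (v l) : ℝ) : ℂ)

lemma sum_normSq_pos {I : Type} [Fintype I] {v : I → ℂ} {i : I} (h : v i ≠ 0) :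
    0 < ∑ l, Complex.normSq (v l) :=
  lt_of_lt_of_le (Complex.normSq_pos.2 h) (Finset.single_le_sum
    (f := fun l => Complex.normSq (v l)) (fun _ _ => Complex.normSq_nonneg _) (Finset.mem_univ i))

lemma prj_smul {I : Type} [Fintype I] (v : I → ℂ) {c : ℂ} (hc : c ≠ 0) : prj (c • v) = prj v := by
  funext i j
  unfold prj
  have h1 : (∑ l, Complex.normSq ((c • v) l) : ℝ) = Complex.normSq c * ∑ l, Complex.normSq (v l) := by
    rw [Finset.mul_sum]
    exact Finset.sum_congr rfl fun l _ => by rw [Pi.smul_apply, smul_eq_mul, Complex.normSq_mul]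
  rw [h1, Pi.smul_apply, Pi.smul_apply, smul_eq_mul, smul_eq_mul, map_mul, Complex.ofReal_mul,
    ← Complex.mul_conj]
  have hc' : conj c ≠ 0 := by simpa using hc
  rw [show c * v i * (conj c * conj (v j)) = c * conj c * (v i * conj (v j)) by ring,
    mul_div_mul_left _ _ (mul_ne_zero hc hc')]

lemma prj_diag_ne {I : Type} [Fintype I] {v : I → ℂ} {i : I} : prj v i i ≠ 0 ↔ v i ≠ 0 := by
  constructor
  · intro h h'
    apply h
    simp [prj, h']
  · intro h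
    unfold prj
    rw [Complex.mul_conj, ← Complex.ofReal_div, Complex.ofReal_ne_zero]
    exact (div_pos (Complex.normSq_pos.2 h) (sum_normSq_pos h)).ne'

lemma prj_ratio {I : Type} [Fintype I] {v : I → ℂ} {i : I} (h : v i ≠ 0) (j : I) :
    prj v j i / prj v i i = v j / v i := by
  unfold prj
  have h1 : ((∑ l, Complex.normSq (v l) : ℝ) : ℂ) ≠ 0 :=
    Complex.ofReal_ne_zero.2 (sum_normSq_pos h).ne'
  have h2 : conj (v i) ≠ 0 := by simpa using h
  field_simp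

abbrev I3 : Type := Fin 3 × Fin 3 × Fin 3
abbrev NI : Type := I3 ⊕ Fin 2
/-- homogeneous coordinates `((c; a, b, e), τ)` -/
abbrev HH : Type := St × ℂ
abbrev E29 : Type := ℂ × ℂ × ℂ × (Fin 26 → ℂ)

abbrev hc (h : HH) : C3 := h.1.1
abbrev ha (h : HH) : V2 := h.1.2.1
abbrev hb (h : HH) : V2 := h.1.2.2.1
abbrev he (h : HH) : V2 := h.1.2.2.2

def nv (h : HH) : NI → ℂ :=
  Sum.elim (fun t => hc h t.1 t.2.1 t.2.2) (fun l => h.2 * hb h l)

def CX : Set HH := {h | h.1 ∈ Con0 ∧ (h.1.1 ≠ 0 ∨ h.2 ≠ 0)}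

/-- the action of the torus on homogeneous coordinates -/
noncomputable def scH (α β γ l : ℂ) (h : HH) : HH :=
  ((l • hc h, α • ha h, β • hb h, γ • he h), l * β⁻¹ * h.2)

def mm (a b e : V2) (t : I3) : ℂ := mon t.1 a * mon t.2.1 b * mon t.2.2 e

lemma FF_eq_mm (c : C3) (a b e : V2) :
    FF c a b e = ∑ t : I3, c t.1 t.2.1 t.2.2 * mm a b e t := by
  rw [FF_eq, Fintype.sum_prod_type]
  refine Finset.sum_congr rfl fun i _ => ?_
  rw [Fintype.sum_prod_type]
  refine Finset.sum_congr rfl fun j _ => ?_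
  refine Finset.sum_congr rfl fun k _ => ?_
  simp only [mm]; ring

lemma mon_smul' (t : ℂ) (x : V2) (i : Fin 3) : mon i (t • x) = t ^ 2 * mon i x := mon_smul t x i

lemma FF_smul (c : C3) (a b e : V2) (l α β γ : ℂ) :
    FF (l • c) (α • a) (β • b) (γ • e) = l * α ^ 2 * β ^ 2 * γ ^ 2 * FF c a b e := by
  rw [FF_eq_mm, FF_eq_mm, Finset.mul_sum]
  refine Finset.sum_congr rfl fun t _ => ?_
  simp only [mm, mon_smul', Pi.smul_apply, smul_eq_mul]
  ring

lemma nv_scH {α β γ l : ℂ} (hβ : β ≠ 0) (h : HH) : nv (scH α β γ l h) = l • nv h := by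
  funext n
  rcases n with t | i
  · rfl
  · show l * β⁻¹ * h.2 * (β * hb h i) = l * (h.2 * hb h i)
    field_simp

lemma scH_mem {α β γ l : ℂ} (hα : α ≠ 0) (hβ : β ≠ 0) (hγ : γ ≠ 0) (hl : l ≠ 0) {h : HH}
    (hh : h ∈ CX) : scH α β γ l h ∈ CX := by
  obtain ⟨⟨h1, h2, h3, h4⟩, h5⟩ := hh
  refine ⟨⟨smul_ne_zero hα h1, smul_ne_zero hβ h2, smul_ne_zero hγ h3, ?_⟩, ?_⟩
  · show FF (l • h.1.1) (α • h.1.2.1) (β • h.1.2.2.1) (γ • h.1.2.2.2) = 0
    rw [FF_smul, h4, mul_zero]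
  · rcases h5 with h5 | h5
    · exact Or.inl (smul_ne_zero hl h5)
    · exact Or.inr (mul_ne_zero (mul_ne_zero hl (inv_ne_zero hβ)) h5)

abbrev M2 : Type := Fin 2 → Fin 2 → ℂ
abbrev Amb : Type := M2 × M2 × M2 × (NI → NI → ℂ)

noncomputable def emb (h : HH) : Amb := (prj (ha h), prj (hb h), prj (he h), prj (nv h))

lemma emb_scH {α β γ l : ℂ} (hα : α ≠ 0) (hβ : β ≠ 0) (hγ : γ ≠ 0) (hl : l ≠ 0) (h : HH) :
    emb (scH α β γ l h) = emb h := by
  unfold emb
  rw [nv_scH hβ, prj_smul _ hl]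
  show (prj (α • ha h), prj (β • hb h), prj (γ • he h), _) = _
  rw [prj_smul _ hα, prj_smul _ hβ, prj_smul _ hγ]

lemma nv_ne {h : HH} (hh : h ∈ CX) : nv h ≠ 0 := by
  intro h0
  obtain ⟨⟨h1, h2, h3, h4⟩, h5⟩ := hh
  rcases h5 with h5 | h5
  · apply h5
    funext i j k
    exact congrFun h0 (Sum.inl (i, j, k))
  · apply h2
    funext l
    have := congrFun h0 (Sum.inr l)
    have h6 : h.2 * h.1.2.2.1 l = 0 := this
    exact (mul_eq_zero.1 h6).resolve_left h5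

/-! ### charts in homogeneous coordinates -/

def dd (i : Fin 2) : Fin 3 := if i = 0 then 0 else 2
def op (i : Fin 2) : Fin 2 := if i = 0 then 1 else 0

lemma op_ne (i : Fin 2) : op i ≠ i := by fin_cases i <;> simp [op]
lemma eq_or_op (i l : Fin 2) : l = i ∨ l = op i := by
  fin_cases i <;> fin_cases l <;> simp [op]

/-- indices of charts -/
structure Ch where
  i : Fin 2
  j : Fin 2
  k : Fin 2
  η : Option I3
  hη : η ≠ some (dd i, dd j, dd k)

def Ch.kap (w : Ch) : I3 := (dd w.i, dd w.j, dd w.k)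

lemma card_rest (w : Ch) : Fintype.card {ζ : Option I3 // ζ ≠ some w.kap ∧ ζ ≠ w.η} = 26 := by
  rw [Fintype.card_subtype]
  have h1 : (Finset.univ.filter fun ζ : Option I3 => ζ ≠ some w.kap ∧ ζ ≠ w.η) =
      (Finset.univ.erase (some w.kap)).erase w.η := by
    ext ζ; simp [and_comm]
  rw [h1, Finset.card_erase_of_mem, Finset.card_erase_of_mem (Finset.mem_univ _)]
  · simp
  · simp only [Finset.mem_erase, Finset.mem_univ, and_true]
    exact w.hη

noncomputable def Ch.eqv (w : Ch) : {ζ : Option I3 // ζ ≠ some w.kap ∧ ζ ≠ w.η} ≃ Fin 26 :=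
  Fintype.equivFinOfCardEq (card_rest w)

/-- the entry of `nv` belonging to a fibre coordinate -/
def Ch.nu (w : Ch) : Option I3 → NI
  | none => Sum.inr w.j
  | some t => Sum.inl t

noncomputable def raw (w : Ch) (q : Fin 26 → ℂ) (ζ : Option I3) : ℂ :=
  if h : ζ ≠ some w.kap ∧ ζ ≠ w.η then q (w.eqv ⟨ζ, h⟩) else if ζ = w.η then 1 else 0

def vec (i : Fin 2) (z : ℂ) : V2 := fun l => if l = i then 1 else z

lemma vec_self (i : Fin 2) (z : ℂ) : vec i z i = 1 := by simp [vec]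
lemma vec_op (i : Fin 2) (z : ℂ) : vec i z (op i) = z := by simp [vec, op_ne]
lemma mon_dd (i : Fin 2) (x : V2) (hx : x i = 1) : mon (dd i) x = 1 := by
  fin_cases i
  · have : x 0 = 1 := hx
    simp [dd, mon, this]
  · have : x 1 = 1 := hx
    simp [dd, mon, this]

noncomputable def lft (w : Ch) (p : E29) : HH :=
  (((fun x y z => raw w p.2.2.2 (some (x, y, z)) - if (x, y, z) = w.kap then
      ∑ t : I3, raw w p.2.2.2 (some t) * mm (vec w.i p.1) (vec w.j p.2.1) (vec w.k p.2.2.1) t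
      else 0),
    vec w.i p.1, vec w.j p.2.1, vec w.k p.2.2.1), raw w p.2.2.2 none)

noncomputable def crd (w : Ch) (h : HH) : E29 :=
  (ha h (op w.i) / ha h w.i, hb h (op w.j) / hb h w.j, he h (op w.k) / he h w.k,
    fun r => nv h (w.nu (w.eqv.symm r).1) / nv h (w.nu w.η))

def Nz (w : Ch) : Set HH :=
  {h | ha h w.i ≠ 0 ∧ hb h w.j ≠ 0 ∧ he h w.k ≠ 0 ∧ nv h (w.nu w.η) ≠ 0}

lemma raw_eta (w : Ch) (q : Fin 26 → ℂ) : raw w q w.η = 1 := by
  simp [raw]

lemma raw_kap (w : Ch) (q : Fin 26 → ℂ) : raw w q (some w.kap) = 0 := by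
  unfold raw
  rw [dif_neg (by simp), if_neg (fun h => w.hη h.symm)]

lemma raw_rest (w : Ch) (q : Fin 26 → ℂ) (r : Fin 26) : raw w q (w.eqv.symm r).1 = q r := by
  unfold raw
  rw [dif_pos (w.eqv.symm r).2]
  simp

/-- fibre coordinates of the lift away from the dependent one -/
lemma nv_lft (w : Ch) (p : E29) {ζ : Option I3} (hζ : ζ ≠ some w.kap) :
    nv (lft w p) (w.nu ζ) = raw w p.2.2.2 ζ := by
  rcases ζ with _ | t
  · show raw w p.2.2.2 none * vec w.j p.2.1 w.j = _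
    rw [vec_self, mul_one]
  · have h : (t.1, t.2.1, t.2.2) ≠ w.kap := fun h => hζ (congrArg some h)
    show raw w p.2.2.2 (some (t.1, t.2.1, t.2.2)) - (if (t.1, t.2.1, t.2.2) = w.kap then _ else 0) = _
    rw [if_neg h, sub_zero]

lemma nv_lft_eta (w : Ch) (p : E29) : nv (lft w p) (w.nu w.η) = 1 := by
  rw [nv_lft w p w.hη, raw_eta]

lemma mm_kap (w : Ch) {a b e : V2} (h1 : a w.i = 1) (h2 : b w.j = 1) (h3 : e w.k = 1) :
    mm a b e w.kap = 1 := by
  show mon (dd w.i) a * mon (dd w.j) b * mon (dd w.k) e = 1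
  rw [mon_dd _ _ h1, mon_dd _ _ h2, mon_dd _ _ h3]; norm_num

lemma vec_ne (i : Fin 2) (z : ℂ) : vec i z ≠ 0 := by
  intro h
  have := congrFun h i
  rw [vec_self] at this
  exact one_ne_zero this

lemma lft_mem (w : Ch) (p : E29) : lft w p ∈ CX := by
  refine ⟨⟨vec_ne _ _, vec_ne _ _, vec_ne _ _, ?_⟩, ?_⟩
  · show FF (lft w p).1.1 (vec w.i p.1) (vec w.j p.2.1) (vec w.k p.2.2.1) = 0
    rw [FF_eq_mm]
    have : ∀ t : I3, (lft w p).1.1 t.1 t.2.1 t.2.2 = raw w p.2.2.2 (some t) -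
        if t = w.kap then
        ∑ t : I3, raw w p.2.2.2 (some t) * mm (vec w.i p.1) (vec w.j p.2.1) (vec w.k p.2.2.1) t
        else 0 := fun t => rfl
    simp only [this, sub_mul, Finset.sum_sub_distrib, ite_mul, zero_mul, Finset.sum_ite_eq',
      Finset.mem_univ, if_true]
    rw [mm_kap w (vec_self _ _) (vec_self _ _) (vec_self _ _), mul_one, sub_self]
  · by_contra hcon
    push Not at hcon
    have h1 := nv_lft_eta w p
    rcases hη : w.η with _ | t
    · rw [hη] at h1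
      have h2 : (lft w p).2 * (lft w p).1.2.2.1 w.j = 1 := h1
      rw [hcon.2, zero_mul] at h2
      exact zero_ne_one h2
    · rw [hη] at h1
      have h2 : (lft w p).1.1 t.1 t.2.1 t.2.2 = 1 := h1
      rw [hcon.1] at h2
      exact zero_ne_one h2

lemma lft_mem_Nz (w : Ch) (p : E29) : lft w p ∈ Nz w := by
  refine ⟨?_, ?_, ?_, ?_⟩
  · show vec w.i p.1 w.i ≠ 0
    rw [vec_self]; exact one_ne_zero
  · show vec w.j p.2.1 w.j ≠ 0
    rw [vec_self]; exact one_ne_zero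
  · show vec w.k p.2.2.1 w.k ≠ 0
    rw [vec_self]; exact one_ne_zero
  · rw [nv_lft_eta]; exact one_ne_zero

lemma crd_lft (w : Ch) (p : E29) : crd w (lft w p) = p := by
  refine Prod.ext ?_ (Prod.ext ?_ (Prod.ext ?_ ?_))
  · show vec w.i p.1 (op w.i) / vec w.i p.1 w.i = p.1
    rw [vec_self, vec_op, div_one]
  · show vec w.j p.2.1 (op w.j) / vec w.j p.2.1 w.j = p.2.1
    rw [vec_self, vec_op, div_one]
  · show vec w.k p.2.2.1 (op w.k) / vec w.k p.2.2.1 w.k = p.2.2.1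
    rw [vec_self, vec_op, div_one]
  · funext r
    show nv (lft w p) (w.nu (w.eqv.symm r).1) / nv (lft w p) (w.nu w.η) = p.2.2.2 r
    rw [nv_lft_eta, div_one, nv_lft w p (w.eqv.symm r).2.1, raw_rest]

/-- the normalisation of homogeneous coordinates belonging to the chart `w` -/
noncomputable def scl (w : Ch) (h : HH) : HH :=
  scH (ha h w.i)⁻¹ (hb h w.j)⁻¹ (he h w.k)⁻¹ (nv h (w.nu w.η))⁻¹ h

lemma vec_div (i : Fin 2) (x : V2) (hx : x i ≠ 0) : vec i (x (op i) / x i) = (x i)⁻¹ • x := by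
  funext l
  rcases eq_or_op i l with h | h
  · rw [h, vec_self, Pi.smul_apply, smul_eq_mul, inv_mul_cancel₀ hx]
  · rw [h, vec_op, Pi.smul_apply, smul_eq_mul, div_eq_inv_mul]

lemma lft_crd (w : Ch) {h : HH} (hh : h ∈ CX) (hn : h ∈ Nz w) : lft w (crd w h) = scl w h := by
  obtain ⟨n1, n2, n3, n4⟩ := hn
  set h' := scl w h with hh'
  have hm' : h' ∈ CX := scH_mem (inv_ne_zero n1) (inv_ne_zero n2) (inv_ne_zero n3) (inv_ne_zero n4) hh
  have e1 : vec w.i (crd w h).1 = ha h' := vec_div w.i (ha h) n1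
  have e2 : vec w.j (crd w h).2.1 = hb h' := vec_div w.j (hb h) n2
  have e3 : vec w.k (crd w h).2.2.1 = he h' := vec_div w.k (he h) n3
  have u1 : ha h' w.i = 1 := inv_mul_cancel₀ n1
  have u2 : hb h' w.j = 1 := inv_mul_cancel₀ n2
  have u3 : he h' w.k = 1 := inv_mul_cancel₀ n3
  have hnv : ∀ n, nv h' n = nv h n / nv h (w.nu w.η) := by
    intro n
    rw [hh', scl, nv_scH (inv_ne_zero n2), Pi.smul_apply, smul_eq_mul, div_eq_inv_mul]
  have e4 : ∀ ζ : Option I3, ζ ≠ some w.kap → raw w (crd w h).2.2.2 ζ = nv h' (w.nu ζ) := by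
    intro ζ hζ
    by_cases hζ2 : ζ = w.η
    · rw [hζ2, raw_eta, hnv, div_self n4]
    · unfold raw
      rw [dif_pos ⟨hζ, hζ2⟩, hnv]
      show nv h (w.nu (w.eqv.symm (w.eqv ⟨ζ, _⟩)).1) / _ = _
      rw [Equiv.symm_apply_apply]
  have e5 : ∀ t : I3, t ≠ w.kap → raw w (crd w h).2.2.2 (some t) = hc h' t.1 t.2.1 t.2.2 := by
    intro t ht
    rw [e4 (some t) (fun hcon => ht (Option.some.inj hcon))]
    rfl
  have e6 : (∑ t : I3, raw w (crd w h).2.2.2 (some t) * mm (ha h') (hb h') (he h') t) =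
      - hc h' w.kap.1 w.kap.2.1 w.kap.2.2 := by
    have h1 : FF (hc h') (ha h') (hb h') (he h') = 0 := hm'.1.2.2.2
    rw [FF_eq_mm, ← Finset.add_sum_erase Finset.univ _ (Finset.mem_univ w.kap),
      mm_kap w u1 u2 u3, mul_one] at h1
    rw [← Finset.add_sum_erase Finset.univ _ (Finset.mem_univ w.kap), raw_kap, zero_mul, zero_add]
    have h2 : ∀ t ∈ Finset.univ.erase w.kap, raw w (crd w h).2.2.2 (some t) *
        mm (ha h') (hb h') (he h') t = hc h' t.1 t.2.1 t.2.2 * mm (ha h') (hb h') (he h') t := by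
      intro t ht
      rw [e5 t (Finset.ne_of_mem_erase ht)]
    rw [Finset.sum_congr rfl h2]
    linear_combination h1
  have e7 : raw w (crd w h).2.2.2 none = h'.2 := by
    rw [e4 none (by simp)]
    show h'.2 * hb h' w.j = h'.2
    rw [u2, mul_one]
  unfold lft
  rw [e1, e2, e3, e7, e6]
  refine Prod.ext (Prod.ext ?_ rfl) rfl
  funext x y z
  show raw w (crd w h).2.2.2 (some (x, y, z)) - _ = hc h' x y z
  by_cases ht : (x, y, z) = w.kap
  · rw [if_pos ht, ht, raw_kap, ← ht]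
    simp
  · rw [if_neg ht, e5 _ ht, sub_zero]

lemma exists_Nz {h : HH} (hh : h ∈ CX) : ∃ w : Ch, h ∈ Nz w := by
  obtain ⟨⟨h1, h2, h3, h4⟩, h5⟩ := hh
  have hex : ∀ {x : V2}, x ≠ 0 → ∃ i, x i ≠ 0 := by
    intro x hx
    by_contra hcon
    push Not at hcon
    exact hx (funext hcon)
  obtain ⟨i, hi⟩ := hex h1
  obtain ⟨j, hj⟩ := hex h2
  obtain ⟨k, hk⟩ := hex h3
  by_cases ht : h.2 = 0
  · have hc0 : h.1.1 ≠ 0 := h5.resolve_right (fun h => h ht)
    obtain ⟨t, ht1, ht2⟩ : ∃ t : I3, t ≠ (dd i, dd j, dd k) ∧ h.1.1 t.1 t.2.1 t.2.2 ≠ 0 := by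
      by_contra hcon
      push Not at hcon
      apply hc0
      have hmon : ∀ (i : Fin 2) (x : V2), x i ≠ 0 → mon (dd i) x ≠ 0 := by
        intro i x hx
        fin_cases i
        · exact pow_ne_zero 2 hx
        · exact pow_ne_zero 2 hx
      have h6 : h.1.1 (dd i) (dd j) (dd k) = 0 := by
        rw [FF_eq_mm, Finset.sum_eq_single (dd i, dd j, dd k)] at h4
        · refine (mul_eq_zero.1 h4).resolve_right ?_
          exact mul_ne_zero (mul_ne_zero (hmon i _ hi) (hmon j _ hj)) (hmon k _ hk)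
        · intro t _ htne
          rw [hcon t htne, zero_mul]
        · intro hcon2
          exact absurd (Finset.mem_univ _) hcon2
      funext x y z
      by_cases hxyz : (x, y, z) = (dd i, dd j, dd k)
      · simp only [Prod.mk.injEq] at hxyz
        obtain ⟨rfl, rfl, rfl⟩ := hxyz
        exact h6
      · exact hcon (x, y, z) hxyz
    exact ⟨⟨i, j, k, some t, fun h => ht1 (Option.some.inj h)⟩, hi, hj, hk, ht2⟩
  · exact ⟨⟨i, j, k, none, by simp⟩, hi, hj, hk, mul_ne_zero ht hj⟩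

/-! ### the manifold -/

def Tot : Type := {m : Amb // ∃ h ∈ CX, emb h = m}

instance : TopologicalSpace Tot := inferInstanceAs (TopologicalSpace (Subtype _))
instance : T2Space Tot := inferInstanceAs (T2Space (Subtype _))

lemma base_mem : (((0, (fun _ => 1), (fun _ => 1), (fun _ => 1)), 1) : HH) ∈ CX := by
  refine ⟨⟨?_, ?_, ?_, ?_⟩, Or.inr one_ne_zero⟩
  · intro h; exact one_ne_zero (congrFun h 0)
  · intro h; exact one_ne_zero (congrFun h 0)
  · intro h; exact one_ne_zero (congrFun h 0)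
  · show FF 0 _ _ _ = 0
    rw [FF_eq_mm]; simp

open Classical in
/-- the point with the given homogeneous coordinates -/
noncomputable def mk (h : HH) : Tot :=
  if hh : h ∈ CX then ⟨emb h, h, hh, rfl⟩ else ⟨emb _, _, base_mem, rfl⟩

lemma mk_val {h : HH} (hh : h ∈ CX) : (mk h).1 = emb h := by
  unfold mk; rw [dif_pos hh]

lemma exists_mk (m : Tot) : ∃ h ∈ CX, mk h = m := by
  obtain ⟨m, h, hh, rfl⟩ := m
  exact ⟨h, hh, Subtype.ext (mk_val hh)⟩

noncomputable def fwd (w : Ch) (m : Tot) : E29 :=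
  (m.1.1 (op w.i) w.i / m.1.1 w.i w.i, m.1.2.1 (op w.j) w.j / m.1.2.1 w.j w.j,
    m.1.2.2.1 (op w.k) w.k / m.1.2.2.1 w.k w.k,
    fun r => m.1.2.2.2 (w.nu (w.eqv.symm r).1) (w.nu w.η) / m.1.2.2.2 (w.nu w.η) (w.nu w.η))

def src (w : Ch) : Set Tot :=
  {m | m.1.1 w.i w.i ≠ 0 ∧ m.1.2.1 w.j w.j ≠ 0 ∧ m.1.2.2.1 w.k w.k ≠ 0 ∧
    m.1.2.2.2 (w.nu w.η) (w.nu w.η) ≠ 0}

noncomputable def bwd (w : Ch) (p : E29) : Tot := mk (lft w p)

lemma mk_mem_src {h : HH} (hh : h ∈ CX) (w : Ch) : mk h ∈ src w ↔ h ∈ Nz w := by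
  unfold src Nz
  simp only [Set.mem_ofPred_eq, mk_val hh]
  show prj (ha h) w.i w.i ≠ 0 ∧ prj (hb h) w.j w.j ≠ 0 ∧ prj (he h) w.k w.k ≠ 0 ∧
    prj (nv h) (w.nu w.η) (w.nu w.η) ≠ 0 ↔ _
  rw [prj_diag_ne, prj_diag_ne, prj_diag_ne, prj_diag_ne]

lemma fwd_mk {h : HH} (hh : h ∈ CX) {w : Ch} (hw : h ∈ Nz w) : fwd w (mk h) = crd w h := by
  obtain ⟨n1, n2, n3, n4⟩ := hw
  unfold fwd crd
  rw [mk_val hh]
  refine Prod.ext (prj_ratio n1 _) (Prod.ext (prj_ratio n2 _) (Prod.ext (prj_ratio n3 _) ?_))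
  funext r
  exact prj_ratio n4 _

lemma fwd_bwd (w : Ch) (p : E29) : fwd w (bwd w p) = p := by
  unfold bwd
  rw [fwd_mk (lft_mem w p) (lft_mem_Nz w p), crd_lft]

lemma bwd_mem (w : Ch) (p : E29) : bwd w p ∈ src w := (mk_mem_src (lft_mem w p) w).2 (lft_mem_Nz w p)

lemma mk_scH {α β γ l : ℂ} (hα : α ≠ 0) (hβ : β ≠ 0) (hγ : γ ≠ 0) (hl : l ≠ 0) {h : HH}
    (hh : h ∈ CX) : mk (scH α β γ l h) = mk h := by
  apply Subtype.ext
  rw [mk_val (scH_mem hα hβ hγ hl hh), mk_val hh, emb_scH hα hβ hγ hl]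

lemma mk_scl {w : Ch} {h : HH} (hh : h ∈ CX) (hw : h ∈ Nz w) : mk (scl w h) = mk h :=
  mk_scH (inv_ne_zero hw.1) (inv_ne_zero hw.2.1) (inv_ne_zero hw.2.2.1) (inv_ne_zero hw.2.2.2) hh

lemma lft_fwd_mk {h : HH} (hh : h ∈ CX) {w : Ch} (hw : h ∈ Nz w) :
    lft w (fwd w (mk h)) = scl w h := by
  rw [fwd_mk hh hw, lft_crd w hh hw]

lemma bwd_fwd (w : Ch) {m : Tot} (hm : m ∈ src w) : bwd w (fwd w m) = m := by
  obtain ⟨h, hh, rfl⟩ := exists_mk m
  have hw := (mk_mem_src hh w).1 hm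
  unfold bwd
  rw [lft_fwd_mk hh hw, mk_scl hh hw]

lemma exists_src (m : Tot) : ∃ w, m ∈ src w := by
  obtain ⟨h, hh, rfl⟩ := exists_mk m
  obtain ⟨w, hw⟩ := exists_Nz hh
  exact ⟨w, (mk_mem_src hh w).2 hw⟩

def valT (m : Tot) : Amb := m.1

lemma isInducing_valT : IsInducing valT := ⟨rfl⟩

lemma continuous_valT : Continuous valT := isInducing_valT.continuous

lemma cont_c1 (i j : Fin 2) : Continuous fun m : Tot => m.1.1 i j :=
  (continuous_apply j).comp ((continuous_apply i).comp (continuous_fst.comp continuous_valT))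
lemma cont_c2 (i j : Fin 2) : Continuous fun m : Tot => m.1.2.1 i j :=
  (continuous_apply j).comp ((continuous_apply i).comp
    (continuous_fst.comp (continuous_snd.comp continuous_valT)))
lemma cont_c3 (i j : Fin 2) : Continuous fun m : Tot => m.1.2.2.1 i j :=
  (continuous_apply j).comp ((continuous_apply i).comp
    (continuous_fst.comp (continuous_snd.comp (continuous_snd.comp continuous_valT))))
lemma cont_c4 (i j : NI) : Continuous fun m : Tot => m.1.2.2.2 i j :=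
  (continuous_apply j).comp ((continuous_apply i).comp
    (continuous_snd.comp (continuous_snd.comp (continuous_snd.comp continuous_valT))))

lemma isOpen_src (w : Ch) : IsOpen (src w) :=
  (isOpen_ne_fun (cont_c1 _ _) continuous_const).inter
    ((isOpen_ne_fun (cont_c2 _ _) continuous_const).inter
      ((isOpen_ne_fun (cont_c3 _ _) continuous_const).inter
        (isOpen_ne_fun (cont_c4 _ _) continuous_const)))

lemma continuousOn_prj_comp {I : Type} [Fintype I] {Y : Type} [TopologicalSpace Y] {s : Set Y}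
    (f : Y → I → ℂ) (hf : ContinuousOn f s) (hi : ∀ y ∈ s, f y ≠ 0) :
    ContinuousOn (fun y => prj (f y)) s := by
  refine continuousOn_pi.2 fun a => continuousOn_pi.2 fun b => ?_
  unfold prj
  have h1 : ∀ a, ContinuousOn (fun y => f y a) s := fun a => continuousOn_pi.1 hf a
  refine ContinuousOn.div ?_ ?_ ?_
  · exact (h1 a).mul (Complex.continuous_conj.comp_continuousOn (h1 b))
  · exact Complex.continuous_ofReal.comp_continuousOn (continuousOn_finsetSum _ fun l _ =>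
      Complex.continuous_normSq.comp_continuousOn (h1 l))
  · intro y hy
    obtain ⟨i, hi⟩ : ∃ i, f y i ≠ 0 := by
      by_contra hcon
      push Not at hcon
      exact hi y hy (funext hcon)
    exact Complex.ofReal_ne_zero.2 (sum_normSq_pos hi).ne'

lemma contDiff_nv : ContDiff ℂ ω nv := by
  refine contDiff_pi.2 fun n => ?_
  rcases n with t | l
  · show ContDiff ℂ ω fun h : HH => h.1.1 t.1 t.2.1 t.2.2
    fun_prop
  · show ContDiff ℂ ω fun h : HH => h.2 * h.1.2.2.1 l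
    fun_prop

lemma continuousOn_emb : ContinuousOn emb CX := by
  refine ContinuousOn.prodMk ?_ (ContinuousOn.prodMk ?_ (ContinuousOn.prodMk ?_ ?_))
  · exact continuousOn_prj_comp _ (by fun_prop) fun h hh => hh.1.1
  · exact continuousOn_prj_comp _ (by fun_prop) fun h hh => hh.1.2.1
  · exact continuousOn_prj_comp _ (by fun_prop) fun h hh => hh.1.2.2.1
  · exact continuousOn_prj_comp _ contDiff_nv.continuous.continuousOn fun h hh => nv_ne hh

lemma continuousOn_mk : ContinuousOn mk CX := by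
  rw [continuousOn_iff_continuous_domRestrict, isInducing_valT.continuous_iff]
  have h : (valT ∘ CX.domRestrict mk) = CX.domRestrict emb := by
    funext p
    exact mk_val p.2
  rw [h]
  exact continuousOn_iff_continuous_domRestrict.1 continuousOn_emb

lemma contDiff_raw (w : Ch) (ζ : Option I3) : ContDiff ℂ ω (fun q : Fin 26 → ℂ => raw w q ζ) := by
  unfold raw
  split_ifs
  · fun_prop
  · fun_prop
  · fun_prop

lemma contDiff_vec (i l : Fin 2) : ContDiff ℂ ω (fun z : ℂ => vec i z l) := by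
  unfold vec
  split_ifs
  · fun_prop
  · fun_prop

lemma contDiff_mon (i : Fin 3) : ContDiff ℂ ω (mon i) := by
  have h0 : ContDiff ℂ ω (fun x : V2 => x 0) := by fun_prop
  have h1 : ContDiff ℂ ω (fun x : V2 => x 1) := by fun_prop
  fin_cases i
  · exact h0.pow 2
  · exact h0.mul h1
  · exact h1.pow 2

lemma contDiff_lft (w : Ch) : ContDiff ℂ ω (lft w) := by
  have hraw : ∀ ζ, ContDiff ℂ ω (fun p : E29 => raw w p.2.2.2 ζ) := fun ζ =>
    (contDiff_raw w ζ).comp (by fun_prop : ContDiff ℂ ω fun p : E29 => p.2.2.2)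
  have h1 : ContDiff ℂ ω (fun p : E29 => vec w.i p.1) :=
    contDiff_pi.2 fun l => (contDiff_vec w.i l).comp (by fun_prop)
  have h2 : ContDiff ℂ ω (fun p : E29 => vec w.j p.2.1) :=
    contDiff_pi.2 fun l => (contDiff_vec w.j l).comp (by fun_prop)
  have h3 : ContDiff ℂ ω (fun p : E29 => vec w.k p.2.2.1) :=
    contDiff_pi.2 fun l => (contDiff_vec w.k l).comp (by fun_prop)
  have hS : ContDiff ℂ ω (fun p : E29 => ∑ t : I3, raw w p.2.2.2 (some t) *
      mm (vec w.i p.1) (vec w.j p.2.1) (vec w.k p.2.2.1) t) := by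
    refine ContDiff.sum fun t _ => (hraw _).mul ?_
    exact (((contDiff_mon _).comp h1).mul ((contDiff_mon _).comp h2)).mul ((contDiff_mon _).comp h3)
  unfold lft
  refine ContDiff.prodMk (ContDiff.prodMk ?_ (h1.prodMk (h2.prodMk h3))) (hraw none)
  refine contDiff_pi.2 fun x => contDiff_pi.2 fun y => contDiff_pi.2 fun z => ?_
  by_cases ht : (x, y, z) = w.kap
  · simp only [if_pos ht]
    exact (hraw _).sub hS
  · simp only [if_neg ht]
    exact (hraw _).sub contDiff_const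

lemma contDiffOn_crd (w : Ch) : ContDiffOn ℂ ω (crd w) (Nz w) := by
  have hn : ∀ n, ContDiff ℂ ω (fun h : HH => nv h n) := fun n => contDiff_pi.1 contDiff_nv n
  unfold crd
  refine ContDiffOn.prodMk ?_ (ContDiffOn.prodMk ?_ (ContDiffOn.prodMk ?_ ?_))
  · exact ContDiffOn.div (by fun_prop) (by fun_prop) fun h hh => hh.1
  · exact ContDiffOn.div (by fun_prop) (by fun_prop) fun h hh => hh.2.1
  · exact ContDiffOn.div (by fun_prop) (by fun_prop) fun h hh => hh.2.2.1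
  · refine contDiffOn_pi.2 fun r => ?_
    exact ContDiffOn.div (hn _).contDiffOn (hn _).contDiffOn fun h hh => hh.2.2.2

lemma isOpen_Nz (w : Ch) : IsOpen (Nz w) := by
  have hn : ∀ n, Continuous (fun h : HH => nv h n) := fun n =>
    (contDiff_pi.1 contDiff_nv n).continuous
  exact (isOpen_ne_fun (by fun_prop) continuous_const).inter
    ((isOpen_ne_fun (by fun_prop) continuous_const).inter
      ((isOpen_ne_fun (by fun_prop) continuous_const).inter
        (isOpen_ne_fun (hn _) continuous_const)))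

lemma continuous_bwd (w : Ch) : Continuous (bwd w) := by
  rw [← continuousOn_univ]
  exact continuousOn_mk.comp (contDiff_lft w).continuous.continuousOn fun p _ => lft_mem w p

lemma continuousOn_fwd (w : Ch) : ContinuousOn (fwd w) (src w) := by
  unfold fwd
  refine ContinuousOn.prodMk ?_ (ContinuousOn.prodMk ?_ (ContinuousOn.prodMk ?_ ?_))
  · exact (cont_c1 _ _).continuousOn.div (cont_c1 _ _).continuousOn fun m hm => hm.1
  · exact (cont_c2 _ _).continuousOn.div (cont_c2 _ _).continuousOn fun m hm => hm.2.1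
  · exact (cont_c3 _ _).continuousOn.div (cont_c3 _ _).continuousOn fun m hm => hm.2.2.1
  · refine continuousOn_pi.2 fun r => ?_
    exact (cont_c4 _ _).continuousOn.div (cont_c4 _ _).continuousOn fun m hm => hm.2.2.2

/-- the chart `w`. -/
noncomputable def ch (w : Ch) : OpenPartialHomeomorph Tot E29 where
  toFun := fwd w
  invFun := bwd w
  source := src w
  target := Set.univ
  map_source' := fun _ _ => Set.mem_univ _
  map_target' := fun p _ => bwd_mem w p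
  left_inv' := fun _ hm => bwd_fwd w hm
  right_inv' := fun p _ => fwd_bwd w p
  open_source := isOpen_src w
  open_target := isOpen_univ
  continuousOn_toFun := continuousOn_fwd w
  continuousOn_invFun := (continuous_bwd w).continuousOn

noncomputable instance : ChartedSpace E29 Tot where
  atlas := Set.range ch
  chartAt m := ch (Classical.choose (exists_src m))
  mem_chart_source m := Classical.choose_spec (exists_src m)
  chart_mem_atlas _ := ⟨_, rfl⟩

lemma trans_source (w w' : Ch) : ((ch w).symm ≫ₕ ch w').source ⊆ lft w ⁻¹' (Nz w') := by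
  intro p hp
  rw [OpenPartialHomeomorph.trans_source] at hp
  have h2 : bwd w p ∈ src w' := hp.2
  exact (mk_mem_src (lft_mem w p) w').1 h2

lemma trans_eq (w w' : Ch) {p : E29} (hp : p ∈ lft w ⁻¹' (Nz w')) :
    fwd w' (bwd w p) = crd w' (lft w p) := fwd_mk (lft_mem w p) hp

lemma contDiffOn_trans (w w' : Ch) : ContDiffOn ℂ ω (fun p => crd w' (lft w p)) (lft w ⁻¹' (Nz w')) :=
  (contDiffOn_crd w').comp (contDiff_lft w).contDiffOn (fun _ hp => hp)

instance : IsManifold 𝓘(ℂ, E29) ω Tot := by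
  refine isManifold_of_contDiffOn _ _ _ ?_
  rintro _ _ ⟨w, rfl⟩ ⟨w', rfl⟩
  have hs : (𝓘(ℂ, E29).symm ⁻¹' ((ch w).symm ≫ₕ ch w').source ∩ Set.range 𝓘(ℂ, E29)) ⊆
      lft w ⁻¹' (Nz w') := by
    rintro p ⟨hp, _⟩
    exact trans_source w w' hp
  refine ((contDiffOn_trans w w').mono hs).congr fun p hp => ?_
  exact trans_eq w w' (hs hp)

instance realManifold : IsManifold 𝓘(ℝ, E29) ∞ Tot := by
  refine isManifold_of_contDiffOn _ _ _ ?_
  rintro _ _ ⟨w, rfl⟩ ⟨w', rfl⟩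
  have hs : (𝓘(ℝ, E29).symm ⁻¹' ((ch w).symm ≫ₕ ch w').source ∩ Set.range 𝓘(ℝ, E29)) ⊆
      lft w ⁻¹' (Nz w') := by
    rintro p ⟨hp, _⟩
    exact trans_source w w' hp
  refine ((((contDiffOn_trans w w').restrict_scalars ℝ).of_le (by simp)).mono hs).congr fun p hp => ?_
  exact trans_eq w w' (hs hp)

lemma mem_atlas (w : Ch) : ch w ∈ atlas E29 Tot := ⟨w, rfl⟩

lemma contMDiffOn_fwd (w : Ch) : ContMDiffOn 𝓘(ℂ, E29) 𝓘(ℂ, E29) ω (fwd w) (src w) :=
  contMDiffOn_of_mem_maximalAtlas (e := ch w) (IsManifold.subset_maximalAtlas (mem_atlas w))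

lemma contMDiff_bwd (w : Ch) : ContMDiff 𝓘(ℂ, E29) 𝓘(ℂ, E29) ω (bwd w) := by
  rw [← contMDiffOn_univ]
  exact contMDiffOn_symm_of_mem_maximalAtlas (e := ch w)
    (IsManifold.subset_maximalAtlas (mem_atlas w))

lemma omega_ne_zero : (ω : WithTop ℕ∞) ≠ 0 := by simp

/-! ### compactness and connectedness -/

def KK : Set HH := {h | ‖ha h‖ = 1 ∧ ‖hb h‖ = 1 ∧ ‖he h‖ = 1 ∧
  FF h.1.1 h.1.2.1 h.1.2.2.1 h.1.2.2.2 = 0 ∧ ‖(hc h, h.2)‖ = 1}

lemma continuous_FF : Continuous (fun h : HH => FF h.1.1 h.1.2.1 h.1.2.2.1 h.1.2.2.2) := by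
  unfold FF qf
  refine continuous_finsetSum _ fun i _ => ?_
  refine Continuous.mul ?_ ((contDiff_mon i).continuous.comp (by fun_prop))
  have h1 : Continuous (fun h : HH => form1 h.1.1 h.1.2.2.1 h.1.2.2.2) :=
    differentiable_form1.continuous.comp (f := fun h : HH => (h.1.1, h.1.2.2.1, h.1.2.2.2))
      (by fun_prop)
  exact (continuous_apply i).comp h1

lemma isCompact_KK : IsCompact KK := by
  refine Metric.isCompact_of_isClosed_isBounded ?_ ?_
  · unfold KK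
    refine (isClosed_eq (by fun_prop) continuous_const).inter
      ((isClosed_eq (by fun_prop) continuous_const).inter
      ((isClosed_eq (by fun_prop) continuous_const).inter
      ((isClosed_eq continuous_FF continuous_const).inter
      (isClosed_eq (by fun_prop) continuous_const))))
  · refine (isBounded_iff_forall_norm_le).2 ⟨1, ?_⟩
    rintro ⟨⟨c, a, b, e⟩, τ⟩ ⟨h1, h2, h3, h4, h5⟩
    have h5' : ‖(c, τ)‖ = 1 := h5
    have h6 : ‖c‖ ≤ 1 := by rw [← h5']; exact norm_fst_le (c, τ)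
    have h7 : ‖τ‖ ≤ 1 := by rw [← h5']; exact norm_snd_le (c, τ)
    have h1' : ‖a‖ = 1 := h1
    have h2' : ‖b‖ = 1 := h2
    have h3' : ‖e‖ = 1 := h3
    simp only [Prod.norm_def, sup_le_iff]
    exact ⟨⟨h6, h1'.le, h2'.le, h3'.le⟩, h7⟩

lemma KK_sub : KK ⊆ CX := by
  rintro h ⟨h1, h2, h3, h4, h5⟩
  refine ⟨⟨?_, ?_, ?_, h4⟩, ?_⟩
  · exact norm_pos_iff.1 (by rw [show ‖h.1.2.1‖ = 1 from h1]; exact one_pos)
  · exact norm_pos_iff.1 (by rw [show ‖h.1.2.2.1‖ = 1 from h2]; exact one_pos)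
  · exact norm_pos_iff.1 (by rw [show ‖h.1.2.2.2‖ = 1 from h3]; exact one_pos)
  · by_contra hcon
    push Not at hcon
    have : ((hc h, h.2) : C3 × ℂ) = 0 := Prod.ext hcon.1 hcon.2
    rw [this, norm_zero] at h5
    exact zero_ne_one h5

lemma exists_KK (m : Tot) : ∃ h ∈ KK, mk h = m := by
  obtain ⟨h, hh, rfl⟩ := exists_mk m
  have hh' := hh
  obtain ⟨⟨h1, h2, h3, h4⟩, h5⟩ := hh'
  have n1 : ((‖ha h‖⁻¹ : ℝ) : ℂ) ≠ 0 := Complex.ofReal_ne_zero.2 (inv_ne_zero (norm_ne_zero_iff.2 h1))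
  have n2 : ((‖hb h‖⁻¹ : ℝ) : ℂ) ≠ 0 := Complex.ofReal_ne_zero.2 (inv_ne_zero (norm_ne_zero_iff.2 h2))
  have n3 : ((‖he h‖⁻¹ : ℝ) : ℂ) ≠ 0 := Complex.ofReal_ne_zero.2 (inv_ne_zero (norm_ne_zero_iff.2 h3))
  set g := scH ((‖ha h‖⁻¹ : ℝ) : ℂ) ((‖hb h‖⁻¹ : ℝ) : ℂ) ((‖he h‖⁻¹ : ℝ) : ℂ) 1 h with hg
  have hgm : g ∈ CX := scH_mem n1 n2 n3 one_ne_zero hh
  have hmk : mk g = mk h := mk_scH n1 n2 n3 one_ne_zero hh
  have hcn : ((hc g, g.2) : C3 × ℂ) ≠ 0 := by
    intro h0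
    rcases hgm.2 with h6 | h6
    · exact h6 (congrArg Prod.fst h0)
    · exact h6 (congrArg Prod.snd h0)
  have n4 : ((‖((hc g, g.2) : C3 × ℂ)‖⁻¹ : ℝ) : ℂ) ≠ 0 :=
    Complex.ofReal_ne_zero.2 (inv_ne_zero (norm_ne_zero_iff.2 hcn))
  refine ⟨scH 1 1 1 ((‖((hc g, g.2) : C3 × ℂ)‖⁻¹ : ℝ) : ℂ) g, ?_, ?_⟩
  · have hunit : ∀ v : V2, v ≠ 0 → ‖((‖v‖⁻¹ : ℝ) : ℂ) • v‖ = 1 := by
      intro v hv
      rw [norm_smul, Complex.norm_real, norm_inv, norm_norm, inv_mul_cancel₀ (norm_ne_zero_iff.2 hv)]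
    refine ⟨?_, ?_, ?_, (scH_mem one_ne_zero one_ne_zero one_ne_zero n4 hgm).1.2.2.2, ?_⟩
    · show ‖(1 : ℂ) • (((‖ha h‖⁻¹ : ℝ) : ℂ) • ha h)‖ = 1
      rw [one_smul]; exact hunit _ h1
    · show ‖(1 : ℂ) • (((‖hb h‖⁻¹ : ℝ) : ℂ) • hb h)‖ = 1
      rw [one_smul]; exact hunit _ h2
    · show ‖(1 : ℂ) • (((‖he h‖⁻¹ : ℝ) : ℂ) • he h)‖ = 1
      rw [one_smul]; exact hunit _ h3
    · set l : ℂ := ((‖((hc g, g.2) : C3 × ℂ)‖⁻¹ : ℝ) : ℂ) with hl
      show ‖((l • hc g, l * (1 : ℂ)⁻¹ * g.2) : C3 × ℂ)‖ = 1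
      have : ((l • hc g, l * (1 : ℂ)⁻¹ * g.2) : C3 × ℂ) = l • (hc g, g.2) := by
        rw [inv_one, mul_one]; rfl
      rw [this, norm_smul, hl, Complex.norm_real, norm_inv, norm_norm,
        inv_mul_cancel₀ (norm_ne_zero_iff.2 hcn)]
  · rw [mk_scH one_ne_zero one_ne_zero one_ne_zero n4 hgm, hmk]

instance : CompactSpace Tot := by
  have h1 : IsCompact (mk '' KK) := isCompact_KK.image_of_continuousOn (continuousOn_mk.mono KK_sub)
  have h2 : mk '' KK = Set.univ := by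
    ext m
    simp only [Set.mem_univ, iff_true]
    obtain ⟨h, hh, hm⟩ := exists_KK m
    exact ⟨h, hh, hm⟩
  rw [h2] at h1
  exact isCompact_univ_iff.1 h1

/-- homogeneous coordinates of a point lying in all charts -/
noncomputable def hbase : HH :=
  ((fun i j k => if (i, j, k) = ((0, 0, 0) : I3) then -26 else 1, (fun _ => 1), (fun _ => 1),
    (fun _ => 1)), 1)

lemma hbase_mem : hbase ∈ CX := by
  refine ⟨⟨?_, ?_, ?_, ?_⟩, Or.inr one_ne_zero⟩
  · intro h; exact one_ne_zero (congrFun h 0)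
  · intro h; exact one_ne_zero (congrFun h 0)
  · intro h; exact one_ne_zero (congrFun h 0)
  · show FF (fun i j k => if (i, j, k) = ((0, 0, 0) : I3) then -26 else 1) (fun _ => 1) (fun _ => 1)
      (fun _ => 1) = 0
    have hmon : ∀ i, mon i (fun _ => 1) = 1 := by intro i; fin_cases i <;> simp [mon]
    have h2 : ¬ (2 : Fin 3) = 0 := by decide
    have h1 : ¬ (1 : Fin 3) = 0 := by decide
    rw [FF_eq]
    simp only [hmon, Fin.sum_univ_three, Prod.mk.injEq, h1, h2, and_true, and_false,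
      if_true, if_false, mul_one]
    norm_num

lemma hbase_Nz (w : Ch) : hbase ∈ Nz w := by
  have h1 : ∀ n, nv hbase n ≠ 0 := by
    intro n
    rcases n with t | l
    · show (if (t.1, t.2.1, t.2.2) = ((0, 0, 0) : I3) then (-26 : ℂ) else 1) ≠ 0
      split_ifs <;> norm_num
    · show (1 : ℂ) * 1 ≠ 0
      norm_num
  exact ⟨one_ne_zero, one_ne_zero, one_ne_zero, h1 _⟩

instance : ConnectedSpace Tot := by
  have hmem : ∀ w, mk hbase ∈ Set.range (bwd w) := by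
    intro w
    exact ⟨fwd w (mk hbase), bwd_fwd w ((mk_mem_src hbase_mem w).2 (hbase_Nz w))⟩
  have h1 : (Set.univ : Set Tot) = ⋃ w : Ch, Set.range (bwd w) := by
    ext m
    simp only [Set.mem_univ, true_iff, Set.mem_iUnion]
    obtain ⟨w, hw⟩ := exists_src m
    exact ⟨w, fwd w m, bwd_fwd w hw⟩
  have h2 : IsPreconnected (Set.univ : Set Tot) := by
    rw [h1]
    exact isPreconnected_iUnion ⟨mk hbase, Set.mem_iInter.2 hmem⟩ fun w =>
      isPreconnected_range (continuous_bwd w)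
  exact { isPreconnected_univ := h2, toNonempty := ⟨mk hbase⟩ }

/-! ### discs -/

lemma mk_disc {R : ℝ} {f : ℂ → HH} (hf : DifferentiableOn ℂ f (ball 0 R))
    (hm : ∀ ζ ∈ ball (0 : ℂ) R, f ζ ∈ CX) :
    ContMDiffOn 𝓘(ℂ, ℂ) 𝓘(ℂ, E29) ω (fun ζ => mk (f ζ)) (ball 0 R) := by
  intro ζ hζ
  have hnhds : ball (0 : ℂ) R ∈ 𝓝 ζ := isOpen_ball.mem_nhds hζ
  obtain ⟨w, hw⟩ := exists_Nz (hm ζ hζ)
  have hfc : ContinuousAt f ζ := hf.continuousOn.continuousAt hnhds
  have ev : ∀ᶠ η in 𝓝 ζ, f η ∈ Nz w := hfc.eventually ((isOpen_Nz w).mem_nhds hw)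
  have hfa : ContDiffAt ℂ ω f ζ := (hf.analyticAt hnhds).contDiffAt
  have h1 : ContDiffAt ℂ ω (fun η => crd w (f η)) ζ :=
    ((contDiffOn_crd w).contDiffAt ((isOpen_Nz w).mem_nhds hw)).comp ζ hfa
  have h2 : ContMDiffAt 𝓘(ℂ, ℂ) 𝓘(ℂ, E29) ω (fun η => bwd w (crd w (f η))) ζ :=
    (contMDiff_bwd w _).comp ζ h1.contMDiffAt
  refine (h2.congr_of_eventuallyEq ?_).contMDiffWithinAt
  filter_upwards [ev, hnhds] with η h3 h4
  rw [← fwd_mk (hm η h4) h3, bwd_fwd w ((mk_mem_src (hm η h4) w).2 h3)]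

/-- discs in a chart lift to homogeneous coordinates -/
lemma disc_lift {w : Ch} {S : Set Tot} (hS : S ⊆ src w) {r : ℝ} {f : ℂ → Tot}
    (hf : IsHolDisc E29 S r f) :
    DifferentiableOn ℂ (fun ζ => fwd w (f ζ)) (ball 0 r) ∧
    DifferentiableOn ℂ (fun ζ => lft w (fwd w (f ζ))) (ball 0 r) ∧
    ∀ ζ ∈ ball (0 : ℂ) r, mk (lft w (fwd w (f ζ))) = f ζ := by
  have h1 : ContMDiffOn 𝓘(ℂ, ℂ) 𝓘(ℂ, E29) ω (fun ζ => fwd w (f ζ)) (ball 0 r) :=
    (contMDiffOn_fwd w).comp hf.1 (fun ζ hζ => hS (hf.2 hζ))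
  have h2 : DifferentiableOn ℂ (fun ζ => fwd w (f ζ)) (ball 0 r) :=
    (contMDiffOn_iff_contDiffOn.1 h1).differentiableOn omega_ne_zero
  refine ⟨h2, ?_, fun ζ hζ => bwd_fwd w (hS (hf.2 hζ))⟩
  exact ((contDiff_lft w).differentiable omega_ne_zero).comp_differentiableOn h2

lemma deriv_coord_ne_zero {w : Ch} {S : Set Tot} (hS : S ⊆ src w) {r : ℝ} (hr : 0 < r)
    {f : ℂ → Tot} (hf : IsHolDisc E29 S r f) (hd : mfderiv 𝓘(ℂ, ℂ) 𝓘(ℂ, E29) f 0 ≠ 0) :
    fderiv ℂ (fun ζ => fwd w (f ζ)) 0 ≠ 0 := by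
  intro h0
  apply hd
  set u : ℂ → E29 := fun ζ => fwd w (f ζ) with hu
  have hmem : (0 : ℂ) ∈ ball (0 : ℂ) r := mem_ball_self hr
  have h1 : f =ᶠ[𝓝 0] (bwd w ∘ u) := by
    filter_upwards [isOpen_ball.mem_nhds hmem] with ζ hζ
    exact (bwd_fwd w (hS (hf.2 hζ))).symm
  have h2 : DifferentiableAt ℂ u 0 :=
    (disc_lift hS hf).1.differentiableAt (isOpen_ball.mem_nhds hmem)
  have h3 : MDifferentiableAt 𝓘(ℂ, E29) 𝓘(ℂ, E29) (bwd w) (u 0) :=
    (contMDiff_bwd w (u 0)).mdifferentiableAt omega_ne_zero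
  have h4 := mfderiv_comp (0 : ℂ) h3 h2.mdifferentiableAt
  rw [mfderiv_eq_fderiv, h0] at h4
  rw [h1.mfderiv_eq, h4]
  exact ContinuousLinearMap.comp_zero _

/-! ### potentials -/

lemma log_en {I : Type} [Fintype I] (v : I → ℂ) :
    Real.log (en v) = (1 / 2) * Real.log (∑ i, Complex.normSq (v i)) := by
  unfold en
  rw [Real.log_sqrt (Finset.sum_nonneg fun i _ => by positivity)]
  simp only [Complex.normSq_eq_norm_sq]
  ring

lemma en_smul {I : Type} [Fintype I] (α : ℂ) (v : I → ℂ) : en (α • v) = ‖α‖ * en v := by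
  unfold en
  have h1 : ∑ i, ‖(α • v) i‖ ^ 2 = ‖α‖ ^ 2 * ∑ i, ‖v i‖ ^ 2 := by
    rw [Finset.mul_sum]
    refine Finset.sum_congr rfl fun i _ => ?_
    rw [Pi.smul_apply, norm_smul, mul_pow]
  rw [h1, Real.sqrt_mul (by positivity), Real.sqrt_sq (norm_nonneg _)]

lemma en_le {I : Type} [Fintype I] [Nonempty I] {v : I → ℂ} {M : ℝ} (hM : ∀ i, ‖v i‖ ≤ M) :
    en v ≤ Real.sqrt (Fintype.card I) * M := by
  have hM0 : 0 ≤ M := (norm_nonneg _).trans (hM (Classical.arbitrary I))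
  unfold en
  rw [← Real.sqrt_sq hM0, ← Real.sqrt_mul (by positivity)]
  refine Real.sqrt_le_sqrt ?_
  calc ∑ i, ‖v i‖ ^ 2 ≤ ∑ i : I, M ^ 2 := Finset.sum_le_sum fun i _ => by
        have := hM i; gcongr
    _ = Fintype.card I * M ^ 2 := by rw [Finset.sum_const, nsmul_eq_mul, Finset.card_univ]

lemma continuous_en {I : Type} [Fintype I] : Continuous (en : (I → ℂ) → ℝ) := by
  unfold en
  fun_prop

lemma laplace_const_mul (c : ℝ) (u : ℂ → ℝ) :
    laplaceAtZero (fun ζ => c * u ζ) = c * laplaceAtZero u := by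
  unfold laplaceAtZero
  rw [iteratedDeriv_const_mul_field c (fun s : ℝ => u (s : ℂ)),
    iteratedDeriv_const_mul_field c (fun s : ℝ => u ((s : ℂ) * Complex.I))]
  ring

lemma laplace_sum {ι : Type} [Fintype ι] {u : ι → ℂ → ℝ} (hu : ∀ i, ContDiffAt ℝ 2 (u i) 0)
    (α : ι → ℝ) :
    laplaceAtZero (fun ζ => ∑ i, α i * u i ζ) = ∑ i, α i * laplaceAtZero (u i) := by
  have hl : ∀ (d : ℂ) (i : ι), ContDiffAt ℝ 2 (fun s : ℝ => α i * u i ((s : ℂ) * d)) 0 := by
    intro d i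
    refine contDiffAt_const.mul ?_
    have h1 : ContDiffAt ℝ 2 (fun s : ℝ => (s : ℂ) * d) 0 :=
      (Complex.ofRealCLM.contDiff.contDiffAt).mul contDiffAt_const
    refine ContDiffAt.comp (g := u i) (f := fun s : ℝ => (s : ℂ) * d) 0 ?_ h1
    simpa using hu i
  have hl1 : ∀ (i : ι), ContDiffAt ℝ 2 (fun s : ℝ => α i * u i (s : ℂ)) 0 := by
    intro i; simpa using hl 1 i
  unfold laplaceAtZero
  rw [iteratedDeriv_fun_sum fun i _ => hl1 i, iteratedDeriv_fun_sum fun i _ => hl Complex.I i,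
    ← Finset.sum_add_distrib]
  refine Finset.sum_congr rfl fun i _ => ?_
  rw [iteratedDeriv_const_mul_field (α i) (fun s : ℝ => u i (s : ℂ)),
    iteratedDeriv_const_mul_field (α i) (fun s : ℝ => u i ((s : ℂ) * Complex.I))]
  ring

lemma laplace_congr {r : ℝ} (hr : 0 < r) {u v : ℂ → ℝ}
    (huv : ∀ ζ ∈ ball (0 : ℂ) r, u ζ = v ζ) : laplaceAtZero u = laplaceAtZero v := by
  have hlin : ∀ d : ℂ, ‖d‖ = 1 → (fun s : ℝ => u ((s : ℂ) * d)) =ᶠ[𝓝 0]
      fun s : ℝ => v ((s : ℂ) * d) := by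
    intro d hd
    have : ∀ᶠ s in 𝓝 (0 : ℝ), |s| < r := by
      have : ContinuousAt (fun s : ℝ => |s|) 0 := continuous_abs.continuousAt
      exact this.eventually (gt_mem_nhds (by simpa using hr))
    filter_upwards [this] with s hs
    exact huv _ (by simp [hd, hs])
  have l1 := (hlin 1 (by simp)).iteratedDeriv_eq 2
  have l2 := (hlin Complex.I (by simp)).iteratedDeriv_eq 2
  simp only [mul_one] at l1
  unfold laplaceAtZero
  rw [l1, l2]

lemma laplace_comb {ι : Type} [Fintype ι] {r : ℝ} (hr : 0 < r) {h : ι → ℂ → ℂ}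
    (hh : ∀ i, DifferentiableOn ℂ (h i) (ball 0 r)) (h0 : ∀ i, h i 0 ≠ 0) (α : ι → ℝ) :
    laplaceAtZero (fun ζ => ∑ i, α i * Real.log ‖h i ζ‖) = 0 := by
  have hmem : ball (0 : ℂ) r ∈ 𝓝 (0 : ℂ) := isOpen_ball.mem_nhds (mem_ball_self hr)
  rw [laplace_sum]
  · refine Finset.sum_eq_zero fun i _ => ?_
    have h1 := laplace_log_normSq hr (hh i) (h0 i)
    have h2 : (fun ζ => Real.log ‖h i ζ‖) = fun ζ => (1 / 2) * Real.log (Complex.normSq (h i ζ)) := by
      funext ζ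
      rw [Complex.normSq_eq_norm_sq, Real.log_pow]
      push_cast; ring
    rw [h2, laplace_const_mul, h1]; ring
  · intro i
    have h1 : ContDiffAt ℂ 2 (h i) 0 := ((hh i).analyticAt hmem).contDiffAt
    exact ((h1.restrict_scalars ℝ).norm ℝ (h0 i)).log (norm_ne_zero_iff.2 (h0 i))

/-- the potential of the class -/
noncomputable def Th (h : HH) : ℝ :=
  Real.goldenRatio ^ 2 * Real.log (en (he h)) + Real.goldenRatio * Real.log (en (hb h)) -
    Real.log (en (ha h)) + 2 * Real.log (en (nv h))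

/-- the potential of the Kähler class -/
noncomputable def Kp (h : HH) : ℝ :=
  Real.log (en (ha h)) + Real.log (en (hb h)) + Real.log (en (he h)) + Real.log (en (nv h))

/-- the four homogeneous coordinates which are normalised in the chart `w` -/
def chv (w : Ch) (h : HH) : Fin 4 → ℂ := ![he h w.k, hb h w.j, ha h w.i, nv h (w.nu w.η)]

noncomputable def wt4 : Fin 4 → ℝ := ![Real.goldenRatio ^ 2, Real.goldenRatio, -1, 2]

noncomputable def lw (w : Ch) (h : HH) : ℝ := ∑ i, wt4 i * Real.log ‖chv w h i‖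

noncomputable def kw (w : Ch) (h : HH) : ℝ := ∑ i, 1 * Real.log ‖chv w h i‖

lemma chv_ne {w : Ch} {h : HH} (hw : h ∈ Nz w) (i : Fin 4) : chv w h i ≠ 0 := by
  fin_cases i
  · exact hw.2.2.1
  · exact hw.2.1
  · exact hw.1
  · exact hw.2.2.2

lemma differentiable_nv (n : NI) : Differentiable ℂ (fun h : HH => nv h n) :=
  (contDiff_pi.1 contDiff_nv n).differentiable omega_ne_zero

lemma differentiable_chv (w : Ch) (i : Fin 4) : Differentiable ℂ (fun h : HH => chv w h i) := by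
  fin_cases i
  · show Differentiable ℂ fun h : HH => h.1.2.2.2 w.k
    fun_prop
  · show Differentiable ℂ fun h : HH => h.1.2.2.1 w.j
    fun_prop
  · show Differentiable ℂ fun h : HH => h.1.2.1 w.i
    fun_prop
  · exact differentiable_nv _

lemma Th_scH {α β γ l : ℂ} (hα : α ≠ 0) (hβ : β ≠ 0) (hγ : γ ≠ 0) (hl : l ≠ 0) {h : HH}
    (hh : h ∈ CX) : Th (scH α β γ l h) = Th h + (Real.goldenRatio ^ 2 * Real.log ‖γ‖ +
      Real.goldenRatio * Real.log ‖β‖ - Real.log ‖α‖ + 2 * Real.log ‖l‖) := by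
  have n1 := (en_pos hh.1.1).ne'
  have n2 := (en_pos hh.1.2.1).ne'
  have n3 := (en_pos hh.1.2.2.1).ne'
  have n4 := (en_pos (nv_ne hh)).ne'
  unfold Th
  rw [nv_scH hβ, en_smul]
  show Real.goldenRatio ^ 2 * Real.log (en (γ • he h)) +
    Real.goldenRatio * Real.log (en (β • hb h)) - Real.log (en (α • ha h)) + _ = _
  rw [en_smul, en_smul, en_smul, Real.log_mul (norm_ne_zero_iff.2 hγ) n3,
    Real.log_mul (norm_ne_zero_iff.2 hβ) n2, Real.log_mul (norm_ne_zero_iff.2 hα) n1,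
    Real.log_mul (norm_ne_zero_iff.2 hl) n4]
  ring

lemma Kp_scH {α β γ l : ℂ} (hα : α ≠ 0) (hβ : β ≠ 0) (hγ : γ ≠ 0) (hl : l ≠ 0) {h : HH}
    (hh : h ∈ CX) : Kp (scH α β γ l h) = Kp h + (Real.log ‖γ‖ +
      Real.log ‖β‖ + Real.log ‖α‖ + Real.log ‖l‖) := by
  have n1 := (en_pos hh.1.1).ne'
  have n2 := (en_pos hh.1.2.1).ne'
  have n3 := (en_pos hh.1.2.2.1).ne'
  have n4 := (en_pos (nv_ne hh)).ne'
  unfold Kp
  rw [nv_scH hβ, en_smul]
  show Real.log (en (α • ha h)) +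
    Real.log (en (β • hb h)) + Real.log (en (γ • he h)) + _ = _
  rw [en_smul, en_smul, en_smul, Real.log_mul (norm_ne_zero_iff.2 hγ) n3,
    Real.log_mul (norm_ne_zero_iff.2 hβ) n2, Real.log_mul (norm_ne_zero_iff.2 hα) n1,
    Real.log_mul (norm_ne_zero_iff.2 hl) n4]
  ring

lemma Th_scl {w : Ch} {h : HH} (hh : h ∈ CX) (hw : h ∈ Nz w) : Th (scl w h) = Th h - lw w h := by
  unfold scl
  rw [Th_scH (inv_ne_zero hw.1) (inv_ne_zero hw.2.1) (inv_ne_zero hw.2.2.1)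
    (inv_ne_zero hw.2.2.2) hh]
  unfold lw
  rw [Fin.sum_univ_four]
  simp only [norm_inv, Real.log_inv, wt4, chv, Matrix.cons_val]
  ring

lemma Kp_scl {w : Ch} {h : HH} (hh : h ∈ CX) (hw : h ∈ Nz w) : Kp (scl w h) = Kp h - kw w h := by
  unfold scl
  rw [Kp_scH (inv_ne_zero hw.1) (inv_ne_zero hw.2.1) (inv_ne_zero hw.2.2.1)
    (inv_ne_zero hw.2.2.2) hh]
  unfold kw
  rw [Fin.sum_univ_four]
  simp only [norm_inv, Real.log_inv, chv, Matrix.cons_val]
  ring

lemma contDiff_normSq : ContDiff ℝ ∞ (fun z : ℂ => Complex.normSq z) := by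
  have h : (fun z : ℂ => Complex.normSq z) = fun z : ℂ => z.re * z.re + z.im * z.im := by
    funext z; exact Complex.normSq_apply z
  rw [h]
  exact (Complex.reCLM.contDiff.mul Complex.reCLM.contDiff).add
    (Complex.imCLM.contDiff.mul Complex.imCLM.contDiff)

lemma contDiff_log_en {I : Type} [Fintype I] {F : E29 → I → ℂ} (hF : ContDiff ℂ ω F)
    (h0 : ∀ p, F p ≠ 0) : ContDiff ℝ ∞ (fun p => Real.log (en (F p))) := by
  simp only [log_en]
  refine contDiff_const.mul (ContDiff.log ?_ fun p => ?_)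
  · refine ContDiff.sum fun k _ => ?_
    exact contDiff_normSq.comp (((contDiff_pi.1 hF k).restrict_scalars ℝ).of_le (by simp))
  · obtain ⟨i, hi⟩ : ∃ i, F p i ≠ 0 := by
      by_contra hcon
      push Not at hcon
      exact h0 p (funext hcon)
    exact (sum_normSq_pos hi).ne'

lemma contDiff_parts (w : Ch) : ContDiff ℂ ω (fun p => ha (lft w p)) ∧
    ContDiff ℂ ω (fun p => hb (lft w p)) ∧ ContDiff ℂ ω (fun p => he (lft w p)) ∧
    ContDiff ℂ ω (fun p => nv (lft w p)) := by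
  have h := contDiff_lft w
  exact ⟨h.fst.snd.fst, h.fst.snd.snd.fst, h.fst.snd.snd.snd, contDiff_nv.comp h⟩

lemma contDiff_Th (w : Ch) : ContDiff ℝ ∞ (fun p : E29 => Th (lft w p)) := by
  obtain ⟨h1, h2, h3, h4⟩ := contDiff_parts w
  have k1 := contDiff_log_en h1 fun p => (lft_mem w p).1.1
  have k2 := contDiff_log_en h2 fun p => (lft_mem w p).1.2.1
  have k3 := contDiff_log_en h3 fun p => (lft_mem w p).1.2.2.1
  have k4 := contDiff_log_en h4 fun p => nv_ne (lft_mem w p)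
  unfold Th
  exact (((contDiff_const.mul k3).add (contDiff_const.mul k2)).sub k1).add (contDiff_const.mul k4)

lemma contDiff_Kp (w : Ch) : ContDiff ℝ ∞ (fun p : E29 => Kp (lft w p)) := by
  obtain ⟨h1, h2, h3, h4⟩ := contDiff_parts w
  have k1 := contDiff_log_en h1 fun p => (lft_mem w p).1.1
  have k2 := contDiff_log_en h2 fun p => (lft_mem w p).1.2.1
  have k3 := contDiff_log_en h3 fun p => (lft_mem w p).1.2.2.1
  have k4 := contDiff_log_en h4 fun p => nv_ne (lft_mem w p)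
  unfold Kp
  exact ((k1.add k2).add k3).add k4

lemma contMDiffOn_pot {Φ : HH → ℝ} (w : Ch) (hΦ : ContDiff ℝ ∞ (fun p : E29 => Φ (lft w p))) :
    ContMDiffOn 𝓘(ℝ, E29) 𝓘(ℝ, ℝ) ∞ (fun m => Φ (lft w (fwd w m))) (src w) := by
  have h1 : ContMDiffOn 𝓘(ℝ, E29) 𝓘(ℝ, E29) ∞ (fwd w) (src w) :=
    contMDiffOn_of_mem_maximalAtlas (e := ch w) (IsManifold.subset_maximalAtlas (mem_atlas w))
  have h2 : ContMDiffOn 𝓘(ℝ, E29) 𝓘(ℝ, ℝ) ∞ (fun p : E29 => Φ (lft w p)) Set.univ :=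
    contMDiffOn_iff_contDiffOn.2 hΦ.contDiffOn
  exact h2.comp h1 (fun _ _ => Set.mem_univ _)

/-- change of chart along points -/
lemma lft_fwd {w w' : Ch} {m : Tot} (hm : m ∈ src w) (hm' : m ∈ src w') :
    lft w (fwd w m) ∈ Nz w' ∧ lft w' (fwd w' m) = scl w' (lft w (fwd w m)) := by
  have h1 : mk (lft w (fwd w m)) = m := bwd_fwd w hm
  have h2 : lft w (fwd w m) ∈ Nz w' := by
    rw [← mk_mem_src (lft_mem w _) w', h1]; exact hm'
  refine ⟨h2, ?_⟩
  have h3 := lft_fwd_mk (lft_mem w (fwd w m)) h2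
  rw [h1] at h3
  exact h3

lemma pluriharmonic_aux {Φ : HH → ℝ} {α : Fin 4 → ℝ}
    (hΦ : ∀ (w : Ch) (h : HH), h ∈ CX → h ∈ Nz w →
      Φ (scl w h) = Φ h - ∑ i, α i * Real.log ‖chv w h i‖)
    (w w' : Ch) (r : ℝ) (f : ℂ → Tot) (hr : 0 < r) (hf : IsHolDisc E29 (src w ∩ src w') r f) :
    laplaceAtZero (fun ζ => Φ (lft w (fwd w (f ζ))) - Φ (lft w' (fwd w' (f ζ)))) = 0 := by
  obtain ⟨-, hd, -⟩ := disc_lift (w := w) Set.inter_subset_left hf
  have h0 : (0 : ℂ) ∈ ball (0 : ℂ) r := mem_ball_self hr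
  rw [laplace_congr (r := r) hr (v := fun ζ => ∑ i, α i *
    Real.log ‖chv w' (lft w (fwd w (f ζ))) i‖)]
  · refine laplace_comb hr (h := fun i ζ => chv w' (lft w (fwd w (f ζ))) i) ?_ ?_ α
    · intro i
      exact (differentiable_chv w' i).comp_differentiableOn hd
    · intro i
      exact chv_ne (lft_fwd (hf.2 h0).1 (hf.2 h0).2).1 i
  · intro ζ hζ
    obtain ⟨h1, h2⟩ := lft_fwd (hf.2 hζ).1 (hf.2 hζ).2
    rw [h2, hΦ w' _ (lft_mem w _) h1]
    ring

noncomputable def thetaForm : ClosedForm E29 Tot where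
  J := Ch
  V := src
  pot := fun w m => Th (lft w (fwd w m))
  isOpen_V := isOpen_src
  cover := exists_src
  smooth := fun w => contMDiffOn_pot w (contDiff_Th w)
  pluriharmonic := fun w w' r f hr hf =>
    pluriharmonic_aux (α := wt4) (fun _ _ hh hw => Th_scl hh hw) w w' r f hr hf

noncomputable def kapForm : ClosedForm E29 Tot where
  J := Ch
  V := src
  pot := fun w m => Kp (lft w (fwd w m))
  isOpen_V := isOpen_src
  cover := exists_src
  smooth := fun w => contMDiffOn_pot w (contDiff_Kp w)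
  pluriharmonic := fun w w' r f hr hf =>
    pluriharmonic_aux (α := fun _ => 1) (fun _ _ hh hw => Kp_scl hh hw) w w' r f hr hf

/-- products of homogeneous coordinates (Segre) -/
def sgr (k : Fin 2 × Fin 2 × Fin 2 × NI) (h : HH) : ℂ :=
  ha h k.1 * hb h k.2.1 * he h k.2.2.1 * nv h k.2.2.2

lemma sum_sgr (h : HH) : ∑ k, Complex.normSq (sgr k h) =
    (∑ i, Complex.normSq (ha h i)) * (∑ i, Complex.normSq (hb h i)) *
      (∑ i, Complex.normSq (he h i)) * (∑ i, Complex.normSq (nv h i)) := by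
  rw [Fintype.sum_prod_type]
  simp only [Fintype.sum_prod_type (α₁ := Fin 2), sgr, map_mul]
  simp only [← Finset.mul_sum, ← Finset.sum_mul]

lemma Kp_eq {h : HH} (hh : h ∈ CX) : Kp h = (1 / 2) * Real.log (∑ k, Complex.normSq (sgr k h)) := by
  have hne : ∀ {I : Type} [Fintype I] {v : I → ℂ}, v ≠ 0 → (∑ i, Complex.normSq (v i)) ≠ 0 := by
    intro I _ v hv
    obtain ⟨i, hi⟩ : ∃ i, v i ≠ 0 := by
      by_contra hcon
      push Not at hcon
      exact hv (funext hcon)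
    exact (sum_normSq_pos hi).ne'
  have n1 := hne hh.1.1
  have n2 := hne hh.1.2.1
  have n3 := hne hh.1.2.2.1
  have n4 := hne (nv_ne hh)
  unfold Kp
  rw [sum_sgr, log_en, log_en, log_en, log_en,
    Real.log_mul (mul_ne_zero (mul_ne_zero n1 n2) n3) n4, Real.log_mul (mul_ne_zero n1 n2) n3,
    Real.log_mul n1 n2]
  ring

lemma isKahler_kapForm : kapForm.IsKahler := by
  intro w r f hr hf hd
  obtain ⟨hu, hl, -⟩ := disc_lift (w := w) subset_rfl hf
  have hne := deriv_coord_ne_zero (w := w) subset_rfl hr hf hd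
  show 0 < laplaceAtZero (fun ζ => Kp (lft w (fwd w (f ζ))))
  set u : ℂ → E29 := fun ζ => fwd w (f ζ) with hudef
  have h0 : (0 : ℂ) ∈ ball (0 : ℂ) r := mem_ball_self hr
  have hu0 : DifferentiableAt ℂ u 0 := hu.differentiableAt (isOpen_ball.mem_nhds h0)
  have e0 : (fun ζ => Kp (lft w (fwd w (f ζ)))) = fun ζ => (1 / 2) *
      Real.log (∑ k, Complex.normSq (sgr k (lft w (u ζ)))) := by
    funext ζ
    exact Kp_eq (lft_mem w _)
  rw [e0, laplace_const_mul]
  have hF : ∀ k, DifferentiableOn ℂ (fun ζ => sgr k (lft w (u ζ))) (ball 0 r) := by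
    intro k
    have h1 : DifferentiableOn ℂ (fun ζ => nv (lft w (u ζ)) k.2.2.2) (ball 0 r) :=
      (differentiable_nv _).comp_differentiableOn hl
    have h2 : DifferentiableOn ℂ (fun ζ => ha (lft w (u ζ)) k.1) (ball 0 r) :=
      differentiableOn_pi.1 hl.fst.snd.fst _
    have h3 : DifferentiableOn ℂ (fun ζ => hb (lft w (u ζ)) k.2.1) (ball 0 r) :=
      differentiableOn_pi.1 hl.fst.snd.snd.fst _
    have h4 : DifferentiableOn ℂ (fun ζ => he (lft w (u ζ)) k.2.2.1) (ball 0 r) :=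
      differentiableOn_pi.1 hl.fst.snd.snd.snd _
    exact ((h2.mul h3).mul h4).mul h1
  have v1 : ∀ p, ha (lft w p) w.i = 1 := fun p => vec_self _ _
  have v2 : ∀ p, hb (lft w p) w.j = 1 := fun p => vec_self _ _
  have v3 : ∀ p, he (lft w p) w.k = 1 := fun p => vec_self _ _
  have v4 : ∀ p, nv (lft w p) (w.nu w.η) = 1 := fun p => nv_lft_eta w p
  have hone : ∀ ζ, sgr (w.i, w.j, w.k, w.nu w.η) (lft w (u ζ)) = 1 := by
    intro ζ
    simp only [sgr, v1, v2, v3, v4]; norm_num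
  have h1 : HasFDerivAt u (fderiv ℂ u 0) 0 := hu0.hasFDerivAt
  have d1 : HasDerivAt (fun ζ => (u ζ).1) ((fderiv ℂ u 0 1).1) 0 := (h1.fst).hasDerivAt
  have d2 : HasDerivAt (fun ζ => (u ζ).2.1) ((fderiv ℂ u 0 1).2.1) 0 := (h1.snd.fst).hasDerivAt
  have d3 : HasDerivAt (fun ζ => (u ζ).2.2.1) ((fderiv ℂ u 0 1).2.2.1) 0 :=
    (h1.snd.snd.fst).hasDerivAt
  have d4 : ∀ r, HasDerivAt (fun ζ => (u ζ).2.2.2 r) ((fderiv ℂ u 0 1).2.2.2 r) 0 := fun r =>
    hasDerivAt_pi.1 (h1.snd.snd.snd).hasDerivAt r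
  have hcase : (fderiv ℂ u 0 1).1 ≠ 0 ∨ (fderiv ℂ u 0 1).2.1 ≠ 0 ∨ (fderiv ℂ u 0 1).2.2.1 ≠ 0 ∨
      ∃ r, (fderiv ℂ u 0 1).2.2.2 r ≠ 0 := by
    by_contra hcon
    push Not at hcon
    obtain ⟨c1, c2, c3, c4⟩ := hcon
    apply hne
    refine ContinuousLinearMap.ext_ring ?_
    exact Prod.ext c1 (Prod.ext c2 (Prod.ext c3 (funext c4)))
  refine mul_pos (by norm_num) ?_
  rcases hcase with h | h | h | ⟨s, h⟩
  · refine laplace_log_pos (fun k ζ => sgr k (lft w (u ζ))) hr hF _ (fun ζ _ => hone ζ)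
      (op w.i, w.j, w.k, w.nu w.η) ?_
    have e : (fun ζ => sgr (op w.i, w.j, w.k, w.nu w.η) (lft w (u ζ))) = fun ζ => (u ζ).1 := by
      funext ζ
      have : ha (lft w (u ζ)) (op w.i) = (u ζ).1 := vec_op _ _
      simp only [sgr, v2, v3, v4, this, mul_one]
    rw [e, d1.deriv]; exact h
  · refine laplace_log_pos (fun k ζ => sgr k (lft w (u ζ))) hr hF _ (fun ζ _ => hone ζ)
      (w.i, op w.j, w.k, w.nu w.η) ?_
    have e : (fun ζ => sgr (w.i, op w.j, w.k, w.nu w.η) (lft w (u ζ))) = fun ζ => (u ζ).2.1 := by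
      funext ζ
      have : hb (lft w (u ζ)) (op w.j) = (u ζ).2.1 := vec_op _ _
      simp only [sgr, v1, v3, v4, this, mul_one, one_mul]
    rw [e, d2.deriv]; exact h
  · refine laplace_log_pos (fun k ζ => sgr k (lft w (u ζ))) hr hF _ (fun ζ _ => hone ζ)
      (w.i, w.j, op w.k, w.nu w.η) ?_
    have e : (fun ζ => sgr (w.i, w.j, op w.k, w.nu w.η) (lft w (u ζ))) = fun ζ => (u ζ).2.2.1 := by
      funext ζ
      have : he (lft w (u ζ)) (op w.k) = (u ζ).2.2.1 := vec_op _ _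
      simp only [sgr, v1, v2, v4, this, mul_one, one_mul]
    rw [e, d3.deriv]; exact h
  · refine laplace_log_pos (fun k ζ => sgr k (lft w (u ζ))) hr hF _ (fun ζ _ => hone ζ)
      (w.i, w.j, w.k, w.nu (w.eqv.symm s).1) ?_
    have e : (fun ζ => sgr (w.i, w.j, w.k, w.nu (w.eqv.symm s).1) (lft w (u ζ))) =
        fun ζ => (u ζ).2.2.2 s := by
      funext ζ
      have : nv (lft w (u ζ)) (w.nu (w.eqv.symm s).1) = (u ζ).2.2.2 s := by
        rw [nv_lft w _ (w.eqv.symm s).2.1, raw_rest]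
      simp only [sgr, v1, v2, v3, this, one_mul]
    rw [e, (d4 s).deriv]; exact h

/-! ### theta-psh functions in homogeneous coordinates -/

lemma ereal_add_neg (a : EReal) (x : ℝ) : a + ((x : ℝ) : EReal) + ((-x : ℝ) : EReal) = a := by
  rw [add_assoc, ← EReal.coe_add, add_neg_cancel, EReal.coe_zero, add_zero]

lemma ereal_add_neg' (a : EReal) (x : ℝ) : a + ((-x : ℝ) : EReal) + ((x : ℝ) : EReal) = a := by
  rw [add_assoc, ← EReal.coe_add, neg_add_cancel, EReal.coe_zero, add_zero]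

lemma continuousOn_pot {Φ : HH → ℝ} (w : Ch) (hΦ : ContDiff ℝ ∞ (fun p : E29 => Φ (lft w p))) :
    ContinuousOn (fun m => Φ (lft w (fwd w m))) (src w) :=
  hΦ.continuous.comp_continuousOn (continuousOn_fwd w)

lemma usc_of_thetaPsh {u : Tot → EReal}
    (hu : ∀ j, IsPshOn E29 (thetaForm.V j) (fun x => u x + ((thetaForm.pot j x : ℝ) : EReal))) :
    UpperSemicontinuous u ∧ ∀ m, u m < ⊤ := by
  constructor
  · intro m
    obtain ⟨w, hw⟩ := exists_src m
    have h1 : UpperSemicontinuousOn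
        (fun x => u x + ((Th (lft w (fwd w x)) : ℝ) : EReal)) (src w) := (hu w).2.1
    have h2 := usc_add_real (h := fun x => -Th (lft w (fwd w x))) h1
      (continuousOn_pot w (contDiff_Th w)).neg
    have h3 : (fun x => u x + ((Th (lft w (fwd w x)) : ℝ) : EReal) +
        ((-Th (lft w (fwd w x)) : ℝ) : EReal)) = u := by
      funext x; exact ereal_add_neg _ _
    rw [h3] at h2
    have h4 := h2 m hw
    intro y hy
    have h5 := h4 y hy
    rwa [(isOpen_src w).nhdsWithin_eq hw] at h5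
  · intro m
    obtain ⟨w, hw⟩ := exists_src m
    have h1 : u m + ((Th (lft w (fwd w m)) : ℝ) : EReal) < ⊤ := (hu w).1 m hw
    rw [lt_top_iff_ne_top] at h1 ⊢
    intro h2
    apply h1
    rw [h2]
    exact EReal.top_add_coe _

lemma circleAverage_rescale (g : ℂ → ℝ) (a : ℂ) (r : ℝ) :
    Real.circleAverage (fun z => g (a + r * z)) 0 1 = Real.circleAverage g a r := by
  unfold Real.circleAverage
  congr 1
  refine intervalIntegral.integral_congr fun θ _ => ?_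
  show g (a + r * circleMap 0 1 θ) = g (circleMap a r θ)
  simp [circleMap]

lemma circleAverage_lw {r : ℝ} {a : ℂ} {h : Fin 4 → ℂ → ℂ}
    (hh : ∀ i, AnalyticOnNhd ℂ (h i) (closedBall a |r|))
    (h0 : ∀ i, ∀ ζ ∈ closedBall a |r|, h i ζ ≠ 0) (α : Fin 4 → ℝ) :
    Real.circleAverage (fun ζ => ∑ i, α i * Real.log ‖h i ζ‖) a r =
      ∑ i, α i * Real.log ‖h i a‖ := by
  have hci : ∀ i, CircleIntegrable (fun ζ => Real.log ‖h i ζ‖) a r := by
    intro i
    refine ContinuousOn.circleIntegrable' ?_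
    refine ContinuousOn.log ?_ fun ζ hζ => (norm_ne_zero_iff.2 (h0 i ζ (sphere_subset_closedBall hζ)))
    exact ((hh i).continuousOn.mono sphere_subset_closedBall).norm
  have hci' : ∀ i, CircleIntegrable (fun ζ => α i * Real.log ‖h i ζ‖) a r := fun i =>
    (hci i).const_mul _
  rw [Real.circleAverage_fun_sum fun i _ => hci' i]
  refine Finset.sum_congr rfl fun i _ => ?_
  have e2 : Real.circleAverage (fun ζ => α i * Real.log ‖h i ζ‖) a r =
      α i * Real.circleAverage (fun ζ => Real.log ‖h i ζ‖) a r := by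
    have := Real.circleAverage_fun_smul (a := α i) (f := fun ζ => Real.log ‖h i ζ‖) (c := a) (R := r)
    simpa using this
  rw [e2, (hh i).circleAverage_log_norm_of_ne_zero (h0 i)]

lemma scl_pot {w : Ch} {h : HH} (hh : h ∈ CX) (hw : h ∈ Nz w) :
    Th (lft w (fwd w (mk h))) = Th h - lw w h := by
  rw [lft_fwd_mk hh hw, Th_scl hh hw]

lemma local_subMean {u : Tot → EReal}
    (hu : ∀ j, IsPshOn E29 (thetaForm.V j) (fun x => u x + ((thetaForm.pot j x : ℝ) : EReal)))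
    {R : ℝ} {F : ℂ → HH} (hF : DifferentiableOn ℂ F (ball 0 R))
    (hm : ∀ ζ ∈ ball (0 : ℂ) R, F ζ ∈ CX) {a : ℂ} (ha : a ∈ ball (0 : ℂ) R) :
    ∀ᶠ r in 𝓝[>] (0 : ℝ),
      SubMean (fun ζ => u (mk (F ζ)) + ((Th (F ζ) : ℝ) : EReal)) a r := by
  obtain ⟨w, hw⟩ := exists_Nz (hm a ha)
  have hnh : ball (0 : ℂ) R ∈ 𝓝 a := isOpen_ball.mem_nhds ha
  have hFc : ContinuousAt F a := hF.continuousOn.continuousAt hnh
  have ev : ∀ᶠ ζ in 𝓝 a, ζ ∈ ball (0 : ℂ) R ∧ F ζ ∈ Nz w :=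
    (eventually_mem_set.2 hnh).and (hFc.eventually ((isOpen_Nz w).mem_nhds hw))
  obtain ⟨δ, hδ, hsub⟩ := Metric.eventually_nhds_iff_ball.1 ev
  filter_upwards [Ioo_mem_nhdsGT (show (0 : ℝ) < δ / 2 by positivity)] with r hr
  obtain ⟨hr0, hr1⟩ := hr
  have habs : |r| = r := abs_of_pos hr0
  intro g hg hle
  -- the rescaled disc
  have hin : ∀ z : ℂ, ‖z‖ < 2 → a + r * z ∈ ball a δ := by
    intro z hz
    rw [mem_ball, dist_eq_norm, add_sub_cancel_left, norm_mul, Complex.norm_real,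
      Real.norm_of_nonneg hr0.le]
    nlinarith [norm_nonneg z]
  set G : ℂ → HH := fun z => F (a + r * z) with hG
  have hGd : DifferentiableOn ℂ G (ball 0 2) := by
    refine hF.comp (by fun_prop) fun z hz => ?_
    exact (hsub _ (hin z (by simpa using hz))).1
  have hGm : ∀ z ∈ ball (0 : ℂ) 2, G z ∈ CX := fun z hz =>
    hm _ (hsub _ (hin z (by simpa using hz))).1
  have hGw : ∀ z ∈ ball (0 : ℂ) 2, G z ∈ Nz w := fun z hz =>
    (hsub _ (hin z (by simpa using hz))).2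
  have hdisc : IsHolDisc E29 (src w) 2 (fun z => mk (G z)) :=
    ⟨mk_disc hGd hGm, fun z hz => (mk_mem_src (hGm z hz) w).2 (hGw z hz)⟩
  -- retraction
  set ρ : ℂ → ℂ := fun z => (((max 1 ‖z‖)⁻¹ : ℝ) : ℂ) * z with hρ
  have hmax : ∀ z : ℂ, 0 < max 1 ‖z‖ := fun z => lt_max_of_lt_left one_pos
  have hρc : Continuous ρ := by
    refine Continuous.mul ?_ continuous_id
    exact Complex.continuous_ofReal.comp
      ((continuous_const.max continuous_norm).inv₀ fun z => (hmax z).ne')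
  have hρn : ∀ z, ‖ρ z‖ ≤ 1 := by
    intro z
    rw [hρ]
    simp only [norm_mul, Complex.norm_real, norm_inv, Real.norm_of_nonneg (hmax z).le]
    rw [inv_mul_le_iff₀ (hmax z), mul_one]
    exact le_max_right _ _
  have hρ1 : ∀ z : ℂ, ‖z‖ = 1 → ρ z = z := by
    intro z hz
    simp [hρ, hz]
  have hcl : ∀ ζ ∈ closedBall a |r|, ζ ∈ ball a δ := by
    intro ζ hζ
    rw [habs, mem_closedBall] at hζ
    rw [mem_ball]; linarith
  have hchd : ∀ i, AnalyticOnNhd ℂ (fun ζ => chv w (F ζ) i) (ball a δ) := by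
    intro i
    refine DifferentiableOn.analyticOnNhd ?_ isOpen_ball
    exact (differentiable_chv w i).comp_differentiableOn (hF.mono fun ζ hζ => (hsub ζ hζ).1)
  have hch0 : ∀ i, ∀ ζ ∈ ball a δ, chv w (F ζ) i ≠ 0 := fun i ζ hζ => chv_ne (hsub ζ hζ).2 i
  have hlwc : ContinuousOn (fun ζ => lw w (F ζ)) (ball a δ) := by
    unfold lw
    refine continuousOn_finsetSum _ fun i _ => continuousOn_const.mul ?_
    exact ((hchd i).continuousOn.norm).log fun ζ hζ => norm_ne_zero_iff.2 (hch0 i ζ hζ)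
  have hρin : ∀ z, a + r * ρ z ∈ ball a δ := fun z => hin _ (by have := hρn z; linarith)
  set g' : ℂ → ℝ := fun z => g (a + r * z) - lw w (F (a + r * ρ z)) with hg'
  have hg'c : Continuous g' := by
    refine (hg.comp (by fun_prop)).sub ?_
    exact hlwc.comp_continuous (by fun_prop) hρin
  have hval : ∀ z ∈ ball (0 : ℂ) 2, Th (lft w (fwd w (mk (G z)))) = Th (G z) - lw w (G z) :=
    fun z hz => scl_pot (hGm z hz) (hGw z hz)
  have key := (hu w).2.2 2 _ one_lt_two hdisc g' hg'c (by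
    intro z hz
    have hz2 : z ∈ ball (0 : ℂ) 2 := by simp [hz]
    show u (mk (G z)) + ((Th (lft w (fwd w (mk (G z)))) : ℝ) : EReal) ≤ _
    rw [hval z hz2]
    have h1 : u (mk (G z)) + ((Th (G z) : ℝ) : EReal) ≤ ((g (a + r * z) : ℝ) : EReal) := by
      refine hle (a + r * z) ?_
      rw [add_sub_cancel_left, norm_mul, hz, mul_one, Complex.norm_real, Real.norm_of_nonneg hr0.le]
    simp only [hg']
    rw [hρ1 z hz, sub_eq_add_neg, sub_eq_add_neg, EReal.coe_add, EReal.coe_add, ← add_assoc]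
    exact add_le_add h1 le_rfl)
  have h02 : (0 : ℂ) ∈ ball (0 : ℂ) 2 := by simp
  have hG0 : G 0 = F a := by simp [hG]
  have key' : u (mk (G 0)) + ((Th (lft w (fwd w (mk (G 0)))) : ℝ) : EReal) ≤
      ((Real.circleAverage g' 0 1 : ℝ) : EReal) := key
  rw [hval 0 h02, hG0] at key'
  have havg : Real.circleAverage g' 0 1 = Real.circleAverage g a r - lw w (F a) := by
    have h1 : Real.circleAverage g' 0 1 =
        Real.circleAverage (fun z => g (a + r * z) - lw w (F (a + r * z))) 0 1 := by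
      refine Real.circleAverage_congr_sphere fun z hz => ?_
      have hz' : ‖z‖ = 1 := by simpa using hz
      simp only [hg', hρ1 z hz']
    have h2 := circleAverage_rescale (fun ζ => g ζ - lw w (F ζ)) a r
    have hsph : ContinuousOn (fun ζ => lw w (F ζ)) (sphere a |r|) :=
      hlwc.mono fun ζ hζ => hcl ζ (sphere_subset_closedBall hζ)
    rw [h1, h2, Real.circleAverage_fun_sub hg.continuousOn.circleIntegrable'
      hsph.circleIntegrable']
    congr 1
    exact circleAverage_lw (h := fun i ζ => chv w (F ζ) i)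
      (fun i => (hchd i).mono hcl) (fun i ζ hζ => hch0 i ζ (hcl ζ hζ)) wt4
  rw [havg] at key'
  show u (mk (F a)) + ((Th (F a) : ℝ) : EReal) ≤ _
  have h3 := add_le_add key' (le_refl ((lw w (F a) : ℝ) : EReal))
  rw [← EReal.coe_add, sub_add_cancel, add_assoc, ← EReal.coe_add, sub_add_cancel] at h3
  exact h3

lemma continuousOn_Th : ContinuousOn Th CX := by
  have hn : ContinuousOn (fun h : HH => en (nv h)) CX :=
    (continuous_en.comp contDiff_nv.continuous).continuousOn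
  have h1 : ContinuousOn (fun h : HH => en (ha h)) CX := continuous_en.comp_continuousOn (by fun_prop)
  have h2 : ContinuousOn (fun h : HH => en (hb h)) CX := continuous_en.comp_continuousOn (by fun_prop)
  have h3 : ContinuousOn (fun h : HH => en (he h)) CX := continuous_en.comp_continuousOn (by fun_prop)
  unfold Th
  exact (((continuousOn_const.mul (h3.log fun h hh => (en_pos hh.1.2.2.1).ne')).add
    (continuousOn_const.mul (h2.log fun h hh => (en_pos hh.1.2.1).ne'))).sub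
    (h1.log fun h hh => (en_pos hh.1.1).ne')).add
    (continuousOn_const.mul (hn.log fun h hh => (en_pos (nv_ne hh)).ne'))

lemma subMean_theta {u : Tot → EReal}
    (hu : ∀ j, IsPshOn E29 (thetaForm.V j) (fun x => u x + ((thetaForm.pot j x : ℝ) : EReal)))
    {R : ℝ} (hR : 1 < R) {F : ℂ → HH} (hF : DifferentiableOn ℂ F (ball 0 R))
    (hm : ∀ ζ ∈ ball (0 : ℂ) R, F ζ ∈ CX) :
    SubMean (fun ζ => u (mk (F ζ)) + ((Th (F ζ) : ℝ) : EReal)) 0 1 := by
  obtain ⟨h1, h2⟩ := usc_of_thetaPsh hu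
  have hsub : closedBall (0 : ℂ) 1 ⊆ ball 0 R := closedBall_subset_ball hR
  have hFc : ContinuousOn F (closedBall 0 1) := hF.continuousOn.mono hsub
  refine subMean_of_local ?_ ?_ ?_
  · refine usc_add_real (v := fun ζ => u (mk (F ζ))) (h := fun ζ => Th (F ζ)) ?_
      (continuousOn_Th.comp hFc fun ζ hζ => hm ζ (hsub hζ))
    have h3 : ContinuousOn (fun ζ => mk (F ζ)) (closedBall 0 1) :=
      continuousOn_mk.comp hFc fun ζ hζ => hm ζ (hsub hζ)
    exact UpperSemicontinuousOn.comp (f := u) (s := Set.univ) (h1.upperSemicontinuousOn _) h3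
      (fun _ _ => Set.mem_univ _)
  · intro ζ _
    have h4 := h2 (mk (F ζ))
    exact EReal.add_lt_top h4.ne (EReal.coe_ne_top _)
  · intro a ha
    exact local_subMean hu hF hm (ball_subset_ball hR.le ha)

lemma inj_mem {s : St} (hs : s ∈ Con) : ((s, 0) : HH) ∈ CX :=
  ⟨⟨hs.2.1, hs.2.2.1, hs.2.2.2.1, hs.2.2.2.2⟩, Or.inl hs.1⟩

lemma en_le_norm {I : Type} [Fintype I] [Nonempty I] (v : I → ℂ) :
    en v ≤ Real.sqrt (Fintype.card I) * ‖v‖ := en_le fun i => norm_le_pi_norm v i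

lemma norm_le_en' {n : ℕ} (v : Fin n → ℂ) : ‖v‖ ≤ en v :=
  (pi_norm_le_iff_of_nonneg (en_nonneg v)).2 fun i => norm_le_en v i

lemma Th_inj_le {s : St} (hs : s ∈ Con) : Th (s, 0) ≤
    ((Real.goldenRatio ^ 2 + Real.goldenRatio) * Real.log (Real.sqrt 2) +
      2 * Real.log (Real.sqrt 29)) + beta s + 2 * Real.log ‖s.1‖ := by
  have hs' := inj_mem hs
  have g1 := Real.goldenRatio_pos
  have pc : 0 < ‖s.1‖ := norm_pos_iff.2 hs.1
  have pa : 0 < ‖s.2.1‖ := norm_pos_iff.2 hs.2.1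
  have pb : 0 < ‖s.2.2.1‖ := norm_pos_iff.2 hs.2.2.1
  have pe : 0 < ‖s.2.2.2‖ := norm_pos_iff.2 hs.2.2.2.1
  have s2 : 0 < Real.sqrt 2 := Real.sqrt_pos.2 (by norm_num)
  have s29 : 0 < Real.sqrt 29 := Real.sqrt_pos.2 (by norm_num)
  have e1 : Real.log ‖s.2.1‖ ≤ Real.log (en (ha (s, 0))) := Real.log_le_log pa (norm_le_en' _)
  have e2 : Real.log (en (hb (s, 0))) ≤ Real.log (Real.sqrt 2) + Real.log ‖s.2.2.1‖ := by
    rw [← Real.log_mul s2.ne' pb.ne']
    refine Real.log_le_log (en_pos hs'.1.2.1) ?_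
    have := en_le_norm s.2.2.1
    simpa using this
  have e3 : Real.log (en (he (s, 0))) ≤ Real.log (Real.sqrt 2) + Real.log ‖s.2.2.2‖ := by
    rw [← Real.log_mul s2.ne' pe.ne']
    refine Real.log_le_log (en_pos hs'.1.2.2.1) ?_
    have := en_le_norm s.2.2.2
    simpa using this
  have e4 : Real.log (en (nv (s, 0))) ≤ Real.log (Real.sqrt 29) + Real.log ‖s.1‖ := by
    rw [← Real.log_mul s29.ne' pc.ne']
    refine Real.log_le_log (en_pos (nv_ne hs')) ?_
    have h5 : ∀ n, ‖nv (s, 0) n‖ ≤ ‖s.1‖ := by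
      intro n
      rcases n with t | l
      · exact ((norm_le_pi_norm (s.1 t.1 t.2.1) t.2.2).trans (norm_le_pi_norm (s.1 t.1) t.2.1)).trans
          (norm_le_pi_norm s.1 t.1)
      · show ‖(0 : ℂ) * s.2.2.1 l‖ ≤ _
        rw [zero_mul, norm_zero]; exact norm_nonneg _
    have h6 := en_le h5
    have h7 : ((Fintype.card NI : ℕ) : ℝ) = 29 := by
      have : Fintype.card NI = 29 := by simp
      rw [this]; norm_num
    rwa [h7] at h6
  unfold Th beta
  nlinarith [mul_le_mul_of_nonneg_left e2 g1.le, mul_le_mul_of_nonneg_left e3 (sq_nonneg Real.goldenRatio)]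

/-- every nonpositive `θ`-psh function is `-∞` at the points whose orbit reaches a vanishing form. -/
lemma forced_pole {u : Tot → EReal} (hu : IsThetaPsh thetaForm u) (h0 : ∀ m, u m ≤ 0) {j : ℕ}
    {s : St} (hs : ∀ i ≤ j, stp^[i] s ∈ Con)
    (hz : form1 (stp^[j] s).1 (stp^[j] s).2.2.1 (stp^[j] s).2.2.2 = 0) : u (mk (s, 0)) = ⊥ := by
  have key := forced_bot' (φ := fun s => u (mk (s, 0)) + ((Th (s, 0) : ℝ) : EReal)) ?_
    (C := (Real.goldenRatio ^ 2 + Real.goldenRatio) * Real.log (Real.sqrt 2) +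
      2 * Real.log (Real.sqrt 29)) (μ := 2) ?_ hs hz
  · have key' : u (mk (s, 0)) + ((Th (s, 0) : ℝ) : EReal) = ⊥ := key
    rcases EReal.add_eq_bot_iff.1 key' with h | h
    · exact h
    · exact absurd h (EReal.coe_ne_bot _)
  · intro R f hR hf
    exact subMean_theta hu.2 hR (F := fun ζ => (f ζ, 0)) (hf.1.prodMk (differentiableOn_const 0))
      fun ζ hζ => inj_mem (hf.2 ζ hζ)
  · intro s hs
    calc u (mk (s, 0)) + ((Th (s, 0) : ℝ) : EReal) ≤ 0 + ((Th (s, 0) : ℝ) : EReal) :=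
          add_le_add (h0 _) le_rfl
      _ = ((Th (s, 0) : ℝ) : EReal) := zero_add _
      _ ≤ _ := EReal.coe_le_coe_iff.2 (Th_inj_le hs)

/-! ### functions on the manifold from invariant functions of homogeneous coordinates -/

noncomputable def rep (m : Tot) : HH := Classical.choose (exists_mk m)

lemma rep_mem (m : Tot) : rep m ∈ CX := (Classical.choose_spec (exists_mk m)).1

lemma mk_rep (m : Tot) : mk (rep m) = m := (Classical.choose_spec (exists_mk m)).2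

/-- invariance under the torus action -/
def Inv (D : HH → EReal) : Prop := ∀ α β γ l : ℂ, α ≠ 0 → β ≠ 0 → γ ≠ 0 → l ≠ 0 →
  ∀ h ∈ CX, D (scH α β γ l h) = D h

lemma Inv.eq {D : HH → EReal} (hD : Inv D) {h h' : HH} (hh : h ∈ CX) (hh' : h' ∈ CX)
    (e : mk h = mk h') : D h = D h' := by
  obtain ⟨w, hw⟩ := exists_Nz hh
  have hw' : h' ∈ Nz w := by
    rw [← mk_mem_src hh' w, ← e]
    exact (mk_mem_src hh w).2 hw
  have h1 : scl w h = scl w h' := by
    rw [← lft_fwd_mk hh hw, ← lft_fwd_mk hh' hw', e]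
  have h2 : D (scl w h) = D h := hD _ _ _ _ (inv_ne_zero hw.1) (inv_ne_zero hw.2.1)
    (inv_ne_zero hw.2.2.1) (inv_ne_zero hw.2.2.2) h hh
  have h3 : D (scl w h') = D h' := hD _ _ _ _ (inv_ne_zero hw'.1) (inv_ne_zero hw'.2.1)
    (inv_ne_zero hw'.2.2.1) (inv_ne_zero hw'.2.2.2) h' hh'
  rw [← h2, h1, h3]

lemma Inv.rep_mk {D : HH → EReal} (hD : Inv D) {h : HH} (hh : h ∈ CX) : D (rep (mk h)) = D h :=
  hD.eq (rep_mem _) hh (mk_rep _)

lemma Inv.rep_eq {D : HH → EReal} (hD : Inv D) {w : Ch} {m : Tot} (hm : m ∈ src w) :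
    D (rep m) = D (lft w (fwd w m)) :=
  hD.eq (rep_mem _) (lft_mem w _) ((mk_rep m).trans (bwd_fwd w hm).symm)

lemma isPshOn_aux {D : HH → EReal} (hD : Inv D) (htop : ∀ h ∈ CX, D h < ⊤)
    (husc : UpperSemicontinuousOn D CX) {w : Ch} {S : Set Tot} (hS : S ⊆ src w)
    {P : Tot → ℝ} (hP : ContinuousOn P S)
    (hsub : ∀ (r : ℝ) (f : ℂ → Tot), 1 < r → IsHolDisc E29 S r f →
      SubMean (fun ζ => D (lft w (fwd w (f ζ))) + ((P (f ζ) : ℝ) : EReal)) 0 1) :
    IsPshOn E29 S (fun m => D (rep m) + ((P m : ℝ) : EReal)) := by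
  refine ⟨?_, ?_, ?_⟩
  · intro m _
    exact EReal.add_lt_top (htop _ (rep_mem m)).ne (EReal.coe_ne_top _)
  · refine usc_add_real (v := fun m => D (rep m)) ?_ hP
    have h1 : UpperSemicontinuousOn (fun m => D (lft w (fwd w m))) S :=
      UpperSemicontinuousOn.comp (f := D) (s := CX) husc
        ((contDiff_lft w).continuous.comp_continuousOn ((continuousOn_fwd w).mono hS))
        (fun m _ => lft_mem w _)
    intro m hm y hy
    have h2 : D (lft w (fwd w m)) < y := by rw [← hD.rep_eq (hS hm)]; exact hy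
    filter_upwards [h1 m hm y h2, self_mem_nhdsWithin] with m' h3 h4
    rw [hD.rep_eq (hS h4)]
    exact h3
  · intro r f hr hf g hg hle
    have hr0 : 0 < r := by linarith
    have hmem : ∀ ζ : ℂ, ‖ζ‖ ≤ 1 → f ζ ∈ S := fun ζ hζ => hf.2 (by
      rw [mem_ball_zero_iff]; linarith)
    have h1 := hsub r f hr hf g hg (fun ζ hζ => by
      have hζ' : ‖ζ‖ = 1 := by simpa using hζ
      show D (lft w (fwd w (f ζ))) + ((P (f ζ) : ℝ) : EReal) ≤ _
      rw [← hD.rep_eq (hS (hmem ζ hζ'.le))]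
      exact hle ζ hζ')
    show D (rep (f 0)) + ((P (f 0) : ℝ) : EReal) ≤ _
    rw [hD.rep_eq (hS (hmem 0 (by simp)))]
    exact h1

lemma thetaPsh_of_hom {D : HH → EReal} (hD : Inv D) (htop : ∀ h ∈ CX, D h < ⊤)
    (husc : UpperSemicontinuousOn D CX) (hne : ∃ h ∈ CX, D h ≠ ⊥)
    (hsub : ∀ (R : ℝ) (F : ℂ → HH), 1 < R → DifferentiableOn ℂ F (ball 0 R) →
      (∀ ζ ∈ ball (0 : ℂ) R, F ζ ∈ CX) →
      SubMean (fun ζ => D (F ζ) + ((Th (F ζ) : ℝ) : EReal)) 0 1) :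
    IsThetaPsh thetaForm (fun m => D (rep m)) := by
  refine ⟨?_, fun w => ?_⟩
  · obtain ⟨h, hh, hb⟩ := hne
    refine ⟨mk h, ?_⟩
    show D (rep (mk h)) ≠ ⊥
    rw [hD.rep_mk hh]; exact hb
  · refine isPshOn_aux (w := w) (S := src w) hD htop husc subset_rfl
      (P := fun m => Th (lft w (fwd w m))) (continuousOn_pot w (contDiff_Th w)) ?_
    intro r f hr hf
    obtain ⟨-, h1, -⟩ := disc_lift (w := w) subset_rfl hf
    exact hsub r _ hr h1 fun ζ _ => lft_mem w _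

lemma SubMean.congr {v v' : ℂ → EReal} (h : ∀ ζ ∈ closedBall (0 : ℂ) 1, v ζ = v' ζ)
    (hv : SubMean v 0 1) : SubMean v' 0 1 := by
  intro g hg hle
  rw [← h 0 (by simp)]
  refine hv g hg fun ζ hζ => ?_
  rw [h ζ (by simp at hζ; simp [hζ])]
  exact hle ζ hζ

lemma elog_add_coe {x : ℝ} (hx : 0 ≤ x) (y : ℝ) :
    elog x + ((y : ℝ) : EReal) = elog (x * Real.exp y) := by
  rw [elog_mul hx, elog_of_pos (Real.exp_pos y), Real.log_exp]

/-! ### scaling of the dynamics -/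

noncomputable def scs (α β γ l : ℂ) (s : St) : St := (l • s.1, α • s.2.1, β • s.2.2.1, γ • s.2.2.2)

lemma form1_smul (c : C3) (b e : V2) (l β γ : ℂ) :
    form1 (l • c) (β • b) (γ • e) = (l * β ^ 2 * γ ^ 2) • form1 c b e := by
  funext i
  simp only [form1, mon_smul', Pi.smul_apply, smul_eq_mul, Finset.mul_sum]
  refine Finset.sum_congr rfl fun j _ => Finset.sum_congr rfl fun k _ => ?_
  ring

lemma flip_smul (q : Fin 3 → ℂ) (z : V2) (μ : ℂ) {α : ℂ} (hα : α ≠ 0) :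
    flip (μ • q) (α • z) = (μ / α) • flip q z := by
  by_cases h : z 0 = 0
  · unfold flip
    rw [if_pos (by simp [h]), if_pos h]
    funext i
    fin_cases i
    · simp [h]
      rcases eq_or_ne (z 1) 0 with h1 | h1
      · simp [h1]
      · field_simp
    · simp
      rcases eq_or_ne (z 1) 0 with h1 | h1
      · simp [h1]
      · field_simp
  · unfold flip
    rw [if_neg (by simp [h, hα]), if_neg h]
    funext i
    fin_cases i
    · simp; field_simp
    · simp; field_simp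

lemma stp_scs {α β γ l : ℂ} (hα : α ≠ 0) (s : St) :
    stp (scs α β γ l s) = scs β γ (l * β ^ 2 * γ ^ 2 / α) l (stp s) := by
  unfold stp scs
  refine Prod.ext rfl (Prod.ext rfl (Prod.ext rfl ?_))
  show flip (form1 (l • s.1) (β • s.2.2.1) (γ • s.2.2.2)) (α • s.2.1) = _
  rw [form1_smul, flip_smul _ _ _ hα]

lemma iter_scs {α β γ l : ℂ} (hα : α ≠ 0) (hβ : β ≠ 0) (hγ : γ ≠ 0) (hl : l ≠ 0) (s : St) (k : ℕ) :
    ∃ x y z : ℂ, x ≠ 0 ∧ y ≠ 0 ∧ z ≠ 0 ∧ stp^[k] (scs α β γ l s) = scs x y z l (stp^[k] s) ∧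
      Real.log ‖y‖ + Real.log ‖z‖ = (Nat.fib (2 * k + 2) : ℝ) * Real.log ‖γ‖ +
        (Nat.fib (2 * k + 1) : ℝ) * Real.log ‖β‖ - (Nat.fib (2 * k) : ℝ) * Real.log ‖α‖ +
        ((Nat.fib (2 * k + 1) : ℝ) - 1) * Real.log ‖l‖ ∧
      Real.log ‖x‖ + Real.log ‖y‖ = (Nat.fib (2 * k) : ℝ) * Real.log ‖γ‖ +
        ((Nat.fib (2 * k + 1) : ℝ) - Nat.fib (2 * k)) * Real.log ‖β‖ -
        (2 * (Nat.fib (2 * k) : ℝ) - Nat.fib (2 * k + 1)) * Real.log ‖α‖ +
        ((Nat.fib (2 * k + 1) : ℝ) - Nat.fib (2 * k) - 1) * Real.log ‖l‖ := by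
  induction k with
  | zero =>
    refine ⟨α, β, γ, hα, hβ, hγ, rfl, ?_, ?_⟩
    · norm_num; ring
    · norm_num; ring
  | succ k ih =>
    obtain ⟨x, y, z, hx, hy, hz, he, h1, h2⟩ := ih
    have hz' : l * y ^ 2 * z ^ 2 / x ≠ 0 :=
      div_ne_zero (mul_ne_zero (mul_ne_zero hl (pow_ne_zero 2 hy)) (pow_ne_zero 2 hz)) hx
    refine ⟨y, z, l * y ^ 2 * z ^ 2 / x, hy, hz, hz', ?_, ?_, ?_⟩
    · rw [Function.iterate_succ_apply', Function.iterate_succ_apply', he, stp_scs hx]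
    · have e1 : Real.log ‖l * y ^ 2 * z ^ 2 / x‖ = Real.log ‖l‖ + 2 * Real.log ‖y‖ +
          2 * Real.log ‖z‖ - Real.log ‖x‖ := by
        have nl := norm_ne_zero_iff.2 hl
        have ny := norm_ne_zero_iff.2 hy
        have nz := norm_ne_zero_iff.2 hz
        have nx := norm_ne_zero_iff.2 hx
        rw [norm_div, norm_mul, norm_mul, norm_pow, norm_pow,
          Real.log_div (by positivity) nx, Real.log_mul (by positivity) (by positivity),
          Real.log_mul nl (by positivity), Real.log_pow, Real.log_pow]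
        push_cast; ring
      have f1 : (Nat.fib (2 * (k + 1)) : ℝ) = Nat.fib (2 * k) + Nat.fib (2 * k + 1) := by
        exact_mod_cast (Nat.fib_add_two : Nat.fib (2 * k + 2) = _)
      have f2 : (Nat.fib (2 * (k + 1) + 1) : ℝ) = Nat.fib (2 * k) + 2 * Nat.fib (2 * k + 1) := by
        have h3 : Nat.fib (2 * (k + 1) + 1) = Nat.fib (2 * k + 1) + Nat.fib (2 * k + 2) :=
          Nat.fib_add_two
        have h4 : Nat.fib (2 * k + 2) = Nat.fib (2 * k) + Nat.fib (2 * k + 1) := Nat.fib_add_two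
        rw [h3, h4]; push_cast; ring
      have f3 : (Nat.fib (2 * (k + 1) + 2) : ℝ) = 2 * Nat.fib (2 * k) + 3 * Nat.fib (2 * k + 1) := by
        have h3 : Nat.fib (2 * (k + 1) + 2) = Nat.fib (2 * (k + 1)) + Nat.fib (2 * (k + 1) + 1) :=
          Nat.fib_add_two
        rw [h3]; push_cast; rw [f1, f2]; ring
      have f4 : (Nat.fib (2 * k + 2) : ℝ) = Nat.fib (2 * k) + Nat.fib (2 * k + 1) := by
        exact_mod_cast (Nat.fib_add_two : Nat.fib (2 * k + 2) = _)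
      rw [e1, f1, f2, f3]
      rw [f4] at h1
      linear_combination 3 * h1 - h2
    · have f1 : (Nat.fib (2 * (k + 1)) : ℝ) = Nat.fib (2 * k) + Nat.fib (2 * k + 1) := by
        exact_mod_cast (Nat.fib_add_two : Nat.fib (2 * k + 2) = _)
      have f2 : (Nat.fib (2 * (k + 1) + 1) : ℝ) = Nat.fib (2 * k) + 2 * Nat.fib (2 * k + 1) := by
        have h3 : Nat.fib (2 * (k + 1) + 1) = Nat.fib (2 * k + 1) + Nat.fib (2 * k + 2) :=
          Nat.fib_add_two
        have h4 : Nat.fib (2 * k + 2) = Nat.fib (2 * k) + Nat.fib (2 * k + 1) := Nat.fib_add_two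
        rw [h3, h4]; push_cast; ring
      have f4 : (Nat.fib (2 * k + 2) : ℝ) = Nat.fib (2 * k) + Nat.fib (2 * k + 1) := by
        exact_mod_cast (Nat.fib_add_two : Nat.fib (2 * k + 2) = _)
      rw [f1, f2]
      rw [f4] at h1
      linear_combination h1

lemma Qk_scs {α β γ l : ℂ} (hα : α ≠ 0) (hβ : β ≠ 0) (hγ : γ ≠ 0) (hl : l ≠ 0) {s : St}
    (hs : s ∈ Con0) {Ns : ℝ} (hN : 0 < Ns) (k : ℕ) :
    Qk (‖l‖ * Ns) (scs α β γ l s) k = Qk Ns s k := by
  obtain ⟨x, y, z, hx, hy, hz, he, h1, -⟩ := iter_scs hα hβ hγ hl s k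
  have pa : 0 < ‖s.2.1‖ := norm_pos_iff.2 hs.1
  have pb : 0 < ‖s.2.2.1‖ := norm_pos_iff.2 hs.2.1
  have pe : 0 < ‖s.2.2.2‖ := norm_pos_iff.2 hs.2.2.1
  have nα := norm_pos_iff.2 hα
  have nβ := norm_pos_iff.2 hβ
  have nγ := norm_pos_iff.2 hγ
  have nl := norm_pos_iff.2 hl
  have ny := norm_pos_iff.2 hy
  have nz := norm_pos_iff.2 hz
  have hf : 1 ≤ Nat.fib (2 * k + 1) := Nat.fib_pos.2 (by omega)
  have hkey : ‖y‖ * ‖z‖ * ‖α‖ ^ Nat.fib (2 * k) =
      ‖γ‖ ^ Nat.fib (2 * k + 2) * ‖β‖ ^ Nat.fib (2 * k + 1) * ‖l‖ ^ (Nat.fib (2 * k + 1) - 1) := by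
    refine Real.log_injOn_pos (Set.mem_Ioi.2 (by positivity)) (Set.mem_Ioi.2 (by positivity)) ?_
    rw [Real.log_mul (by positivity) (by positivity), Real.log_mul ny.ne' nz.ne',
      Real.log_mul (by positivity) (by positivity), Real.log_mul (by positivity) (by positivity),
      Real.log_pow, Real.log_pow, Real.log_pow, Real.log_pow, Nat.cast_sub hf]
    push_cast
    linear_combination h1
  unfold Qk
  rw [he]
  show ‖y • (stp^[k] s).2.2.1‖ * ‖z • (stp^[k] s).2.2.2‖ * ‖α • s.2.1‖ ^ Nat.fib (2 * k) /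
    (‖γ • s.2.2.2‖ ^ Nat.fib (2 * k + 2) * ‖β • s.2.2.1‖ ^ Nat.fib (2 * k + 1) *
      (‖l‖ * Ns) ^ (Nat.fib (2 * k + 1) - 1)) = _
  rw [norm_smul, norm_smul, norm_smul, norm_smul, norm_smul, mul_pow, mul_pow, mul_pow, mul_pow,
    div_eq_div_iff (by positivity) (by positivity)]
  linear_combination (‖(stp^[k] s).2.2.1‖ * ‖(stp^[k] s).2.2.2‖ * ‖s.2.1‖ ^ Nat.fib (2 * k) *
    (‖s.2.2.2‖ ^ Nat.fib (2 * k + 2) * ‖s.2.2.1‖ ^ Nat.fib (2 * k + 1) *
      Ns ^ (Nat.fib (2 * k + 1) - 1))) * hkey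

/-! ### the Green function -/

lemma pi_norm_le_en {I : Type} [Fintype I] (v : I → ℂ) : ‖v‖ ≤ en v :=
  (pi_norm_le_iff_of_nonneg (en_nonneg v)).2 fun i => norm_le_en v i

noncomputable def Nsh (h : HH) : ℝ := 18 * ‖nv h‖

lemma Nsh_pos {h : HH} (hh : h ∈ CX) : 0 < Nsh h := by
  have := norm_pos_iff.2 (nv_ne hh)
  unfold Nsh; positivity

lemma Nsh_ge (h : HH) : 18 * ‖h.1.1‖ ≤ Nsh h := by
  unfold Nsh
  have h1 : ‖h.1.1‖ ≤ ‖nv h‖ := by
    refine (pi_norm_le_iff_of_nonneg (norm_nonneg _)).2 fun i => ?_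
    refine (pi_norm_le_iff_of_nonneg (norm_nonneg _)).2 fun j => ?_
    refine (pi_norm_le_iff_of_nonneg (norm_nonneg _)).2 fun k => ?_
    exact norm_le_pi_norm (nv h) (Sum.inl (i, j, k))
  linarith

lemma Nsh_scH {α β γ l : ℂ} (hβ : β ≠ 0) (h : HH) : Nsh (scH α β γ l h) = ‖l‖ * Nsh h := by
  unfold Nsh
  rw [nv_scH hβ, norm_smul]; ring

noncomputable def Wg (h : HH) : ℝ :=
  Real.goldenRatio ^ 2 * Real.log ‖he h‖ + Real.goldenRatio * Real.log ‖hb h‖ -
    1 * Real.log ‖ha h‖ + Real.goldenRatio * Real.log (Nsh h)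

noncomputable def wk (k : ℕ) (h : HH) : ℝ :=
  cc k * (Nat.fib (2 * k + 2) : ℝ) * Real.log ‖he h‖ +
    cc k * (Nat.fib (2 * k + 1) : ℝ) * Real.log ‖hb h‖ -
    cc k * (Nat.fib (2 * k) : ℝ) * Real.log ‖ha h‖ +
    cc k * ((Nat.fib (2 * k + 1) - 1 : ℕ) : ℝ) * Real.log (Nsh h)

noncomputable def Mg : ℝ := Real.log (Real.sqrt 2) + Real.goldenRatio * Real.log 18

noncomputable def DG (h : HH) : EReal :=
  elog (⨅ k, Pk (Nsh h) h.1 k) +
    ((Wg h + ((2 - Real.goldenRatio) * Real.log (en (nv h)) - Mg) - Th h : ℝ) : EReal)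

lemma DG_inv : Inv DG := by
  intro α β γ l hα hβ hγ hl h hh
  have nα := (norm_pos_iff.2 hα).ne'
  have nβ := (norm_pos_iff.2 hβ).ne'
  have nγ := (norm_pos_iff.2 hγ).ne'
  have nl := (norm_pos_iff.2 hl).ne'
  have na := (norm_pos_iff.2 hh.1.1).ne'
  have nb := (norm_pos_iff.2 hh.1.2.1).ne'
  have ne := (norm_pos_iff.2 hh.1.2.2.1).ne'
  have nn := (en_pos (nv_ne hh)).ne'
  have hN := Nsh_pos hh
  have h1 : ∀ k, Pk (Nsh (scH α β γ l h)) (scH α β γ l h).1 k = Pk (Nsh h) h.1 k := by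
    intro k
    rw [Nsh_scH hβ]
    show Qk (‖l‖ * Nsh h) (scs α β γ l h.1) k ^ cc k = _
    rw [Qk_scs hα hβ hγ hl hh.1 hN]; rfl
  unfold DG
  simp only [h1]
  congr 2
  rw [Th_scH hα hβ hγ hl hh, nv_scH hβ, en_smul]
  unfold Wg
  rw [Nsh_scH hβ]
  show Real.goldenRatio ^ 2 * Real.log ‖γ • he h‖ + Real.goldenRatio * Real.log ‖β • hb h‖ -
    1 * Real.log ‖α • ha h‖ + _ + _ - _ = _
  rw [norm_smul, norm_smul, norm_smul, Real.log_mul nγ ne, Real.log_mul nβ nb, Real.log_mul nα na,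
    Real.log_mul nl hN.ne', Real.log_mul nl nn]
  ring

lemma DG_le {h : HH} (hh : h ∈ CX) : DG h ≤ 0 := by
  have pa := norm_pos_iff.2 hh.1.1
  have pb := norm_pos_iff.2 hh.1.2.1
  have pe := norm_pos_iff.2 hh.1.2.2.1
  have pn := norm_pos_iff.2 (nv_ne hh)
  have s2 : 0 < Real.sqrt 2 := Real.sqrt_pos.2 (by norm_num)
  have hN := Nsh_pos hh
  have g1 := Real.goldenRatio_pos
  have h1 : ⨅ k, Pk (Nsh h) h.1 k ≤ 1 :=
    (ciInf_le ⟨0, by rintro _ ⟨k, rfl⟩; exact Pk_nonneg hN h.1 k⟩ 0).trans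
      (Pk_le_one hN hh.1 (Nsh_ge h) 0)
  have h2 : elog (⨅ k, Pk (Nsh h) h.1 k) ≤ 0 := by
    refine (elog_mono h1).trans ?_
    rw [elog_of_pos one_pos, Real.log_one]; rfl
  have e1 : Real.log (en (ha h)) ≤ Real.log (Real.sqrt 2) + Real.log ‖ha h‖ := by
    rw [← Real.log_mul s2.ne' pa.ne']
    refine Real.log_le_log (en_pos hh.1.1) ?_
    have := en_le_norm (ha h)
    simpa using this
  have e2 : Real.log ‖hb h‖ ≤ Real.log (en (hb h)) := Real.log_le_log pb (pi_norm_le_en _)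
  have e3 : Real.log ‖he h‖ ≤ Real.log (en (he h)) := Real.log_le_log pe (pi_norm_le_en _)
  have e4 : Real.log (Nsh h) ≤ Real.log 18 + Real.log (en (nv h)) := by
    unfold Nsh
    rw [Real.log_mul (by norm_num) pn.ne']
    have := Real.log_le_log pn (pi_norm_le_en (nv h))
    linarith
  have h3 : Wg h + ((2 - Real.goldenRatio) * Real.log (en (nv h)) - Mg) - Th h ≤ 0 := by
    unfold Wg Th Mg
    have k2 := mul_le_mul_of_nonneg_left e2 g1.le
    have k3 := mul_le_mul_of_nonneg_left e3 (sq_nonneg Real.goldenRatio)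
    have k4 := mul_le_mul_of_nonneg_left e4 g1.le
    linarith
  unfold DG
  calc _ ≤ (0 : EReal) + ((0 : ℝ) : EReal) := add_le_add h2 (EReal.coe_le_coe_iff.2 h3)
    _ = 0 := by simp

lemma continuousOn_Nsh : Continuous Nsh := by
  unfold Nsh
  exact continuous_const.mul contDiff_nv.continuous.norm

lemma continuousOn_Pk (k : ℕ) : ContinuousOn (fun h : HH => Pk (Nsh h) h.1 k) CX := by
  have hit : ContinuousOn (fun h : HH => stp^[k] h.1) CX :=
    (continuousOn_iter k).1.comp (by fun_prop) fun h hh => hh.1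
  have hN := continuousOn_Nsh.continuousOn (s := CX)
  unfold Pk Qk
  refine ContinuousOn.rpow_const ?_ fun h hh => Or.inr (cc_pos k).le
  refine ContinuousOn.div ?_ ?_ ?_
  · exact (hit.snd.snd.fst.norm.mul hit.snd.snd.snd.norm).mul
      ((by fun_prop : ContinuousOn (fun h : HH => ‖h.1.2.1‖ ^ Nat.fib (2 * k)) CX))
  · exact ((by fun_prop : ContinuousOn (fun h : HH => ‖h.1.2.2.2‖ ^ Nat.fib (2 * k + 2) *
      ‖h.1.2.2.1‖ ^ Nat.fib (2 * k + 1)) CX)).mul (hN.pow _)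
  · intro h hh
    have pb := norm_pos_iff.2 hh.1.2.1
    have pe := norm_pos_iff.2 hh.1.2.2.1
    have := Nsh_pos hh
    positivity

lemma continuousOn_logs : ContinuousOn (fun h : HH => Real.log ‖ha h‖) CX ∧
    ContinuousOn (fun h : HH => Real.log ‖hb h‖) CX ∧
    ContinuousOn (fun h : HH => Real.log ‖he h‖) CX ∧
    ContinuousOn (fun h : HH => Real.log (Nsh h)) CX ∧
    ContinuousOn (fun h : HH => Real.log (en (nv h))) CX := by
  refine ⟨?_, ?_, ?_, ?_, ?_⟩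
  · exact ContinuousOn.log (by fun_prop) fun h hh => norm_ne_zero_iff.2 hh.1.1
  · exact ContinuousOn.log (by fun_prop) fun h hh => norm_ne_zero_iff.2 hh.1.2.1
  · exact ContinuousOn.log (by fun_prop) fun h hh => norm_ne_zero_iff.2 hh.1.2.2.1
  · exact ContinuousOn.log continuousOn_Nsh.continuousOn fun h hh => (Nsh_pos hh).ne'
  · exact ContinuousOn.log (continuous_en.comp contDiff_nv.continuous).continuousOn
      fun h hh => (en_pos (nv_ne hh)).ne'

lemma usc_DG : UpperSemicontinuousOn DG CX := by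
  obtain ⟨c1, c2, c3, c4, c5⟩ := continuousOn_logs
  have h1 : UpperSemicontinuousOn (fun h : HH => ⨅ k, Pk (Nsh h) h.1 k) CX := by
    refine upperSemicontinuousOn_ciInf ?_ fun k => (continuousOn_Pk k).upperSemicontinuousOn
    intro h hh
    exact ⟨0, by rintro _ ⟨k, rfl⟩; exact Pk_nonneg (Nsh_pos hh) h.1 k⟩
  have h2 : UpperSemicontinuousOn (fun h : HH => elog (⨅ k, Pk (Nsh h) h.1 k)) CX :=
    continuous_elog.comp_upperSemicontinuousOn h1 elog_mono
  refine usc_add_real h2 ?_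
  have hT := continuousOn_Th
  unfold Wg
  exact (((((continuousOn_const.mul c3).add (continuousOn_const.mul c2)).sub
    (continuousOn_const.mul c1)).add (continuousOn_const.mul c4)).add
    ((continuousOn_const.mul c5).sub continuousOn_const)).sub hT

lemma unif_mul {c : ℕ → ℝ} {c' : ℝ} (hc : Tendsto c atTop (𝓝 c')) {φ : ℂ → ℝ}
    (hφ : ContinuousOn φ (closedBall 0 1)) :
    TendstoUniformlyOn (fun k ζ => c k * φ ζ) (fun ζ => c' * φ ζ) atTop (closedBall 0 1) := by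
  obtain ⟨B, hB⟩ := (isCompact_closedBall (0 : ℂ) 1).exists_bound_of_continuousOn hφ
  rw [Metric.tendstoUniformlyOn_iff]
  intro ε hε
  have hB0 : 0 ≤ B := (norm_nonneg _).trans (hB 0 (by simp))
  have h1 := (Metric.tendsto_nhds.1 hc) (ε / (B + 1)) (by positivity)
  filter_upwards [h1] with k hk ζ hζ
  have h2 := hB ζ hζ
  rw [Real.dist_eq] at hk ⊢
  rw [← sub_mul, abs_mul, abs_sub_comm]
  rw [Real.norm_eq_abs] at h2
  rw [lt_div_iff₀ (by positivity)] at hk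
  have h3 : 0 ≤ |c k - c'| := abs_nonneg _
  nlinarith [abs_nonneg (φ ζ)]

lemma Pk_exp {h : HH} (hh : h ∈ CX) (k : ℕ) : Pk (Nsh h) h.1 k * Real.exp (wk k h) =
    ‖(stp^[k] h.1).2.2.1‖ ^ cc k * ‖(stp^[k] h.1).2.2.2‖ ^ cc k := by
  have pa := norm_pos_iff.2 hh.1.1
  have pb := norm_pos_iff.2 hh.1.2.1
  have pe := norm_pos_iff.2 hh.1.2.2.1
  have hN := Nsh_pos hh
  set D : ℝ := ‖h.1.2.2.2‖ ^ Nat.fib (2 * k + 2) * ‖h.1.2.2.1‖ ^ Nat.fib (2 * k + 1) *
      Nsh h ^ (Nat.fib (2 * k + 1) - 1) / ‖h.1.2.1‖ ^ Nat.fib (2 * k) with hD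
  have hDpos : 0 < D := by positivity
  have h1 : wk k h = Real.log D * cc k := by
    rw [hD, Real.log_div (by positivity) (by positivity), Real.log_mul (by positivity) (by positivity),
      Real.log_mul (by positivity) (by positivity), Real.log_pow, Real.log_pow, Real.log_pow,
      Real.log_pow]
    unfold wk
    ring
  rw [h1, ← Real.rpow_def_of_pos hDpos]
  unfold Pk
  have hQ : Qk (Nsh h) h.1 k = ‖(stp^[k] h.1).2.2.1‖ * ‖(stp^[k] h.1).2.2.2‖ / D := by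
    unfold Qk
    rw [hD]
    field_simp
  rw [hQ, ← Real.mul_rpow (by positivity) hDpos.le, div_mul_cancel₀ _ hDpos.ne',
    Real.mul_rpow (norm_nonneg _) (norm_nonneg _)]

lemma subLog_const {R : ℝ} {c : ℝ} (hc : 0 ≤ c) : SubLog R (fun _ => c) :=
  ⟨fun _ _ => hc, fun _ => (c : ℂ), differentiableOn_const _, by simp [abs_of_nonneg hc],
    fun ζ _ => by simp [abs_of_nonneg hc]⟩

lemma subLog_norm {R : ℝ} {h : ℂ → ℂ} (hh : DifferentiableOn ℂ h (ball 0 R)) :
    SubLog R (fun ζ => ‖h ζ‖) :=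
  ⟨fun _ _ => norm_nonneg _, h, hh, rfl, fun _ _ => le_rfl⟩

lemma subMean_DG (R : ℝ) (F : ℂ → HH) (hR : 1 < R) (hF : DifferentiableOn ℂ F (ball 0 R))
    (hm : ∀ ζ ∈ ball (0 : ℂ) R, F ζ ∈ CX) :
    SubMean (fun ζ => DG (F ζ) + ((Th (F ζ) : ℝ) : EReal)) 0 1 := by
  obtain ⟨c1, c2, c3, c4, c5⟩ := continuousOn_logs
  have hsub : closedBall (0 : ℂ) 1 ⊆ ball 0 R := closedBall_subset_ball hR
  have hm' : ∀ ζ ∈ closedBall (0 : ℂ) 1, F ζ ∈ CX := fun ζ hζ => hm ζ (hsub hζ)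
  have hFc : ContinuousOn F (closedBall 0 1) := hF.continuousOn.mono hsub
  have d1 := c1.comp hFc hm'
  have d2 := c2.comp hFc hm'
  have d3 := c3.comp hFc hm'
  have d4 := c4.comp hFc hm'
  have d5 := c5.comp hFc hm'
  have g2 : 0 < 2 - Real.goldenRatio := by have := Real.goldenRatio_lt_two; linarith
  set L : ℂ → ℝ := fun ζ => (2 - Real.goldenRatio) * Real.log (en (nv (F ζ))) - Mg with hL
  have hLc : ContinuousOn L (closedBall 0 1) := (continuousOn_const.mul d5).sub continuousOn_const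
  have key := subMean_limit (a := fun k ζ => Pk (Nsh (F ζ)) (F ζ).1 k)
    (w := fun k ζ => wk k (F ζ) + L ζ) (w' := fun ζ => Wg (F ζ) + L ζ)
    (fun k ζ hζ => Pk_nonneg (Nsh_pos (hm' ζ hζ)) _ k)
    (fun k => (continuousOn_Pk k).comp hFc hm')
    (fun ζ hζ => Pk_antitone (Nsh_pos (hm' ζ hζ)) (hm' ζ hζ).1 (Nsh_ge _)) ?_ ?_ ?_
  · refine SubMean.congr (fun ζ hζ => ?_) key
    show elog (⨅ k, Pk (Nsh (F ζ)) (F ζ).1 k) + ((Wg (F ζ) + L ζ : ℝ) : EReal) = _
    unfold DG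
    rw [add_assoc, ← EReal.coe_add, sub_add_cancel]
  · -- uniform convergence
    have t1 := tendsto_cc_fib 2
    have t2 := tendsto_cc_fib 1
    have t3 := tendsto_cc_fib 0
    have t4 := tendsto_cc_fib'
    have u1 := unif_mul t1 d3
    have u2 := unif_mul t2 d2
    have u3 := unif_mul t3 d1
    have u4 := unif_mul t4 d4
    have u5 : TendstoUniformlyOn (fun (_ : ℕ) ζ => L ζ) L atTop (closedBall 0 1) := by
      rw [Metric.tendstoUniformlyOn_iff]
      intro ε hε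
      exact Filter.Eventually.of_forall fun k ζ _ => by rw [dist_self]; exact hε
    have h6 := (((u1.add u2).sub u3).add u4).add u5
    refine (h6.congr (Filter.Eventually.of_forall fun k ζ _ => ?_)).congr_right fun ζ _ => ?_
    · show cc k * (Nat.fib (2 * k + 2) : ℝ) * Real.log ‖he (F ζ)‖ +
        cc k * (Nat.fib (2 * k + 1) : ℝ) * Real.log ‖hb (F ζ)‖ -
        cc k * (Nat.fib (2 * k + 0) : ℝ) * Real.log ‖ha (F ζ)‖ +
        cc k * ((Nat.fib (2 * k + 1) - 1 : ℕ) : ℝ) * Real.log (Nsh (F ζ)) + L ζ = _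
      rfl
    · show Real.goldenRatio ^ 2 * Real.log ‖he (F ζ)‖ + Real.goldenRatio ^ 1 * Real.log ‖hb (F ζ)‖ -
        Real.goldenRatio ^ 0 * Real.log ‖ha (F ζ)‖ + Real.goldenRatio * Real.log (Nsh (F ζ)) + L ζ =
        Wg (F ζ) + L ζ
      rw [pow_one, pow_zero]; rfl
  · unfold Wg
    exact ((((continuousOn_const.mul d3).add (continuousOn_const.mul d2)).sub
      (continuousOn_const.mul d1)).add (continuousOn_const.mul d4)).add hLc
  · intro k
    have hit := differentiableOn_iter (f := fun ζ => (F ζ).1) hF.fst (fun ζ hζ => (hm ζ hζ).1) k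
    have h1 : SubMean (fun ζ => elog (∏ i : Fin 4,
        (![fun ζ => ‖(stp^[k] (F ζ).1).2.2.1‖, fun ζ => ‖(stp^[k] (F ζ).1).2.2.2‖,
          fun ζ => en (nv (F ζ)), fun _ => Real.exp (-Mg)] : Fin 4 → ℂ → ℝ) i ζ ^
        (![cc k, cc k, 2 - Real.goldenRatio, 1] : Fin 4 → ℝ) i)) 0 1 := by
      refine subMean_prod hR ?_ ?_
      · intro i
        fin_cases i
        · exact SubLog.norm_pi hit.snd.snd.fst
        · exact SubLog.norm_pi hit.snd.snd.snd
        · exact SubLog.en fun i => (differentiable_nv i).comp_differentiableOn hF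
        · exact subLog_const (Real.exp_pos _).le
      · intro i
        fin_cases i
        · exact cc_pos k
        · exact cc_pos k
        · exact g2
        · exact one_pos
    refine SubMean.congr (fun ζ hζ => ?_) h1
    have hN := Nsh_pos (hm' ζ hζ)
    have hen := en_pos (nv_ne (hm' ζ hζ))
    rw [elog_add_coe (Pk_nonneg hN _ k)]
    congr 1
    rw [Fin.prod_univ_four]
    simp only [Matrix.cons_val]
    have e1 : Real.exp (wk k (F ζ) + L ζ) = Real.exp (wk k (F ζ)) *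
        (en (nv (F ζ)) ^ (2 - Real.goldenRatio) * Real.exp (-Mg)) := by
      rw [Real.exp_add, hL]
      congr 1
      rw [Real.rpow_def_of_pos hen, ← Real.exp_add]
      congr 1
      ring
    rw [e1, ← mul_assoc, Pk_exp (hm' ζ hζ), Real.rpow_one]
    ring

/-- homogeneous coordinates of the special point -/
noncomputable def hp : HH := (sA false 1 1 1 0, 0)

lemma hp_mem : hp ∈ CX := inj_mem (sA_mem one_ne_zero one_ne_zero one_ne_zero)

lemma DG_hp : DG hp ≠ ⊥ := by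
  have hN1 : 1 ≤ Nsh hp := by
    have h1 : ‖nv hp (Sum.inl (1, 0, 0))‖ ≤ ‖nv hp‖ := norm_le_pi_norm _ _
    have h2 : nv hp (Sum.inl (1, 0, 0)) = 1 := by
      show cst 1 0 0 = 1
      simp [cst]
    rw [h2, norm_one] at h1
    unfold Nsh; linarith
  have hN : 0 < Nsh hp := by linarith
  have h3 : ∀ k, Nsh hp ^ (-Real.sqrt 5) ≤ Pk (Nsh hp) hp.1 k := fun k =>
    Pk_lower hN1 (fun k => norm_orbit k norm_one norm_one norm_one) k
  have h4 : 0 < ⨅ k, Pk (Nsh hp) hp.1 k :=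
    lt_of_lt_of_le (Real.rpow_pos_of_pos hN _) (le_ciInf h3)
  unfold DG
  rw [elog_of_pos h4, ← EReal.coe_add]
  exact EReal.coe_ne_bot _

lemma thetaPsh_DG : IsThetaPsh thetaForm (fun m => DG (rep m)) :=
  thetaPsh_of_hom DG_inv (fun h hh => (DG_le hh).trans_lt (by simp)) usc_DG ⟨hp, hp_mem, DG_hp⟩
    subMean_DG

/-! ### the class is big -/

noncomputable def NBig (h : HH) : Fin 5 → ℝ :=
  ![‖(stp h.1).2.2.2‖, ‖h.2‖, en (he h), en (hb h), en (nv h)]

noncomputable def aBig : Fin 5 → ℝ :=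
  ![101 / 100, 1 / 2, Real.goldenRatio ^ 2 - 2 - 3 / 100, Real.goldenRatio - 3 / 2 - 3 / 100,
    1 / 2 - 2 / 100]

lemma aBig_pos (i : Fin 5) : 0 < aBig i := by
  have h1 : (8 : ℝ) / 5 < Real.goldenRatio := by
    unfold Real.goldenRatio
    have : (11 : ℝ) / 5 < Real.sqrt 5 := by
      rw [Real.lt_sqrt (by norm_num)]; norm_num
    linarith
  have h2 := Real.goldenRatio_sq
  fin_cases i
  · show (0 : ℝ) < 101 / 100
    norm_num
  · show (0 : ℝ) < 1 / 2
    norm_num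
  · show 0 < Real.goldenRatio ^ 2 - 2 - 3 / 100
    rw [h2]; linarith
  · show 0 < Real.goldenRatio - 3 / 2 - 3 / 100
    linarith
  · show (0 : ℝ) < 1 / 2 - 2 / 100
    norm_num

noncomputable def sBig (α β γ l : ℂ) : Fin 5 → ℝ :=
  ![‖l * β ^ 2 * γ ^ 2 / α‖, ‖l * β⁻¹‖, ‖γ‖, ‖β‖, ‖l‖]

noncomputable def DB (h : HH) : EReal :=
  elog (∏ i, NBig h i ^ aBig i) + ((1 / 100 * Kp h - Th h : ℝ) : EReal)

lemma NBig_nonneg (h : HH) (i : Fin 5) : 0 ≤ NBig h i := by
  fin_cases i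
  · exact norm_nonneg _
  · exact norm_nonneg _
  · exact en_nonneg _
  · exact en_nonneg _
  · exact en_nonneg _

lemma DB_inv : Inv DB := by
  intro α β γ l hα hβ hγ hl h hh
  have nα := norm_pos_iff.2 hα
  have nβ := norm_pos_iff.2 hβ
  have nγ := norm_pos_iff.2 hγ
  have nl := norm_pos_iff.2 hl
  have hs : ∀ i, 0 < sBig α β γ l i := by
    intro i
    fin_cases i
    · exact norm_pos_iff.2 (div_ne_zero (mul_ne_zero (mul_ne_zero hl (pow_ne_zero 2 hβ))
        (pow_ne_zero 2 hγ)) hα)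
    · exact norm_pos_iff.2 (mul_ne_zero hl (inv_ne_zero hβ))
    · exact nγ
    · exact nβ
    · exact nl
  have h1 : ∀ i, NBig (scH α β γ l h) i = sBig α β γ l i * NBig h i := by
    intro i
    fin_cases i
    · show ‖(stp (scs α β γ l h.1)).2.2.2‖ = ‖l * β ^ 2 * γ ^ 2 / α‖ * ‖(stp h.1).2.2.2‖
      rw [stp_scs hα]
      show ‖(l * β ^ 2 * γ ^ 2 / α) • (stp h.1).2.2.2‖ = _
      rw [norm_smul]
    · show ‖l * β⁻¹ * h.2‖ = ‖l * β⁻¹‖ * ‖h.2‖
      rw [norm_mul]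
    · exact en_smul _ _
    · exact en_smul _ _
    · show en (nv (scH α β γ l h)) = ‖l‖ * en (nv h)
      rw [nv_scH hβ, en_smul]
  have h2 : ∏ i, NBig (scH α β γ l h) i ^ aBig i =
      (∏ i, NBig h i ^ aBig i) * Real.exp (∑ i, Real.log (sBig α β γ l i) * aBig i) := by
    rw [Real.exp_sum, ← Finset.prod_mul_distrib]
    refine Finset.prod_congr rfl fun i _ => ?_
    rw [h1, Real.mul_rpow (hs i).le (NBig_nonneg h i), Real.rpow_def_of_pos (hs i), mul_comm]
  unfold DB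
  rw [h2, ← elog_add_coe (Finset.prod_nonneg fun i _ => Real.rpow_nonneg (NBig_nonneg h i) _),
    add_assoc, ← EReal.coe_add]
  congr 2
  rw [Th_scH hα hβ hγ hl hh, Kp_scH hα hβ hγ hl hh, Fin.sum_univ_five]
  have e0 : Real.log (sBig α β γ l 0) = Real.log ‖l‖ + 2 * Real.log ‖β‖ + 2 * Real.log ‖γ‖ -
      Real.log ‖α‖ := by
    show Real.log ‖l * β ^ 2 * γ ^ 2 / α‖ = _
    rw [norm_div, norm_mul, norm_mul, norm_pow, norm_pow, Real.log_div (by positivity) nα.ne',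
      Real.log_mul (by positivity) (by positivity), Real.log_mul nl.ne' (by positivity),
      Real.log_pow, Real.log_pow]
    push_cast; ring
  have e1 : Real.log (sBig α β γ l 1) = Real.log ‖l‖ - Real.log ‖β‖ := by
    show Real.log ‖l * β⁻¹‖ = _
    rw [norm_mul, norm_inv, Real.log_mul nl.ne' (by positivity), Real.log_inv]
    ring
  rw [e0, e1]
  simp only [sBig, aBig, Matrix.cons_val]
  ring

lemma continuousOn_NBig (i : Fin 5) : ContinuousOn (fun h : HH => NBig h i) CX := by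
  have hit : ContinuousOn (fun h : HH => stp^[1] h.1) CX :=
    (continuousOn_iter 1).1.comp (by fun_prop) fun h hh => hh.1
  fin_cases i
  · exact hit.snd.snd.snd.norm
  · show ContinuousOn (fun h : HH => ‖h.2‖) CX
    fun_prop
  · exact continuous_en.comp_continuousOn (by fun_prop)
  · exact continuous_en.comp_continuousOn (by fun_prop)
  · exact (continuous_en.comp contDiff_nv.continuous).continuousOn

lemma continuousOn_Kp : ContinuousOn Kp CX := by
  have hn : ContinuousOn (fun h : HH => en (nv h)) CX :=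
    (continuous_en.comp contDiff_nv.continuous).continuousOn
  have h1 : ContinuousOn (fun h : HH => en (ha h)) CX := continuous_en.comp_continuousOn (by fun_prop)
  have h2 : ContinuousOn (fun h : HH => en (hb h)) CX := continuous_en.comp_continuousOn (by fun_prop)
  have h3 : ContinuousOn (fun h : HH => en (he h)) CX := continuous_en.comp_continuousOn (by fun_prop)
  unfold Kp
  exact (((h1.log fun h hh => (en_pos hh.1.1).ne').add
    (h2.log fun h hh => (en_pos hh.1.2.1).ne')).add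
    (h3.log fun h hh => (en_pos hh.1.2.2.1).ne')).add
    (hn.log fun h hh => (en_pos (nv_ne hh)).ne')

lemma usc_DB : UpperSemicontinuousOn DB CX := by
  have h1 : ContinuousOn (fun h : HH => ∏ i, NBig h i ^ aBig i) CX :=
    continuousOn_finsetProd _ fun i _ =>
      (continuousOn_NBig i).rpow_const fun h _ => Or.inr (aBig_pos i).le
  exact usc_add_real (continuous_elog.comp_continuousOn h1).upperSemicontinuousOn
    ((continuousOn_const.mul continuousOn_Kp).sub continuousOn_Th)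

lemma subMean_DB {w' : Ch} (R : ℝ) (F : ℂ → HH) (hR : 1 < R)
    (hF : DifferentiableOn ℂ F (ball 0 R)) (hm : ∀ ζ ∈ ball (0 : ℂ) R, F ζ ∈ CX)
    (hw : ∀ ζ ∈ ball (0 : ℂ) R, F ζ ∈ Nz w') :
    SubMean (fun ζ => DB (F ζ) + ((Th (F ζ) - 1 / 100 * (Kp (F ζ) - kw w' (F ζ)) : ℝ) : EReal)) 0 1 := by
  have hsub : closedBall (0 : ℂ) 1 ⊆ ball 0 R := closedBall_subset_ball hR
  have hit := differentiableOn_iter (f := fun ζ => (F ζ).1) hF.fst (fun ζ hζ => (hm ζ hζ).1) 1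
  have h1 : SubMean (fun ζ => elog (∏ i : Fin 6,
      (![fun ζ => NBig (F ζ) 0, fun ζ => NBig (F ζ) 1, fun ζ => NBig (F ζ) 2,
        fun ζ => NBig (F ζ) 3, fun ζ => NBig (F ζ) 4,
        fun ζ => ‖∏ i, chv w' (F ζ) i‖] : Fin 6 → ℂ → ℝ) i ζ ^
      (![aBig 0, aBig 1, aBig 2, aBig 3, aBig 4, 1 / 100] : Fin 6 → ℝ) i)) 0 1 := by
    refine subMean_prod hR ?_ ?_
    · intro i
      fin_cases i
      · exact SubLog.norm_pi hit.snd.snd.snd
      · exact subLog_norm hF.snd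
      · exact SubLog.en fun i => differentiableOn_pi.1 hF.fst.snd.snd.snd i
      · exact SubLog.en fun i => differentiableOn_pi.1 hF.fst.snd.snd.fst i
      · exact SubLog.en fun i => (differentiable_nv i).comp_differentiableOn hF
      · refine subLog_norm ?_
        exact DifferentiableOn.fun_finsetProd fun i _ =>
          (differentiable_chv w' i).comp_differentiableOn hF
    · intro i
      fin_cases i
      · exact aBig_pos 0
      · exact aBig_pos 1
      · exact aBig_pos 2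
      · exact aBig_pos 3
      · exact aBig_pos 4
      · show (0 : ℝ) < 1 / 100
        norm_num
  refine SubMean.congr (fun ζ hζ => ?_) h1
  have hne : ∀ i, chv w' (F ζ) i ≠ 0 := fun i => chv_ne (hw ζ (hsub hζ)) i
  have hpos : 0 < ‖∏ i, chv w' (F ζ) i‖ := norm_pos_iff.2 (Finset.prod_ne_zero_iff.2 fun i _ => hne i)
  have hkw : kw w' (F ζ) = Real.log ‖∏ i, chv w' (F ζ) i‖ := by
    rw [norm_prod, Real.log_prod fun i _ => norm_ne_zero_iff.2 (hne i)]
    unfold kw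
    simp
  unfold DB
  rw [add_assoc, ← EReal.coe_add,
    elog_add_coe (Finset.prod_nonneg fun i _ => Real.rpow_nonneg (NBig_nonneg _ i) _)]
  congr 1
  rw [Fin.prod_univ_six, Fin.prod_univ_five]
  simp only [Matrix.cons_val]
  congr 1
  rw [Real.rpow_def_of_pos hpos, ← hkw]
  congr 1
  ring

lemma isBig : thetaForm.IsBig kapForm := by
  refine ⟨1 / 100, fun m => DB (rep m), by norm_num, ?_, ?_⟩
  · have hm : ((sA false 1 1 1 0, 1) : HH) ∈ CX := by
      have := (sA_mem (z := false) (t := 0) one_ne_zero one_ne_zero one_ne_zero :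
        sA false 1 1 1 0 ∈ Con)
      exact ⟨⟨this.2.1, this.2.2.1, this.2.2.2.1, this.2.2.2.2⟩, Or.inr one_ne_zero⟩
    refine ⟨mk (sA false 1 1 1 0, 1), ?_⟩
    show DB (rep (mk (sA false 1 1 1 0, 1))) ≠ ⊥
    rw [DB_inv.rep_mk hm]
    have hpos : ∀ i, 0 < NBig (sA false 1 1 1 0, 1) i := by
      intro i
      fin_cases i
      · show 0 < ‖(stp (sA false 1 1 1 0)).2.2.2‖
        rw [stp_sA one_ne_zero]
        refine norm_pos_iff.2 ?_
        intro h
        have := congrFun h 1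
        simp [ZZ] at this
      · show 0 < ‖(1 : ℂ)‖
        simp
      · exact en_pos hm.1.2.2.1
      · exact en_pos hm.1.2.1
      · exact en_pos (nv_ne hm)
    unfold DB
    rw [elog_of_pos (Finset.prod_pos fun i _ => Real.rpow_pos_of_pos (hpos i) _), ← EReal.coe_add]
    exact EReal.coe_ne_bot _
  · intro w w'
    show IsPshOn E29 (src w ∩ src w') (fun m => DB (rep m) +
      ((Th (lft w (fwd w m)) - 1 / 100 * Kp (lft w' (fwd w' m)) : ℝ) : EReal))
    refine isPshOn_aux (w := w) (S := src w ∩ src w') DB_inv ?_ usc_DB Set.inter_subset_left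
      (P := fun m => Th (lft w (fwd w m)) - 1 / 100 * Kp (lft w' (fwd w' m))) ?_ ?_
    · intro h _
      exact EReal.add_lt_top (elog_lt_top _).ne (EReal.coe_ne_top _)
    · exact ((continuousOn_pot w (contDiff_Th w)).mono Set.inter_subset_left).sub
        (continuousOn_const.mul ((continuousOn_pot w' (contDiff_Kp w')).mono Set.inter_subset_right))
    · intro r f hr hf
      obtain ⟨-, h1, -⟩ := disc_lift (w := w) Set.inter_subset_left hf
      have h2 := subMean_DB (w' := w') r _ hr h1 (fun ζ _ => lft_mem w _)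
        (fun ζ hζ => (lft_fwd (hf.2 hζ).1 (hf.2 hζ).2).1)
      refine SubMean.congr (fun ζ hζ => ?_) h2
      have hζ' : ζ ∈ ball (0 : ℂ) r := closedBall_subset_ball hr hζ
      obtain ⟨h3, h4⟩ := lft_fwd (hf.2 hζ').1 (hf.2 hζ').2
      rw [h4, Kp_scl (lft_mem w _) h3]

/-! ### conclusion -/

/-- homogeneous coordinates of the points with forced poles -/
noncomputable def hq (n : ℕ) : HH := (sA false 1 1 1 ((1 / 4) ^ n), 0)

lemma hq_mem (n : ℕ) : hq n ∈ CX := inj_mem (sA_mem one_ne_zero one_ne_zero one_ne_zero)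

lemma envelope_hq (n : ℕ) : envelope thetaForm (mk (hq n)) = ⊥ := by
  unfold envelope
  rw [sSup_eq_bot]
  rintro y ⟨u, hu, h0, rfl⟩
  obtain ⟨h1, h2⟩ := orbit_sA n (z := false) (α := 1) (β := 1) (γ := 1) one_ne_zero one_ne_zero
    one_ne_zero
  exact forced_pole hu h0 h1 h2

lemma envelope_hp : envelope thetaForm (mk hp) ≠ ⊥ := by
  intro h
  have h1 : DG (rep (mk hp)) ≤ envelope thetaForm (mk hp) :=
    le_sSup ⟨_, thetaPsh_DG, fun m => DG_le (rep_mem m), rfl⟩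
  rw [h, le_bot_iff, DG_inv.rep_mk hp_mem] at h1
  exact DG_hp h1

lemma tendsto_hq : Tendsto (fun n => mk (hq n)) atTop (𝓝 (mk hp)) := by
  have h1 : Tendsto hq atTop (𝓝[CX] hp) := by
    refine tendsto_nhdsWithin_iff.2 ⟨?_, Filter.Eventually.of_forall hq_mem⟩
    have h2 : Tendsto (fun n : ℕ => ((1 / 4 : ℂ)) ^ n) atTop (𝓝 0) :=
      tendsto_pow_atTop_nhds_zero_of_norm_lt_one (by norm_num)
    have h3 : Continuous (fun t : ℂ => ((sA false 1 1 1 t, 0) : HH)) := by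
      have hv : ∀ f : ℂ → ℂ, Continuous f → Continuous (fun t : ℂ => (1 : ℂ) • (![1, f t] : V2)) := by
        intro f hf
        have h4 : Continuous (fun t : ℂ => (![1, f t] : V2)) := by
          refine continuous_pi fun i => ?_
          fin_cases i
          · exact continuous_const
          · exact hf
        simp only [one_smul]
        exact h4
      exact Continuous.prodMk (Continuous.prodMk continuous_const (Continuous.prodMk
        continuous_const (Continuous.prodMk (hv (fun t => t / 2) (by fun_prop))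
        (hv (fun t => t) continuous_id)))) continuous_const
    exact (h3.tendsto 0).comp h2
  exact (continuousOn_mk hp hp_mem).tendsto.comp h1

lemma mk_hp_mem_nonBounded : mk hp ∈ nonBoundedLocus thetaForm := by
  rintro W hW ⟨C, hC⟩
  obtain ⟨n, hn⟩ := (tendsto_hq.eventually hW).exists
  have h1 := (hC _ hn).1
  rw [envelope_hq, le_bot_iff] at h1
  exact EReal.coe_ne_bot _ h1

lemma mk_hp_mem_closure : mk hp ∈ closure (polarLocus thetaForm) :=
  mem_closure_of_tendsto tendsto_hq (Filter.Eventually.of_forall fun n => envelope_hq n)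

/-- The main result for the manifold `Tot`. -/
theorem main : polarLocus thetaForm ≠ nonBoundedLocus thetaForm ∧
    ∃ x ∈ nonBoundedLocus thetaForm, x ∈ closure (polarLocus thetaForm) ∧
      ⊥ < envelope thetaForm x := by
  refine ⟨?_, mk hp, mk_hp_mem_nonBounded, mk_hp_mem_closure, bot_lt_iff_ne_bot.2 envelope_hp⟩
  intro h
  have h1 : mk hp ∈ polarLocus thetaForm := by rw [h]; exact mk_hp_mem_nonBounded
  exact envelope_hp h1

lemma finrank_E29 : Module.finrank ℂ E29 = 29 := by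
  simp [Module.finrank_prod]

end Pool.Agent.PNB
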